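import Mathlib

/-! Abstract projection data on a group; independent sets; the zigzag and drift lemmas. -/

namespace Pool.Agent.Lib.MP21ae20

open Finset

/-- Abstract projection data on a group `G`. -/
structure Proj (G : Type*) [Group G] where
  f : G → ℤ
  θ : ℤ
  θ_pos : 0 < θ
  finB : {h | ¬ ∀ x, |f x - f h| ≤ θ ∨ |f (h⁻¹ * x) - f h⁻¹| ≤ θ}.Finite
  finF : ∀ g, {h | θ < |f h - f (h * g)|}.Finite
  infH : {s | ∀ g, f (g * s) = f g}.Infinite
  lo : ∃ t, f t ≤ θ
  hi : ∃ t, 99 * θ ≤ f t

namespace Proj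

variable {G : Type*} [Group G] (P : Proj G)

/-- the translate of `f` -/
def u (h x : G) : ℤ := P.f (h⁻¹ * x)

def d (h x y : G) : ℤ := |P.u h x - P.u h y|

def Un (h k : G) : Prop := ∀ x, P.d h x k ≤ P.θ ∨ P.d k x h ≤ P.θ

lemma u_mul (g h x : G) : P.u (g * h) (g * x) = P.u h x := by
  simp [u, mul_assoc]

lemma d_mul (g h x y : G) : P.d (g * h) (g * x) (g * y) = P.d h x y := by
  simp [d, u_mul]

lemma d_comm (h x y : G) : P.d h x y = P.d h y x := abs_sub_comm _ _

lemma d_self (h x : G) : P.d h x x = 0 := by simp [d]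

lemma d_nonneg (h x y : G) : 0 ≤ P.d h x y := abs_nonneg _

lemma d_tri (h x y z : G) : P.d h x z ≤ P.d h x y + P.d h y z := abs_sub_le _ _ _

lemma d_le_iff {h x y : G} {c : ℤ} :
    P.d h x y ≤ c ↔ P.u h x - P.u h y ≤ c ∧ P.u h y - P.u h x ≤ c := abs_sub_le_iff

lemma lt_d_iff {h x y : G} {c : ℤ} :
    c < P.d h x y ↔ c < P.u h x - P.u h y ∨ c < P.u h y - P.u h x := by
  rw [← not_le, d_le_iff]; omega

variable {P}

lemma Un.symm {h k : G} (H : P.Un h k) : P.Un k h := fun x => (H x).symm

lemma Un.mul {h k : G} (H : P.Un h k) (g : G) : P.Un (g * h) (g * k) := by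
  intro x
  have := H (g⁻¹ * x)
  rw [← P.d_mul g, ← P.d_mul g k] at this
  simpa using this

variable (P)

/-- the finite set of related elements -/
noncomputable def F0 : Finset G := P.finB.toFinset

lemma un_iff (h k : G) : P.Un h k ↔ h⁻¹ * k ∉ P.F0 := by
  simp only [F0, Set.Finite.mem_toFinset, Set.mem_ofPred_eq, not_not, Un, d, u]
  constructor
  · intro H x
    have := H (h * x)
    simpa [mul_assoc] using this
  · intro H x
    have := H (h⁻¹ * x)
    simpa [mul_assoc] using this

/-- the basic multiplicity constant -/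
noncomputable def M : ℕ := P.F0.card + 1

lemma M_pos : 0 < P.M := Nat.succ_pos _

open Classical in
lemma card_related_le (Y : Finset G) (h : G) :
    (Y.filter (fun k => ¬ P.Un h k)).card ≤ P.F0.card := by
  apply Finset.card_le_card_of_injOn (fun k => h⁻¹ * k)
  · intro k hk
    simp only [coe_filter, Set.mem_ofPred_eq, un_iff, not_not] at hk
    exact hk.2
  · intro a _ b _ hab
    simpa using hab

lemma exists_indep (Y : Finset G) : ∃ Z ⊆ Y, (∀ h ∈ Z, ∀ k ∈ Z, h ≠ k → P.Un h k) ∧
    Y.card ≤ P.M * Z.card := by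
  classical
  induction Y using Finset.strongInduction with
  | H Y ih =>
    rcases Y.eq_empty_or_nonempty with rfl | ⟨h, hh⟩
    · exact ⟨∅, by simp⟩
    · set Y' := Y.filter (fun k => k ≠ h ∧ P.Un h k) with hY'
      have hss : Y' ⊂ Y := by
        refine Finset.ssubset_iff_subset_ne.2 ⟨filter_subset _ _, fun he => ?_⟩
        have : h ∈ Y' := he ▸ hh
        simp [hY'] at this
      obtain ⟨Z, hZ, hZu, hZc⟩ := ih Y' hss
      have hhZ : h ∉ Z := fun hz => by
        have := hZ hz
        simp [hY'] at this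
      refine ⟨insert h Z, ?_, ?_, ?_⟩
      · exact insert_subset hh (hZ.trans (filter_subset _ _))
      · intro a ha b hb hab
        rcases mem_insert.1 ha with ha' | ha' <;> rcases mem_insert.1 hb with hb' | hb'
        · exact absurd (ha'.trans hb'.symm) hab
        · exact ha' ▸ (mem_filter.1 (hZ hb')).2.2
        · exact hb' ▸ (mem_filter.1 (hZ ha')).2.2.symm
        · exact hZu a ha' b hb' hab
      · rw [card_insert_of_notMem hhZ]
        have h1 : Y ⊆ insert h (Y' ∪ Y.filter (fun k => ¬ P.Un h k)) := by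
          intro k hk
          simp only [mem_insert, mem_union, hY', mem_filter]
          tauto
        have h2 := card_le_card h1
        have h3 := card_insert_le h (Y' ∪ Y.filter (fun k => ¬ P.Un h k))
        have h4 := card_union_le Y' (Y.filter (fun k => ¬ P.Un h k))
        have h5 := P.card_related_le Y h
        unfold M at *
        nlinarith

/-- existence of a minimal element -/
lemma exists_first (x : G) (Z : Finset G) (hne : Z.Nonempty)
    (hZ : ∀ h ∈ Z, ∀ k ∈ Z, h ≠ k → P.Un h k) :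
    ∃ W₀ ∈ Z, ∀ W ∈ Z, W ≠ W₀ → P.d W x W₀ ≤ 3 * P.θ := by
  classical
  have hθ := P.θ_pos
  let r : G → G → Prop := fun W U => W ∈ Z ∧ U ∈ Z ∧ W ≠ U ∧ 3 * P.θ < P.d W x U
  have key : ∀ W U, Relation.TransGen r W U → W ∈ Z ∧ U ∈ Z ∧ W ≠ U ∧ 2 * P.θ < P.d W x U := by
    intro W U hWU
    induction hWU using Relation.TransGen.head_induction_on with
    | single h => exact ⟨h.1, h.2.1, h.2.2.1, by have := h.2.2.2; omega⟩
    | @head a b h _ ih =>
      obtain ⟨ha, hb, hab, h3⟩ := h
      obtain ⟨-, hU, hbU, h2⟩ := ih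
      have hun := hZ a ha b hb hab
      have e1 : P.d b x a ≤ P.θ := by
        rcases hun x with h | h
        · omega
        · exact h
      have e2 : P.θ < P.d b a U := by
        have := P.d_tri b x a U
        omega
      have e3 : P.d a U b ≤ P.θ := by
        rcases hun U with h | h
        · exact h
        · rw [P.d_comm] at h; omega
      refine ⟨ha, hU, ?_, ?_⟩
      · rintro rfl
        rw [P.d_self] at e2; omega
      · have := P.d_tri a x U b
        omega
  obtain ⟨W₀, hW₀, hmin⟩ := Z.exists_min_image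
    (fun U => (Z.filter (fun W => Relation.TransGen r W U)).card) hne
  refine ⟨W₀, hW₀, fun W hW hne' => ?_⟩
  by_contra hlt
  have hr : r W W₀ := ⟨hW, hW₀, hne', by omega⟩
  have hss : Z.filter (fun V => Relation.TransGen r V W) ⊂
      Z.filter (fun V => Relation.TransGen r V W₀) := by
    refine Finset.ssubset_iff_of_subset ?_ |>.2 ⟨W, ?_, ?_⟩
    · intro V hV
      rw [mem_filter] at hV ⊢
      exact ⟨hV.1, hV.2.tail hr⟩
    · exact mem_filter.2 ⟨hW, Relation.TransGen.single hr⟩
    · intro hV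
      exact (key _ _ (mem_filter.1 hV).2).2.2.1 rfl
  have := card_lt_card hss
  have := hmin W hW
  omega

/-- two elements share a far point as seen from `x` -/
def Edge (x : G) (Z : Finset G) (W U : G) : Prop :=
  W ∈ Z ∧ U ∈ Z ∧ ∃ z, 7 * P.θ < P.d W x z ∧ 7 * P.θ < P.d U x z

lemma zigzag (x : G) (Z : Finset G) (hZ : ∀ h ∈ Z, ∀ k ∈ Z, h ≠ k → P.Un h k) :
    ∀ V, (∀ W ∈ Z, P.Un V W ∧ P.d W x V ≤ 3 * P.θ) →
      ∀ W U, Relation.ReflTransGen (P.Edge x Z) W U → P.d V W U ≤ 2 * P.θ := by
  classical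
  have hθ := P.θ_pos
  induction Z using Finset.strongInduction with
  | H Z ih =>
    intro V hV W U hWU
    rcases Z.eq_empty_or_nonempty with rfl | hne
    · rcases hWU.cases_head with rfl | ⟨c, hc, -⟩
      · rw [P.d_self]; omega
      · exact absurd hc.1 (by simp)
    obtain ⟨W₀, hW₀, hmin⟩ := P.exists_first x Z hne hZ
    have hss : Z.erase W₀ ⊂ Z := erase_ssubset hW₀
    have hZ' : ∀ h ∈ Z.erase W₀, ∀ k ∈ Z.erase W₀, h ≠ k → P.Un h k :=
      fun h hh k hk => hZ h (mem_of_mem_erase hh) k (mem_of_mem_erase hk)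
    have ih' := ih _ hss hZ'
    have hsym : ∀ a b, Relation.ReflTransGen (P.Edge x Z) a b →
        Relation.ReflTransGen (P.Edge x Z) b a := by
      intro a b hab
      induction hab with
      | refl => exact Relation.ReflTransGen.refl
      | tail _ hbc ih =>
        obtain ⟨ha, hb, z, h1, h2⟩ := hbc
        exact ih.head ⟨hb, ha, z, h2, h1⟩
    -- everything reachable from `W₀` is close to `W₀`
    have att : ∀ A, Relation.ReflTransGen (P.Edge x Z) W₀ A → A = W₀ ∨
        (A ∈ Z.erase W₀ ∧ ∃ W₁, P.Edge x Z W₀ W₁ ∧ W₁ ≠ W₀ ∧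
          Relation.ReflTransGen (P.Edge x (Z.erase W₀)) W₁ A) := by
      intro A hA
      induction hA with
      | refl => exact Or.inl rfl
      | @tail b c _ hbc ihb =>
        by_cases hc : c = W₀
        · exact Or.inl hc
        right
        have hcZ : c ∈ Z.erase W₀ := mem_erase.2 ⟨hc, hbc.2.1⟩
        refine ⟨hcZ, ?_⟩
        rcases ihb with rfl | ⟨hb, W₁, h1, h2, h3⟩
        · exact ⟨c, hbc, hc, Relation.ReflTransGen.refl⟩
        · exact ⟨W₁, h1, h2, h3.tail ⟨hb, hcZ, hbc.2.2⟩⟩
    have close : ∀ A, Relation.ReflTransGen (P.Edge x Z) W₀ A → P.d V A W₀ ≤ P.θ := by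
      intro A hA
      rcases att A hA with rfl | ⟨hA', W₁, ⟨-, h1Z, z, hz0, hz1⟩, h2, h3⟩
      · rw [P.d_self]; omega
      have hun := hZ W₀ hW₀ W₁ h1Z h2.symm
      have m1 := hmin W₁ h1Z h2
      have e1 : P.d W₀ z W₁ ≤ P.θ := by
        rcases hun z with h | h
        · exact h
        · have := P.d_tri W₁ x W₀ z
          rw [P.d_comm W₁ z W₀] at h
          omega
      have e2 : P.d W₀ W₁ A ≤ 2 * P.θ := by
        refine ih' W₀ (fun B hB => ?_) W₁ A h3
        have hB' := mem_erase.1 hB
        exact ⟨hZ W₀ hW₀ B hB'.2 (Ne.symm hB'.1), hmin B hB'.2 hB'.1⟩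
      have e3 : 4 * P.θ < P.d W₀ x A := by
        have a1 := P.d_tri W₀ x A z
        have a2 := P.d_tri W₀ A W₁ z
        rw [P.d_comm W₀ A W₁] at a2
        rw [P.d_comm W₀ z W₁] at e1
        omega
      obtain ⟨hVu, hVd⟩ := hV W₀ hW₀
      rcases hVu A with h | h
      · exact h
      · have a1 := P.d_tri W₀ x V A
        rw [P.d_comm W₀ A V] at h
        omega
    by_cases hreach : Relation.ReflTransGen (P.Edge x Z) W₀ W
    · have c1 := close W hreach
      have c2 := close U (hreach.trans hWU)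
      have := P.d_tri V W W₀ U
      rw [P.d_comm V W₀ U] at this
      omega
    · have av : ∀ A, Relation.ReflTransGen (P.Edge x Z) W A →
          Relation.ReflTransGen (P.Edge x (Z.erase W₀)) W A := by
        intro A hA
        induction hA with
        | refl => exact Relation.ReflTransGen.refl
        | @tail b c hb hbc ihb =>
          refine ihb.tail ⟨mem_erase.2 ⟨?_, hbc.1⟩, mem_erase.2 ⟨?_, hbc.2.1⟩, hbc.2.2⟩
          · rintro rfl
            exact hreach (hsym _ _ hb)
          · rintro rfl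
            exact hreach (hsym _ _ (hb.tail hbc))
      exact ih' V (fun B hB => hV B (mem_of_mem_erase hB)) W U (av U hWU)

/-- `h` drifts along the sequence `z 0, ..., z J` while staying far from `o` -/
def Drift (o : G) (z : ℕ → G) (J : ℕ) (h : G) : Prop :=
  ∃ a b, a ≤ b ∧ b ≤ J ∧ (∀ c, a ≤ c → c ≤ b → 8 * P.θ < P.d h o (z c)) ∧
    4 * P.θ < P.d h (z a) (z b)

lemma drift_card (o : G) (z : ℕ → G) (J : ℕ) (Y : Finset G) (hY : ∀ h ∈ Y, P.Drift o z J h) :
    Y.card ≤ P.M * J := by
  classical
  have hθ := P.θ_pos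
  obtain ⟨Z, hZY, hZ, hc⟩ := P.exists_indep Y
  refine hc.trans (Nat.mul_le_mul_left _ ?_)
  have top : ∀ h ∈ Z, ∃ c < J, 8 * P.θ < P.d h o (z c) ∧ 8 * P.θ < P.d h o (z (c + 1)) ∧
      ¬ ∃ W ∈ Z, W ≠ h ∧ 7 * P.θ < P.d W h (z c) ∧ 7 * P.θ < P.d W h (z (c + 1)) := by
    intro h hh
    obtain ⟨a, b, hab, hbJ, hfar, hdr⟩ := hY h (hZY hh)
    by_contra hcon
    push Not at hcon
    have wit : ∀ c, a ≤ c → c < b →
        ∃ W ∈ Z, W ≠ h ∧ 7 * P.θ < P.d W h (z c) ∧ 7 * P.θ < P.d W h (z (c + 1)) :=
      fun c h1 h2 => hcon c (by omega) (hfar c h1 (by omega)) (hfar (c + 1) (by omega) (by omega))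
    have hab' : a < b := by
      rcases hab.lt_or_eq with h | rfl
      · exact h
      · rw [P.d_self] at hdr; omega
    obtain ⟨W₁, hW₁, hW₁h, hW₁a, hW₁b⟩ := wit a le_rfl hab'
    have chain : ∀ c, a < c → c ≤ b → ∃ U ∈ Z.erase h, 7 * P.θ < P.d U h (z c) ∧
        Relation.ReflTransGen (P.Edge h (Z.erase h)) W₁ U := by
      intro c hc
      induction c, hc using Nat.le_induction with
      | base => exact fun _ => ⟨W₁, mem_erase.2 ⟨hW₁h, hW₁⟩, hW₁b, Relation.ReflTransGen.refl⟩
      | succ c hc ih =>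
        intro hcb
        obtain ⟨U, hU, hU1, hU2⟩ := ih (by omega)
        obtain ⟨W, hW, hWh, hWa, hWb⟩ := wit c (by omega) (by omega)
        exact ⟨W, mem_erase.2 ⟨hWh, hW⟩, hWb,
          hU2.tail ⟨hU, mem_erase.2 ⟨hWh, hW⟩, z c, hU1, hWa⟩⟩
    obtain ⟨U, hU, hU1, hU2⟩ := chain b hab' le_rfl
    have hz := P.zigzag h (Z.erase h)
      (fun p hp q hq => hZ p (mem_of_mem_erase hp) q (mem_of_mem_erase hq)) h
      (fun W hW => ⟨hZ h hh W (mem_of_mem_erase hW) (Ne.symm (mem_erase.1 hW).1),
        by rw [P.d_self]; omega⟩) W₁ U hU2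
    have e1 : P.d h (z a) W₁ ≤ P.θ := by
      rcases hZ h hh W₁ hW₁ hW₁h.symm (z a) with h1 | h1
      · exact h1
      · rw [P.d_comm] at h1; omega
    have e2 : P.d h (z b) U ≤ P.θ := by
      rcases hZ h hh U (mem_of_mem_erase hU) (Ne.symm (mem_erase.1 hU).1) (z b) with h1 | h1
      · exact h1
      · rw [P.d_comm] at h1; omega
    have a1 := P.d_tri h (z a) W₁ (z b)
    have a2 := P.d_tri h W₁ U (z b)
    rw [P.d_comm h U (z b)] at a2
    omega
  choose! c hcJ hc1 hc2 hc3 using top
  rw [← card_range J]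
  apply Finset.card_le_card_of_injOn c
  · intro h hh
    simpa using hcJ h hh
  · intro h hh k hk hck
    by_contra hne
    have hun := hZ h hh k hk hne
    have gen : ∀ p ∈ Z, ∀ q ∈ Z, p ≠ q → c p = c q → P.d q o p ≤ P.θ → False := by
      intro p hp q hq hpq hcpq hd
      apply hc3 p hp
      refine ⟨q, hq, hpq.symm, ?_, ?_⟩
      · have := P.d_tri q o p (z (c p))
        have := hc1 q hq
        rw [← hcpq] at this
        omega
      · have := P.d_tri q o p (z (c p + 1))
        have := hc2 q hq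
        rw [← hcpq] at this
        omega
    rcases hun o with h1 | h1
    · exact gen k hk h hh (Ne.symm hne) hck.symm h1
    · exact gen h hh k hk hne hck h1

/-- a slow, non-drifting element cannot move far -/
lemma slow_nd {o : G} {z : ℕ → G} {J : ℕ} {h : G} (hnd : ¬ P.Drift o z J h) {a b : ℕ}
    (hab : a ≤ b) (hbJ : b ≤ J) (hs : ∀ c, a ≤ c → c < b → P.d h (z c) (z (c + 1)) ≤ P.θ) :
    P.d h (z a) (z b) ≤ 4 * P.θ ∨ (P.d h o (z a) ≤ 13 * P.θ ∧ P.d h o (z b) ≤ 13 * P.θ) := by
  have hθ := P.θ_pos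
  unfold Drift at hnd
  push Not at hnd
  by_cases h1 : 13 * P.θ < P.d h o (z a)
  · left
    have : ∀ e, a ≤ e → e ≤ b → ∀ c, a ≤ c → c ≤ e → P.d h (z a) (z c) ≤ 4 * P.θ := by
      intro e he
      induction e, he using Nat.le_induction with
      | base =>
        intro _ c h1 h2
        obtain rfl : c = a := by omega
        rw [P.d_self]; omega
      | succ e he ih =>
        intro heb c hc1 hc2
        rcases hc2.lt_or_eq with hlt | rfl
        · exact ih (by omega) c hc1 (by omega)
        apply hnd a (e + 1) (by omega) (by omega)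
        intro c' h1' h2'
        have t1 := P.d_tri h o (z c') (z a)
        rw [P.d_comm h (z c') (z a)] at t1
        rcases h2'.lt_or_eq with hlt | rfl
        · have := ih (by omega) c' h1' (by omega)
          omega
        · have := ih (by omega) e he le_rfl
          have := hs e he (by omega)
          have := P.d_tri h (z a) (z e) (z (e + 1))
          omega
    exact this b hab le_rfl b hab le_rfl
  by_cases h2 : 13 * P.θ < P.d h o (z b)
  · left
    have : ∀ i, i ≤ b - a → ∀ c, b - i ≤ c → c ≤ b → P.d h (z c) (z b) ≤ 4 * P.θ := by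
      intro i
      induction i with
      | zero =>
        intro _ c h1 h2
        obtain rfl : c = b := by omega
        rw [P.d_self]; omega
      | succ i ih =>
        intro hi c hc1 hc2
        by_cases hlt : b - i ≤ c
        · exact ih (by omega) c hlt hc2
        apply hnd c b hc2 hbJ
        intro c' h1' h2'
        have t1 := P.d_tri h o (z c') (z b)
        by_cases hlt' : b - i ≤ c'
        · have := ih (by omega) c' hlt' h2'
          omega
        · obtain rfl : c' = c := by omega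
          have := ih (by omega) (c' + 1) (by omega) (by omega)
          have := hs c' (by omega) (by omega)
          have := P.d_tri h (z c') (z (c' + 1)) (z b)
          omega
    exact this (b - a) le_rfl a (by omega) hab
  right
  omega

end Proj

end Pool.Agent.Lib.MP21ae20
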