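import Pool.Agent.Lib.MP_21ae20_al.A1

/-! Slots, good elements, ping-pong, inserting elements. -/

namespace Pool.Agent.Lib.MP21ae20

open Finset

namespace Proj

variable {G : Type*} [Group G] (P : Proj G)

lemma big_finite (x y : G) : {h | P.θ < P.d h x y}.Finite := by
  refine Set.Finite.of_finite_image (f := fun h => h⁻¹ * x) ((P.finF (x⁻¹ * y)).subset ?_) ?_
  · rintro _ ⟨h, hh, rfl⟩
    simpa [d, u, mul_assoc] using hh
  · intro a _ b _ hab
    simpa using hab

noncomputable def big (x y : G) : Finset G := (P.big_finite x y).toFinset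

lemma mem_big {x y h : G} : h ∈ P.big x y ↔ P.θ < P.d h x y := by simp [big]

open Classical in
noncomputable def slot (κ : ℤ) (x y : G) : Finset G :=
  (P.big x y).filter (fun h => P.u h x ≤ κ ∧ 100 * P.θ - κ ≤ P.u h y)

lemma mem_slot {κ : ℤ} (hκ : κ ≤ 40 * P.θ) {x y h : G} :
    h ∈ P.slot κ x y ↔ P.u h x ≤ κ ∧ 100 * P.θ - κ ≤ P.u h y := by
  have hθ := P.θ_pos
  simp only [slot, mem_filter, mem_big, lt_d_iff]
  omega

lemma card_slot_mul {κ : ℤ} (hκ : κ ≤ 40 * P.θ) (g x y : G) :
    (P.slot κ (g * x) (g * y)).card = (P.slot κ x y).card := by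
  symm
  apply Finset.card_bij (fun h _ => g * h)
  · intro h hh
    rw [P.mem_slot hκ] at hh ⊢
    simpa only [u_mul] using hh
  · intro a _ b _ hab
    simpa using hab
  · intro h hh
    refine ⟨g⁻¹ * h, ?_, by simp⟩
    rw [P.mem_slot hκ] at hh ⊢
    rw [← P.u_mul g _ x, ← P.u_mul g _ y]
    simpa using hh

/-- number of slots of `g` -/
noncomputable def N (κ : ℤ) (g : G) : ℕ := (P.slot κ 1 g).card

lemma card_slot_eq {κ : ℤ} (hκ : κ ≤ 40 * P.θ) (x y : G) :
    (P.slot κ x y).card = P.N κ (x⁻¹ * y) := by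
  rw [N, ← P.card_slot_mul hκ x 1]
  simp

def Good (κ : ℤ) (η : G) : Prop := P.Un 1 η ∧ 100 * P.θ - κ ≤ P.f η ∧ P.f η⁻¹ ≤ κ

variable {P}

lemma Good.low {κ : ℤ} {η : G} (H : P.Good κ η) {x : G} (hx : P.f x < 99 * P.θ - κ) :
    P.f (η⁻¹ * x) ≤ κ + P.θ := by
  obtain ⟨h1, h2, h3⟩ := H
  rcases h1 x with h | h
  · simp only [d_le_iff, u, inv_one, one_mul] at h; omega
  · simp only [d_le_iff, u, mul_one] at h; omega

lemma Good.high {κ : ℤ} {η : G} (H : P.Good κ η) {x : G} (hx : κ + P.θ < P.f x) :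
    99 * P.θ - κ ≤ P.f (η * x) := by
  obtain ⟨h1, h2, h3⟩ := H
  rcases h1 (η * x) with h | h
  · simp only [d_le_iff, u, inv_one, one_mul] at h; omega
  · simp only [d_le_iff, u, mul_one, inv_mul_cancel_left] at h; omega

variable (P)

/-- the stabiliser-like subgroup -/
def Hs : Subgroup G where
  carrier := {s | ∀ g, P.f (g * s) = P.f g}
  one_mem' := by simp
  mul_mem' := by
    intro a b ha hb g
    rw [← mul_assoc, hb, ha]
  inv_mem' := by
    intro a ha g
    rw [← ha (g * a⁻¹)]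
    simp

lemma exists_spread (E : Set G) (hE : E.Finite) (m : ℕ) : ∃ B : Finset G, B.card = m ∧
    (∀ s ∈ B, s ∈ P.Hs) ∧ ∀ s ∈ B, ∀ s' ∈ B, s ≠ s' → s * s'⁻¹ ∉ E := by
  classical
  induction m with
  | zero => exact ⟨∅, by simp⟩
  | succ m ih =>
    obtain ⟨B, hB, hH, hq⟩ := ih
    have hfin : ((B : Set G) ∪ (⋃ b ∈ B, {s | s * b⁻¹ ∈ E}) ∪ (⋃ b ∈ B, {s | b * s⁻¹ ∈ E})).Finite := by
      refine (B.finite_toSet.union ?_).union ?_
      · refine Set.Finite.biUnion B.finite_toSet fun b _ => ?_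
        exact hE.preimage (f := fun s => s * b⁻¹) (fun a _ c _ h => by simpa using h)
      · refine Set.Finite.biUnion B.finite_toSet fun b _ => ?_
        exact hE.preimage (f := fun s => b * s⁻¹) (fun a _ c _ h => by simpa using h)
    obtain ⟨s, hs, hs'⟩ := P.infH.exists_notMem_finite hfin
    simp only [Set.mem_union, mem_coe, Set.mem_iUnion, Set.mem_ofPred_eq, not_or, not_exists]
      at hs'
    refine ⟨insert s B, by rw [card_insert_of_notMem hs'.1.1, hB], ?_, ?_⟩
    · intro a ha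
      rcases mem_insert.1 ha with rfl | ha
      · exact hs
      · exact hH a ha
    · intro a ha b hb hab
      rcases mem_insert.1 ha with ha' | ha' <;> rcases mem_insert.1 hb with hb' | hb'
      · exact absurd (ha'.trans hb'.symm) hab
      · exact ha' ▸ hs'.1.2 b hb'
      · exact hb' ▸ hs'.2 a ha'
      · exact hq a ha' b hb' hab

lemma exists_family (t : G) (m : ℕ) : ∃ B : Finset G, B.card = m ∧
    ∀ x, ∀ b ∈ B, ∀ b' ∈ B, 2 * P.θ < |P.f (b * x) - P.f t| → 2 * P.θ < |P.f (b' * x) - P.f t| →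
      b = b' := by
  classical
  have hE : ({s | t * s * t⁻¹ ∈ P.F0} ∪ {s | P.θ < |P.f (t * s) - P.f (t * s * t⁻¹)|}).Finite := by
    refine Set.Finite.union ?_ ?_
    · exact P.F0.finite_toSet.preimage (f := fun s => t * s * t⁻¹) (fun a _ c _ h => by simpa using h)
    · exact (P.finF t⁻¹).preimage (f := fun s => t * s) (fun a _ c _ h => by simpa using h)
  obtain ⟨B, hB, hH, hq⟩ := P.exists_spread _ hE m
  refine ⟨B.image (fun s => t * s), ?_, ?_⟩
  · rw [card_image_of_injective _ (fun a c h => by simpa using h), hB]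
  · intro x b hb b' hb' h1 h2
    obtain ⟨s, hs, rfl⟩ := mem_image.1 hb
    obtain ⟨s', hs', rfl⟩ := mem_image.1 hb'
    by_contra hne
    have hne' : s ≠ s' := fun h => hne (by rw [h])
    have q1 := hq s hs s' hs' hne'
    have q2 := hq s' hs' s hs hne'.symm
    simp only [Set.mem_union, Set.mem_ofPred_eq, not_or, not_lt] at q1 q2
    have m1 : P.f (t * (s * s'⁻¹)) = P.f t := P.Hs.mul_mem (hH s hs) (P.Hs.inv_mem (hH s' hs')) t
    have m2 : P.f (t * (s' * s⁻¹)) = P.f t := P.Hs.mul_mem (hH s' hs') (P.Hs.inv_mem (hH s hs)) t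
    have hun : P.Un 1 (t * (s * s'⁻¹) * t⁻¹) := by
      rw [un_iff]; simpa using q1.1
    have e1 : (t * (s * s'⁻¹) * t⁻¹)⁻¹ * (t * s * x) = t * s' * x := by group
    have e2 : (t * (s * s'⁻¹) * t⁻¹)⁻¹ * 1 = t * (s' * s⁻¹) * t⁻¹ := by group
    have q3 := q1.2
    have q4 := q2.2
    rw [m1] at q3
    rw [m2] at q4
    rw [abs_sub_le_iff] at q3 q4
    rw [lt_abs] at h1 h2
    rcases hun (t * s * x) with h | h
    · simp only [d_le_iff, u, inv_one, one_mul] at h; omega
    · simp only [d_le_iff, u, e1, e2] at h; omega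

lemma exists_U : ∃ U : Finset (G × G), ∀ w, ∃ p ∈ U, P.Good (3 * P.θ) (p.1 * w * p.2) := by
  classical
  obtain ⟨t₁, ht₁⟩ := P.hi
  obtain ⟨t₀, ht₀⟩ := P.lo
  obtain ⟨B, hB, hB'⟩ := P.exists_family t₁ (P.F0.card + 3)
  obtain ⟨A, hA, hA'⟩ := P.exists_family t₀ (P.F0.card + 3)
  refine ⟨(B ×ˢ A).image (fun p => (p.1, p.2⁻¹)), fun w => ?_⟩
  set b1 := (B ×ˢ A).filter (fun p => 2 * P.θ < |P.f (p.1 * (w * p.2⁻¹)) - P.f t₁|)
  set b2 := (B ×ˢ A).filter (fun p => 2 * P.θ < |P.f (p.2 * (w⁻¹ * p.1⁻¹)) - P.f t₀|)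
  set b3 := (B ×ˢ A).filter (fun p => p.1 * w * p.2⁻¹ ∈ P.F0)
  have c1 : b1.card ≤ A.card := by
    apply card_le_card_of_injOn Prod.snd
    · intro p hp
      exact (mem_product.1 (mem_filter.1 hp).1).2
    · rintro ⟨b, a⟩ hp ⟨b', a'⟩ hq h
      obtain rfl : a = a' := h
      have hp := mem_filter.1 hp
      have hq := mem_filter.1 hq
      rw [hB' _ b (mem_product.1 hp.1).1 b' (mem_product.1 hq.1).1 hp.2 hq.2]
  have c2 : b2.card ≤ B.card := by
    apply card_le_card_of_injOn Prod.fst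
    · intro p hp
      exact (mem_product.1 (mem_filter.1 hp).1).1
    · rintro ⟨b, a⟩ hp ⟨b', a'⟩ hq h
      obtain rfl : b = b' := h
      have hp := mem_filter.1 hp
      have hq := mem_filter.1 hq
      rw [hA' _ a (mem_product.1 hp.1).2 a' (mem_product.1 hq.1).2 hp.2 hq.2]
  have c3 : b3.card ≤ (A ×ˢ P.F0).card := by
    apply card_le_card_of_injOn (fun p => (p.2, p.1 * w * p.2⁻¹))
    · intro p hp
      have hp := mem_filter.1 hp
      exact mem_product.2 ⟨(mem_product.1 hp.1).2, hp.2⟩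
    · rintro ⟨b, a⟩ _ ⟨b', a'⟩ _ h
      simp only [Prod.mk.injEq] at h
      obtain ⟨rfl, h⟩ := h
      simpa using h
  have hlt : (b1 ∪ b2 ∪ b3).card < (B ×ˢ A).card := by
    have h1 := card_union_le (b1 ∪ b2) b3
    have h2 := card_union_le b1 b2
    rw [card_product] at c3 ⊢
    rw [hA] at c1 c3 ⊢
    rw [hB] at c2 ⊢
    nlinarith
  obtain ⟨p, hp, hp'⟩ := exists_mem_notMem_of_card_lt_card hlt
  simp only [b1, b2, b3, mem_union, mem_filter, hp, true_and, not_or, not_lt] at hp'
  obtain ⟨⟨h1, h2⟩, h3⟩ := hp'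
  refine ⟨(p.1, p.2⁻¹), mem_image.2 ⟨p, hp, rfl⟩, ?_, ?_, ?_⟩
  · rw [un_iff]; simpa using h3
  · rw [abs_sub_le_iff] at h1
    simp only [mul_assoc]
    omega
  · rw [abs_sub_le_iff] at h2
    simp only [mul_inv_rev, inv_inv]
    omega

end Proj

/-- products of initial segments -/
def pp {G : Type*} [Group G] (η : ℕ → G) : ℕ → G
  | 0 => 1
  | i + 1 => pp η i * η i

lemma pp_congr {G : Type*} [Group G] {η η' : ℕ → G} {j : ℕ} (h : ∀ i < j, η i = η' i) :
    pp η j = pp η' j := by
  induction j with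
  | zero => rfl
  | succ j ih => rw [pp, pp, ih (fun i hi => h i (by omega)), h j (by omega)]

lemma pp_telescope {G : Type*} [Group G] (γ : ℕ → G) (j : ℕ) :
    pp (fun i => (γ i)⁻¹ * γ (i + 1)) j = (γ 0)⁻¹ * γ j := by
  induction j with
  | zero => simp [pp]
  | succ j ih => rw [pp, ih]; group

namespace Proj

variable {G : Type*} [Group G] (P : Proj G)

lemma pp_low {η : ℕ → G} {k : ℕ} (H : ∀ i ≤ k, P.Good (3 * P.θ) (η i)) {i j : ℕ} (hji : j < i)
    (hi : i ≤ k + 1) : P.u (pp η i) (pp η j) ≤ 4 * P.θ := by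
  have hθ := P.θ_pos
  induction i, hji using Nat.le_induction with
  | base =>
    have := (H j (by omega)).2.2
    simp only [u, pp, mul_inv_rev, mul_assoc, inv_mul_cancel, mul_one]
    omega
  | succ i hi' ih =>
    have h1 := ih (by omega)
    have := (H i (by omega)).low (x := (pp η i)⁻¹ * pp η j) (by unfold u at h1; omega)
    simp only [u, pp, mul_inv_rev, mul_assoc]
    omega

lemma pp_high {η : ℕ → G} {k : ℕ} (H : ∀ i ≤ k, P.Good (3 * P.θ) (η i)) {i j : ℕ} (hij : i < j)
    (hj : j ≤ k + 1) : 96 * P.θ ≤ P.u (pp η i) (pp η j) := by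
  have hθ := P.θ_pos
  obtain ⟨r, rfl⟩ : ∃ r, j = i + r + 1 := ⟨j - i - 1, by omega⟩
  clear hij
  induction r generalizing i with
  | zero =>
    have := (H i (by omega)).2.1
    simp only [u, pp, inv_mul_cancel_left]
    omega
  | succ r ih =>
    have h1 := ih (i := i + 1) (by omega)
    have := (H i (by omega)).high (x := (pp η (i + 1))⁻¹ * pp η (i + 1 + r + 1))
      (by unfold u at h1; omega)
    have e : η i * ((pp η (i + 1))⁻¹ * pp η (i + 1 + r + 1)) =
        (pp η i)⁻¹ * pp η (i + (r + 1) + 1) := by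
      rw [show i + 1 + r + 1 = i + (r + 1) + 1 by omega, show pp η (i + 1) = pp η i * η i from rfl]
      group
    rw [e] at this
    unfold u
    omega

/-- slots of an inserted product come from slots of the pieces -/
lemma exists_slot_bound (U : Finset (G × G)) : ∃ C : ℕ, ∀ (k : ℕ) (w : ℕ → G) (p : ℕ → G × G),
    (∀ i ≤ k, p i ∈ U ∧ P.Good (3 * P.θ) ((p i).1 * w i * (p i).2)) →
    P.N (4 * P.θ) (pp (fun i => (p i).1 * w i * (p i).2) (k + 1)) ≤
      ∑ i ∈ range (k + 1), P.N (6 * P.θ) (w i) + C * (k + 2) := by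
  classical
  have hθ := P.θ_pos
  set E := P.F0.image (·⁻¹) ∪ U.biUnion (fun q => P.big 1 q.1 ∪ P.big 1 q.2⁻¹) with hE
  refine ⟨E.card, fun k w p hp => ?_⟩
  set η : ℕ → G := fun i => (p i).1 * w i * (p i).2 with hη
  have hG : ∀ i ≤ k, P.Good (3 * P.θ) (η i) := fun i hi => (hp i hi).2
  have hsub : P.slot (4 * P.θ) 1 (pp η (k + 1)) ⊆
      (range (k + 1)).biUnion (fun i => P.slot (6 * P.θ) (pp η i * (p i).1) (pp η i * (p i).1 * w i))
      ∪ (range (k + 2)).biUnion (fun i => E.image (fun e => pp η i * e)) := by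
    intro h hh
    rw [P.mem_slot (by omega)] at hh
    by_contra hcon
    simp only [mem_union, mem_biUnion, mem_range, not_or, not_exists, not_and, mem_image] at hcon
    obtain ⟨hc1, hc2⟩ := hcon
    have hE' : ∀ i < k + 2, (pp η i)⁻¹ * h ∉ E := fun i hi he => hc2 i hi _ he (by simp)
    have hun : ∀ i < k + 2, P.Un h (pp η i) := by
      intro i hi
      rw [un_iff]
      intro hm
      apply hE' i hi
      exact mem_union_left _ (mem_image.2 ⟨_, hm, by simp⟩)
    have hb : ∀ i < k + 2, ∀ q ∈ U, P.d h (pp η i) (pp η i * q.1) ≤ P.θ ∧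
        P.d h (pp η i) (pp η i * q.2⁻¹) ≤ P.θ := by
      intro i hi q hq
      have := hE' i hi
      simp only [hE, mem_union, mem_biUnion, not_or, not_exists, not_and, mem_big, not_lt] at this
      have := this.2 q hq
      rw [← P.d_mul (pp η i), ← P.d_mul (pp η i) _ 1 q.2⁻¹] at this
      simpa using this
    have lowall : ∀ i ≤ k + 1, P.u h (pp η i) ≤ 5 * P.θ := by
      intro i
      induction i with
      | zero => intro _; simp only [pp]; omega
      | succ i ih =>
        intro hi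
        have h1 := ih (by omega)
        have h2 := hc1 i (by omega)
        rw [P.mem_slot (by omega)] at h2
        have h3 := (hb i (by omega) _ (hp i (by omega)).1).1
        have h4 := (hb (i + 1) (by omega) _ (hp i (by omega)).1).2
        have e : pp η (i + 1) * (p i).2⁻¹ = pp η i * (p i).1 * w i := by
          simp only [pp, hη]; group
        rw [e] at h4
        rw [d_le_iff] at h3 h4
        have h5 : P.u h (pp η (i + 1)) < 95 * P.θ := by omega
        rcases hi.lt_or_eq with hlt | heq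
        · have a1 := P.pp_low hG (i := i + 1) (j := 0) (by omega) (by omega)
          have a2 := P.pp_high hG (i := i + 1) (j := k + 1) (by omega) (by omega)
          rcases hun (i + 1) (by omega) (pp η (k + 1)) with a3 | a3
          · rw [d_le_iff] at a3; omega
          rcases hun (i + 1) (by omega) (pp η 0) with a4 | a4
          · rw [d_le_iff] at a4
            simp only [pp] at a4 ⊢
            omega
          · rw [d_le_iff] at a3 a4; omega
        · rw [heq] at h5; omega
    have := lowall (k + 1) le_rfl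
    omega
  have h1 := card_le_card hsub
  refine h1.trans ((card_union_le _ _).trans (add_le_add ?_ ?_))
  · refine card_biUnion_le.trans (le_of_eq (sum_congr rfl fun i _ => ?_))
    rw [P.card_slot_eq (by omega), inv_mul_cancel_left]
  · refine card_biUnion_le.trans ?_
    calc ∑ i ∈ range (k + 2), (E.image (fun e => pp η i * e)).card
        ≤ ∑ i ∈ range (k + 2), E.card := sum_le_sum fun i _ => card_image_le
      _ = E.card * (k + 2) := by simp [mul_comm]

end Proj

end Pool.Agent.Lib.MP21ae20
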