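import Mathlib

/-! Definitions used in the statement: word length, balls, `Out`, the free factor graph,
translation length. -/

namespace Pool.Agent.Lib.MP21ae20

open Filter

/-- word length of `g` with respect to `S`: least length of a word in `S ∪ S⁻¹` representing `g` -/
noncomputable def wordLength {G : Type*} [Group G] (S : Set G) (g : G) : ℕ :=
  sInf {n | ∃ l : List G, l.length = n ∧ (∀ s ∈ l, s ∈ S ∨ s⁻¹ ∈ S) ∧ l.prod = g}

/-- the ball of radius `n` in the word metric -/
def ball {G : Type*} [Group G] (S : Set G) (n : ℕ) : Set G := {g | wordLength S g ≤ n}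

instance inner_normal (G : Type*) [Group G] : (MulAut.conj : G →* MulAut G).range.Normal where
  conj_mem := by
    rintro _ ⟨g, rfl⟩ σ
    exact ⟨σ g, by ext x; simp⟩

/-- the outer automorphism group -/
abbrev Out (G : Type*) [Group G] := MulAut G ⧸ (MulAut.conj : G →* MulAut G).range

/-- `A` is a proper nontrivial free factor of `G`: `G = A * B` for some subgroup `B`,
and `A` is neither trivial nor everything -/
def IsProperFreeFactor {G : Type*} [Group G] (A : Subgroup G) : Prop :=
  (∃ B : Subgroup G, Function.Bijective (Monoid.Coprod.lift A.subtype B.subtype)) ∧ A ≠ ⊥ ∧ A ≠ ⊤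

/-- the conjugacy class of a subgroup -/
def conjClass {G : Type*} [Group G] (A : Subgroup G) : Set (Subgroup G) :=
  {B | ∃ g : G, B = A.map (MulAut.conj g).toMonoidHom}

/-- vertices: conjugacy classes of proper nontrivial free factors -/
def Vertex (G : Type*) [Group G] : Type _ :=
  {C : Set (Subgroup G) // ∃ A, IsProperFreeFactor A ∧ C = conjClass A}

lemma IsProperFreeFactor.map {G : Type*} [Group G] {A : Subgroup G} (h : IsProperFreeFactor A)
    (σ : MulAut G) : IsProperFreeFactor (A.map σ.toMonoidHom) := by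
  obtain ⟨⟨B, hB⟩, h1, h2⟩ := h
  refine ⟨⟨B.map σ.toMonoidHom, ?_⟩, ?_, ?_⟩
  · have e : (Monoid.Coprod.lift (A.map σ.toMonoidHom).subtype (B.map σ.toMonoidHom).subtype).comp
        (MulEquiv.coprodCongr (σ.subgroupMap A) (σ.subgroupMap B)).toMonoidHom =
        σ.toMonoidHom.comp (Monoid.Coprod.lift A.subtype B.subtype) := by
      apply Monoid.Coprod.hom_ext <;> ext x <;> simp <;> rfl
    have e' := congrArg (fun φ : Monoid.Coprod A B →* G => Function.Bijective φ) e
    simp only [MonoidHom.coe_comp, eq_iff_iff] at e'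
    exact (Function.Bijective.of_comp_iff _
      (MulEquiv.coprodCongr (σ.subgroupMap A) (σ.subgroupMap B)).bijective).1
      (e'.2 (σ.bijective.comp hB))
  · rwa [Ne, Subgroup.map_eq_bot_iff_of_injective _ σ.injective]
  · intro h
    apply h2
    apply Subgroup.map_injective (f := σ.toMonoidHom) σ.injective
    rw [h, Subgroup.map_top_of_surjective _ σ.surjective]

/-- the action of an outer automorphism on vertices: apply representatives to representatives -/
def act {G : Type*} [Group G] (φ : Out G) (C : Vertex G) : Vertex G :=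
  ⟨{B | ∃ σ : MulAut G, (σ : Out G) = φ ∧ ∃ A ∈ C.1, B = A.map σ.toMonoidHom}, by
    obtain ⟨C, A, hA, rfl⟩ := C
    obtain ⟨σ, rfl⟩ := QuotientGroup.mk_surjective φ
    refine ⟨_, hA.map σ, ?_⟩
    ext B
    constructor
    · rintro ⟨ρ, hρ, _, ⟨g, rfl⟩, rfl⟩
      obtain ⟨k, hk⟩ := QuotientGroup.eq.1 hρ
      have : ρ = σ * (MulAut.conj k)⁻¹ := by rw [hk]; group
      refine ⟨σ (k⁻¹ * g), ?_⟩
      rw [Subgroup.map_map, Subgroup.map_map, this]
      congr 1
      ext x
      simp [mul_assoc]
    · rintro ⟨g, rfl⟩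
      refine ⟨σ, rfl, _, ⟨σ⁻¹ g, rfl⟩, ?_⟩
      rw [Subgroup.map_map, Subgroup.map_map]
      congr 1
      ext x
      simp⟩

/-- the 1-skeleton of the free factor complex of `F_N`; the Farey graph for `N = 2` -/
def freeFactorGraph (N : ℕ) : SimpleGraph (Vertex (FreeGroup (Fin N))) :=
  SimpleGraph.fromRel fun C D =>
    if N = 2 then ∃ (b : FreeGroupBasis (Fin N) (FreeGroup (Fin N))) (i j : Fin N), i ≠ j ∧
      Subgroup.zpowers (b i) ∈ C.1 ∧ Subgroup.zpowers (b j) ∈ D.1
    else ∃ A ∈ C.1, ∃ B ∈ D.1, A < B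

/-- translation length: the limit of `d(x, g^k x) / k` -/
noncomputable def translationLength {N : ℕ} (x : Vertex (FreeGroup (Fin N)))
    (g : Out (FreeGroup (Fin N))) : ℝ :=
  limUnder atTop fun k : ℕ => ((freeFactorGraph N).dist x (act (g ^ k) x) : ℝ) / k

end Pool.Agent.Lib.MP21ae20
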