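import Pool.Agent.Lib.MP_21ae20_al.A2
import Pool.Agent.Lib.MP_21ae20_al.Defs

/-! Word metric, balls, geodesics, the insertion inequality. -/

namespace Pool.Agent.Lib.MP21ae20

open Finset

structure Gen (G : Type*) [Group G] where
  S : Set G
  fin : S.Finite
  gen : Subgroup.closure S = ⊤

namespace Gen

variable {G : Type*} [Group G] (T : Gen G)

noncomputable def len (g : G) : ℕ := wordLength T.S g

lemma exists_word (g : G) : ∃ l : List G, l.length = T.len g ∧ (∀ s ∈ l, s ∈ T.S ∨ s⁻¹ ∈ T.S) ∧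
    l.prod = g := by
  have hne : {n | ∃ l : List G, l.length = n ∧ (∀ s ∈ l, s ∈ T.S ∨ s⁻¹ ∈ T.S) ∧
      l.prod = g}.Nonempty := by
    have hg : g ∈ (Subgroup.closure T.S).toSubmonoid := by rw [T.gen]; trivial
    rw [Subgroup.closure_toSubmonoid] at hg
    obtain ⟨l, hl, rfl⟩ := Submonoid.exists_list_of_mem_closure hg
    exact ⟨_, l, rfl, fun s hs => by simpa using hl s hs, rfl⟩
  exact Nat.sInf_mem hne

lemma len_le (l : List G) (hl : ∀ s ∈ l, s ∈ T.S ∨ s⁻¹ ∈ T.S) : T.len l.prod ≤ l.length :=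
  Nat.sInf_le ⟨l, rfl, hl, rfl⟩

lemma len_one : T.len 1 = 0 := by simpa using T.len_le [] (by simp)

lemma len_mul (g h : G) : T.len (g * h) ≤ T.len g + T.len h := by
  obtain ⟨l, h1, h2, rfl⟩ := T.exists_word g
  obtain ⟨m, h3, h4, rfl⟩ := T.exists_word h
  rw [← h1, ← h3, ← List.prod_append, ← List.length_append]
  apply T.len_le
  intro s hs
  rcases List.mem_append.1 hs with h | h
  · exact h2 s h
  · exact h4 s h

lemma len_inv_le (g : G) : T.len g⁻¹ ≤ T.len g := by
  obtain ⟨l, h1, h2, rfl⟩ := T.exists_word g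
  rw [← h1, List.prod_inv_reverse]
  refine (T.len_le _ ?_).trans (by simp)
  intro s hs
  simp only [List.mem_reverse, List.mem_map] at hs
  obtain ⟨a, ha, rfl⟩ := hs
  simpa using (h2 a ha).symm

lemma len_inv (g : G) : T.len g⁻¹ = T.len g :=
  le_antisymm (T.len_inv_le g) (by simpa using T.len_inv_le g⁻¹)

lemma ball_finite (n : ℕ) : (ball T.S n).Finite := by
  have hfin : (T.S ∪ T.S⁻¹).Finite := T.fin.union T.fin.inv
  have := hfin.to_subtype
  refine ((List.finite_length_le (T.S ∪ T.S⁻¹ : Set G) n).image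
    (fun l => (l.map Subtype.val).prod)).subset ?_
  intro g hg
  obtain ⟨l, h1, h2, rfl⟩ := T.exists_word g
  refine ⟨l.attachWith _ (fun s hs => by simpa using h2 s hs), ?_, by simp⟩
  simp only [Set.mem_ofPred_eq, List.length_attachWith, h1]
  exact hg

noncomputable def B (n : ℕ) : Finset G := (T.ball_finite n).toFinset

lemma mem_B {n : ℕ} {g : G} : g ∈ T.B n ↔ T.len g ≤ n := by
  simp [B, ball, len]

noncomputable def b (n : ℕ) : ℕ := (T.B n).card

lemma b_pos (n : ℕ) : 0 < T.b n := card_pos.2 ⟨1, T.mem_B.2 (by simp [T.len_one])⟩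

lemma b_mono {m n : ℕ} (h : m ≤ n) : T.b m ≤ T.b n :=
  card_le_card fun _ hg => T.mem_B.2 ((T.mem_B.1 hg).trans h)

lemma b_add (m n : ℕ) : T.b (m + n) ≤ T.b m * T.b n := by
  classical
  have : T.B (m + n) ⊆ (T.B m ×ˢ T.B n).image (fun p => p.1 * p.2) := by
    intro g hg
    obtain ⟨l, h1, h2, rfl⟩ := T.exists_word g
    rw [mem_B] at hg
    refine mem_image.2 ⟨((l.take m).prod, (l.drop m).prod), mem_product.2 ⟨?_, ?_⟩, ?_⟩
    · rw [mem_B]
      exact (T.len_le _ fun s hs => h2 s (List.mem_of_mem_take hs)).trans (by simp)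
    · rw [mem_B]
      exact (T.len_le _ fun s hs => h2 s (List.mem_of_mem_drop hs)).trans (by simp; omega)
    · simp only [List.prod_take_mul_prod_drop]
  exact (card_le_card this).trans (card_image_le.trans (by rw [card_product]; rfl))

lemma b_add_mul (n L k : ℕ) : T.b (n + L * k) ≤ T.b n * T.b L ^ k := by
  induction k with
  | zero => simp
  | succ k ih =>
    rw [Nat.mul_succ, ← add_assoc, pow_succ, ← mul_assoc]
    exact (T.b_add _ _).trans (Nat.mul_le_mul_right _ ih)

lemma exists_bound (E : Set G) (hE : E.Finite) : ∃ R, ∀ e ∈ E, T.len e ≤ R := by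
  obtain ⟨R, hR⟩ := (hE.image T.len).bddAbove
  exact ⟨R, fun e he => hR ⟨e, he, rfl⟩⟩

open Classical in
lemma card_near (x : G) (R : ℕ) (Y : Finset G) (hY : ∀ h ∈ Y, T.len (x⁻¹ * h) ≤ R) :
    Y.card ≤ T.b R := by
  apply card_le_card_of_injOn (fun h => x⁻¹ * h)
  · intro h hh
    exact T.mem_B.2 (hY h hh)
  · intro a _ c _ h
    simpa using h

/-- a geodesic from `1` to `g`, constant after time `len g` -/
structure IsGeo (γ : ℕ → G) (g : G) : Prop where
  zero : γ 0 = 1
  fin : ∀ t, T.len g ≤ t → γ t = g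
  lip : ∀ s t, s ≤ t → T.len ((γ s)⁻¹ * γ t) ≤ t - s

lemma exists_geo (g : G) : ∃ γ, T.IsGeo γ g := by
  obtain ⟨l, h1, h2, rfl⟩ := T.exists_word g
  refine ⟨fun t => (l.take t).prod, by simp, fun t ht => ?_, fun s t hst => ?_⟩
  · rw [List.take_of_length_le (by omega)]
  · obtain ⟨r, rfl⟩ := Nat.exists_eq_add_of_le hst
    rw [List.take_add, List.prod_append, inv_mul_cancel_left]
    refine (T.len_le _ fun a ha => h2 a (List.mem_of_mem_drop (List.mem_of_mem_take ha))).trans ?_
    simp

variable {T}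

lemma IsGeo.len_eq {γ : ℕ → G} {g : G} (H : T.IsGeo γ g) {s t : ℕ} (hst : s ≤ t)
    (ht : t ≤ T.len g) : T.len ((γ s)⁻¹ * γ t) = t - s := by
  have h1 := H.lip 0 s (by omega)
  have h2 := H.lip s t hst
  have h3 := H.lip t (T.len g) ht
  rw [H.zero] at h1
  rw [H.fin _ le_rfl] at h3
  have h4 := T.len_mul (1⁻¹ * γ s) ((γ s)⁻¹ * γ t)
  have h5 := T.len_mul (1⁻¹ * γ s * ((γ s)⁻¹ * γ t)) ((γ t)⁻¹ * g)
  have e : 1⁻¹ * γ s * ((γ s)⁻¹ * γ t) * ((γ t)⁻¹ * g) = g := by group
  rw [e] at h5
  omega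

lemma IsGeo.len_at {γ : ℕ → G} {g : G} (H : T.IsGeo γ g) {t : ℕ} (ht : t ≤ T.len g) :
    T.len (γ t) = t := by
  simpa [H.zero] using H.len_eq (Nat.zero_le t) ht

lemma IsGeo.lip' {γ : ℕ → G} {g : G} (H : T.IsGeo γ g) {s t r : ℕ} (h1 : s ≤ t + r)
    (h2 : t ≤ s + r) : T.len ((γ s)⁻¹ * γ t) ≤ r := by
  rcases le_total s t with h | h
  · have := H.lip s t h; omega
  · have := H.lip t s h
    rw [← T.len_inv] at this
    simp only [mul_inv_rev, inv_inv] at this
    omega

variable (T)

lemma len_pp (w : ℕ → G) (j : ℕ) : T.len (pp w j) ≤ ∑ i ∈ range j, T.len (w i) := by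
  induction j with
  | zero => simp [pp, T.len_one]
  | succ j ih =>
    rw [pp, sum_range_succ]
    have := T.len_mul (pp w j) (w j)
    omega

end Gen

namespace Proj

variable {G : Type} [Group G] (P : Proj G) (T : Gen G)

lemma exists_R (l : ℕ) : ∃ R, ∀ x y h, T.len (x⁻¹ * y) ≤ l → P.θ < P.d h x y →
    T.len (x⁻¹ * h) ≤ R := by
  classical
  obtain ⟨R, hR⟩ := T.exists_bound _ ((T.B l).biUnion (fun g => P.big 1 g)).finite_toSet
  refine ⟨R, fun x y h h1 h2 => hR _ ?_⟩
  simp only [coe_biUnion, mem_coe, Set.mem_iUnion]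
  refine ⟨x⁻¹ * y, T.mem_B.2 h1, ?_⟩
  rw [mem_big, ← P.d_mul x]
  simpa using h2

/-- the insertion inequality -/
lemma insertion : ∃ Q C : ℕ, 0 < Q ∧ ∀ (ι : Type) (W : Finset ι) (w : ι → ℕ → G) (k n m : ℕ),
    (∀ x ∈ W, ∀ y ∈ W, (∀ i ≤ k, w x i = w y i) → x = y) →
    (∀ x ∈ W, ∑ i ∈ range (k + 1), T.len (w x i) ≤ n) →
    (∀ x ∈ W, ∑ i ∈ range (k + 1), P.N (6 * P.θ) (w x i) ≤ m) →
    W.card ≤ T.b n * (m + C * (k + 2)).choose k * Q ^ (k + 1) := by
  classical
  have hθ := P.θ_pos
  obtain ⟨U, hU⟩ := P.exists_U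
  obtain ⟨C, hC⟩ := P.exists_slot_bound U
  obtain ⟨L, hL⟩ := T.exists_bound _ (U.image Prod.fst ∪ U.image Prod.snd).finite_toSet
  choose q hqU hqG using hU
  have hUpos : 0 < U.card := card_pos.2 ⟨_, hqU 1⟩
  refine ⟨T.b (2 * L) * U.card, C, Nat.mul_pos (T.b_pos _) hUpos, ?_⟩
  intro ι W w k n m hinj hlen hN
  set η : ι → ℕ → G := fun x i => (q (w x i)).1 * w x i * (q (w x i)).2 with hη
  have hG : ∀ x, ∀ i ≤ k, P.Good (3 * P.θ) (η x i) := fun x i _ => hqG _
  set D := (T.B (n + 2 * L * (k + 1))).filter (fun g => P.N (4 * P.θ) g ≤ m + C * (k + 2)) with hD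
  set Tg := (D.sigma (fun g => (P.slot (4 * P.θ) 1 g).powersetCard k)) ×ˢ
    Fintype.piFinset (fun _ : Fin (k + 1) => U) with hTg
  have hppinj : ∀ x, Function.Injective (fun i : Fin k => pp (η x) (i + 1)) := by
    intro x i j hij
    simp only at hij
    by_contra hne
    rcases lt_or_gt_of_ne (fun h => hne (Fin.ext h) : (i : ℕ) ≠ j) with h | h
    · have a1 := P.pp_low (hG x) (i := j + 1) (j := i + 1) (by omega) (by omega)
      have a2 := P.pp_high (hG x) (i := i + 1) (j := j + 1) (by omega) (by omega)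
      rw [hij] at a1 a2; omega
    · have a1 := P.pp_low (hG x) (i := i + 1) (j := j + 1) (by omega) (by omega)
      have a2 := P.pp_high (hG x) (i := j + 1) (j := i + 1) (by omega) (by omega)
      rw [hij] at a1 a2; omega
  have hcard : W.card ≤ Tg.card := by
    apply card_le_card_of_injOn (fun x => ((⟨pp (η x) (k + 1),
      univ.image (fun i : Fin k => pp (η x) (i + 1))⟩ : (_ : G) × Finset G),
      fun i : Fin (k + 1) => q (w x i)))
    · intro x hx
      simp only [hTg, coe_product, Set.mem_prod, mem_coe, mem_sigma, hD, mem_filter,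
        Fintype.mem_piFinset, mem_powersetCard]
      refine ⟨⟨⟨?_, ?_⟩, ?_, ?_⟩, fun i => hqU _⟩
      · rw [T.mem_B]
        refine (T.len_pp _ _).trans ?_
        have : ∀ i ∈ range (k + 1), T.len (η x i) ≤ T.len (w x i) + 2 * L := by
          intro i _
          have a1 := hL (q (w x i)).1 (by
            simp only [coe_union, coe_image, Set.mem_union, Set.mem_image, mem_coe]
            exact Or.inl ⟨_, hqU _, rfl⟩)
          have a2 := hL (q (w x i)).2 (by
            simp only [coe_union, coe_image, Set.mem_union, Set.mem_image, mem_coe]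
            exact Or.inr ⟨_, hqU _, rfl⟩)
          have a3 := T.len_mul (q (w x i)).1 (w x i)
          have a4 := T.len_mul ((q (w x i)).1 * w x i) (q (w x i)).2
          simp only [hη]
          omega
        refine (sum_le_sum this).trans ?_
        rw [sum_add_distrib, sum_const, card_range, smul_eq_mul, mul_comm (k + 1)]
        have := hlen x hx
        omega
      · have := hC k (w x) (fun i => q (w x i)) (fun i _ => ⟨hqU _, hqG _⟩)
        have := hN x hx
        simp only [hη]
        omega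
      · intro h hh
        obtain ⟨i, -, rfl⟩ := mem_image.1 hh
        rw [P.mem_slot (by omega)]
        have a1 := P.pp_low (hG x) (i := i + 1) (j := 0) (by omega) (by omega)
        have a2 := P.pp_high (hG x) (i := i + 1) (j := k + 1) (by omega) (by omega)
        exact ⟨a1, by omega⟩
      · rw [card_image_of_injective _ (hppinj x)]; simp
    · intro x hx y hy hxy
      simp only [Prod.mk.injEq, Sigma.mk.injEq, heq_eq_eq] at hxy
      obtain ⟨⟨e1, e2⟩, e3⟩ := hxy
      have ex : ∀ i : Fin k, ∃ j : Fin k, pp (η y) (j + 1) = pp (η x) (i + 1) := by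
        intro i
        have : pp (η x) (i + 1) ∈ univ.image (fun i : Fin k => pp (η y) (i + 1)) :=
          e2 ▸ mem_image.2 ⟨i, mem_univ _, rfl⟩
        obtain ⟨j, -, hj⟩ := mem_image.1 this
        exact ⟨j, hj⟩
      choose σ hσ using ex
      have hmono : StrictMono σ := by
        intro i j hij
        have hij' : (i : ℕ) < j := hij
        have a1 := P.pp_low (hG x) (i := j + 1) (j := i + 1) (by omega) (by omega)
        have a2 := P.pp_high (hG x) (i := i + 1) (j := j + 1) (by omega) (by omega)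
        rw [← hσ i, ← hσ j] at a1 a2
        by_contra hn
        rcases (not_lt.1 hn).lt_or_eq with h | h
        · have h' : (σ j : ℕ) < σ i := h
          have a3 := P.pp_low (hG y) (i := σ i + 1) (j := σ j + 1) (by omega) (by omega)
          omega
        · rw [h] at a1 a2; omega
      have hid : σ = id := le_antisymm hmono.le_id hmono.id_le
      have hpp : ∀ i ≤ k + 1, pp (η x) i = pp (η y) i := by
        intro i hi
        rcases Nat.eq_zero_or_pos i with rfl | h0
        · rfl
        rcases hi.lt_or_eq with hlt | rfl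
        · have := hσ ⟨i - 1, by omega⟩
          rw [hid] at this
          simp only [id] at this
          rw [show i - 1 + 1 = i by omega] at this
          exact this.symm
        · exact e1
      apply hinj x hx y hy
      intro i hi
      have a1 := hpp (i + 1) (by omega)
      rw [pp, pp, hpp i (by omega), mul_right_inj] at a1
      have a2 : q (w x i) = q (w y i) := congrFun e3 ⟨i, by omega⟩
      simp only [hη, a2] at a1
      simpa using a1
  refine hcard.trans ?_
  rw [hTg, card_product, card_sigma, Fintype.card_piFinset]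
  simp only [card_powersetCard, prod_const, card_univ, Fintype.card_fin]
  have h1 : ∑ g ∈ D, (P.slot (4 * P.θ) 1 g).card.choose k ≤
      T.b (n + 2 * L * (k + 1)) * (m + C * (k + 2)).choose k := by
    refine (sum_le_card_nsmul _ _ ((m + C * (k + 2)).choose k) fun g hg => ?_).trans ?_
    · exact Nat.choose_le_choose _ (mem_filter.1 hg).2
    · exact Nat.mul_le_mul_right _ (card_filter_le _ _)
  have h2 := T.b_add_mul n (2 * L) (k + 1)
  calc _ ≤ T.b n * T.b (2 * L) ^ (k + 1) * (m + C * (k + 2)).choose k * U.card ^ (k + 1) :=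
        Nat.mul_le_mul_right _ (h1.trans (Nat.mul_le_mul_right _ h2))
    _ = _ := by rw [mul_pow]; ring

end Proj

end Pool.Agent.Lib.MP21ae20
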