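import Pool.Agent.Lib.MP_21ae20_al.A3

/-! Growth estimates and the main estimate along a geodesic. -/

namespace Pool.Agent.Lib.MP21ae20

open Finset

namespace Proj

variable {G : Type} [Group G] (P : Proj G) (T : Gen G)

/-- `R` controls fast steps at scale `l` -/
def Ctrl (l R : ℕ) : Prop :=
  ∀ x y h, T.len (x⁻¹ * y) ≤ l → P.θ < P.d h x y → T.len (x⁻¹ * h) ≤ R

variable {P T}

lemma grid_end {γ : ℕ → G} {g : G} (H : T.IsGeo γ g) {l : ℕ} (hl : 0 < l) :
    γ ((T.len g / l + 1) * l) = g := by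
  apply H.fin
  have := Nat.lt_div_mul_add (a := T.len g) hl
  rw [Nat.add_mul]; omega

lemma near_or_drift {γ : ℕ → G} {g : G} (H : T.IsGeo γ g) {l R : ℕ} (hl : 0 < l)
    (hR : P.Ctrl T l R) {h : G} (hd : 13 * P.θ < P.d h 1 g) :
    P.Drift 1 (fun c => γ (c * l)) (T.len g / l + 1) h ∨
      ∃ s ≤ T.len g, T.len ((γ s)⁻¹ * h) ≤ R := by
  have hθ := P.θ_pos
  by_contra hcon
  push Not at hcon
  obtain ⟨h1, h2⟩ := hcon
  have := P.slow_nd h1 (Nat.zero_le _) le_rfl (fun c _ hc => by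
    by_contra hf
    have a1 : c * l ≤ T.len g := (Nat.le_div_iff_mul_le hl).1 (by omega)
    have a2 := hR (γ (c * l)) (γ ((c + 1) * l)) h
      (H.lip' (by rw [Nat.add_mul]; omega) (by rw [Nat.add_mul]; omega)) (by omega)
    have := h2 _ a1
    omega)
  simp only [zero_mul, H.zero, grid_end H hl] at this
  omega

lemma card_near_geo (γ : ℕ → G) (t R : ℕ) (Y : Finset G)
    (hY : ∀ h ∈ Y, ∃ s < t, T.len ((γ s)⁻¹ * h) ≤ R) : Y.card ≤ t * T.b R := by
  classical
  have : Y ⊆ (range t).biUnion (fun s => Y.filter (fun h => T.len ((γ s)⁻¹ * h) ≤ R)) := by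
    intro h hh
    obtain ⟨s, hs, hs'⟩ := hY h hh
    exact mem_biUnion.2 ⟨s, mem_range.2 hs, mem_filter.2 ⟨hh, hs'⟩⟩
  refine (card_le_card this).trans (card_biUnion_le.trans ?_)
  refine (sum_le_card_nsmul _ _ (T.b R) fun s _ => ?_).trans (by simp)
  exact T.card_near (γ s) R _ (fun h hh => (mem_filter.1 hh).2)

variable (P T)

lemma N_le_len : ∃ C, ∀ g, P.N (6 * P.θ) g ≤ C * (T.len g + 1) := by
  classical
  have hθ := P.θ_pos
  obtain ⟨R, hR⟩ := P.exists_R T 1
  refine ⟨P.M + T.b R, fun g => ?_⟩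
  obtain ⟨γ, H⟩ := T.exists_geo g
  set Y := P.slot (6 * P.θ) 1 g
  set D := fun h => P.Drift 1 (fun c => γ (c * 1)) (T.len g / 1 + 1) h
  have h1 := P.drift_card 1 _ _ (Y.filter D) (fun h hh => (mem_filter.1 hh).2)
  have h2 := card_near_geo (T := T) γ (T.len g + 1) R (Y.filter (fun h => ¬ D h)) (fun h hh => by
    rw [mem_filter, P.mem_slot (by omega)] at hh
    rcases near_or_drift H one_pos hR (h := h) (by rw [lt_d_iff]; omega) with h3 | ⟨s, h3, h4⟩
    · exact absurd h3 hh.2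
    · exact ⟨s, by omega, h4⟩)
  have h3 := card_filter_add_card_filter_not (s := Y) D
  rw [Nat.div_one] at h1
  unfold N
  nlinarith

include P in
lemma triple : ∃ K, ∀ s t u, T.b s * T.b t * T.b u ≤ K * (s + t + u + 1) ^ 2 * T.b (s + t + u) := by
  obtain ⟨Q, C, -, hins⟩ := P.insertion T
  obtain ⟨C', hC'⟩ := P.N_le_len T
  refine ⟨(3 * C' + 4 * C) ^ 2 * Q ^ 3, fun s t u => ?_⟩
  have := hins (G × G × G) (T.B s ×ˢ T.B t ×ˢ T.B u)
    (fun x i => if i = 0 then x.1 else if i = 1 then x.2.1 else x.2.2) 2 (s + t + u)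
    (C' * (s + t + u + 3)) ?_ ?_ ?_
  · rw [card_product, card_product, ← mul_assoc] at this
    refine this.trans ?_
    have a1 := Nat.choose_le_pow (C' * (s + t + u + 3) + C * (2 + 2)) 2
    have a2 : C' * (s + t + u + 3) + C * (2 + 2) ≤ (3 * C' + 4 * C) * (s + t + u + 1) := by
      nlinarith [Nat.zero_le (C' * (s + t + u)), Nat.zero_le (C * (s + t + u))]
    have a3 := a1.trans (Nat.pow_le_pow_left a2 2)
    calc _ ≤ T.b (s + t + u) * ((3 * C' + 4 * C) * (s + t + u + 1)) ^ 2 * Q ^ (2 + 1) :=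
          Nat.mul_le_mul_right _ (Nat.mul_le_mul_left _ a3)
      _ = _ := by ring
  · rintro ⟨a, b, c⟩ _ ⟨a', b', c'⟩ _ h
    have h0 := h 0 (by omega)
    have h1 := h 1 (by omega)
    have h2 := h 2 (by omega)
    simp_all
  · rintro ⟨a, b, c⟩ hx
    simp only [mem_product, T.mem_B] at hx
    simp [sum_range_succ]
    omega
  · rintro ⟨a, b, c⟩ hx
    simp only [mem_product, T.mem_B] at hx
    have h1 := (hC' a).trans (Nat.mul_le_mul_left C' (Nat.add_le_add_right hx.1 1))
    have h2 := (hC' b).trans (Nat.mul_le_mul_left C' (Nat.add_le_add_right hx.2.1 1))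
    have h3 := (hC' c).trans (Nat.mul_le_mul_left C' (Nat.add_le_add_right hx.2.2 1))
    simp [sum_range_succ]
    nlinarith

include P in
lemma growth : ∃ L, 0 < L ∧ ∀ k, 2 ^ k ≤ T.b (L * k) := by
  classical
  have hθ := P.θ_pos
  obtain ⟨Q, C, hQ, hins⟩ := P.insertion T
  obtain ⟨W, hW, hWc⟩ := P.infH.exists_subset_card_eq (2 * 2 ^ (2 * C) * Q)
  obtain ⟨L, hL⟩ := T.exists_bound _ W.finite_toSet
  refine ⟨L + 1, by omega, fun k => ?_⟩
  rcases k with _ | k
  · exact T.b_pos _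
  have := hins (Fin (k + 1) → G) (Fintype.piFinset fun _ => W)
    (fun x i => if h : i < k + 1 then x ⟨i, h⟩ else 1) k ((L + 1) * (k + 1)) 0 ?_ ?_ ?_
  · rw [Fintype.card_piFinset] at this
    simp only [prod_const, card_univ, Fintype.card_fin, hWc, zero_add] at this
    have a1 := Nat.choose_le_two_pow (C * (k + 2)) k
    have a2 : 2 ^ (C * (k + 2)) ≤ (2 ^ (2 * C)) ^ (k + 1) := by
      rw [← pow_mul]
      exact Nat.pow_le_pow_right (by omega) (by nlinarith)
    have a3 := this.trans (Nat.mul_le_mul_right _ (Nat.mul_le_mul_left _ (a1.trans a2)))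
    rw [mul_pow, mul_pow] at a3
    exact Nat.le_of_mul_le_mul_right (Nat.le_of_mul_le_mul_right a3 (by positivity)) (by positivity)
  · intro x _ y _ h
    funext i
    have := h i (by omega)
    simpa [i.2] using this
  · intro x hx
    refine (sum_le_card_nsmul _ _ (L + 1) fun i hi => ?_).trans (by simp [mul_comm])
    have hi := mem_range.1 hi
    have := hL (x ⟨i, hi⟩) (Fintype.mem_piFinset.1 hx _)
    simp only [hi, dite_true]
    omega
  · intro x hx
    refine (sum_eq_zero fun i hi => ?_).le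
    have hi := mem_range.1 hi
    have h1 := hW (Fintype.mem_piFinset.1 hx ⟨i, hi⟩)
    simp only [hi, dite_true, N, card_eq_zero]
    refine eq_empty_of_forall_notMem fun h hh => ?_
    rw [P.mem_slot (by omega)] at hh
    have := h1 h⁻¹
    simp only [u, mul_one] at hh
    omega

variable {P T}

/-- the main estimate -/
lemma main_estimate {γ : ℕ → G} {g : G} (H : T.IsGeo γ g) {l R : ℕ} (hl : 0 < l)
    (hR : P.Ctrl T l R) {k : ℕ} {t : ℕ → ℕ} (ht : Monotone t) (htn : ∀ i, t i ≤ T.len g) :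
    ∑ i ∈ range (k + 1), P.N (6 * P.θ) ((γ (t i))⁻¹ * γ (t (i + 1))) ≤
      P.N (20 * P.θ) g + (k + 1) * (P.M * (T.len g / l + 1) + (k + 2) * T.b (3 * R + l)) := by
  classical
  have hθ := P.θ_pos
  set z : ℕ → G := fun c => γ (c * l) with hz
  set J := T.len g / l + 1 with hJ
  set X : G → Prop := fun h => ∃ i < k + 2, T.len ((γ (t i))⁻¹ * h) ≤ 3 * R + l with hX
  set Y : ℕ → Finset G := fun i => P.slot (6 * P.θ) (γ (t i)) (γ (t (i + 1))) with hY
  set Z : ℕ → Finset G := fun i => (Y i).filter (fun h => ¬ (P.Drift 1 z J h ∨ X h)) with hZ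
  have hc : ∀ i, t i / l ≤ T.len g / l := fun i => Nat.div_le_div_right (htn i)
  have hcm : ∀ i j, i ≤ j → t i / l ≤ t j / l := fun i j hij => Nat.div_le_div_right (ht hij)
  have fast : ∀ h c, P.θ < P.d h (z c) (z (c + 1)) → T.len ((z c)⁻¹ * h) ≤ R := fun h c hf =>
    hR _ _ h (H.lip' (by rw [Nat.add_mul]; omega) (by rw [Nat.add_mul]; omega)) hf
  have hgrid : ∀ h, ¬ X h → ∀ i < k + 2, P.d h (γ (t i)) (z (t i / l)) ≤ P.θ := by
    intro h hh i hi
    by_contra hf
    have a0 := Nat.div_mul_le_self (t i) l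
    have a1 := Nat.lt_div_mul_add (a := t i) hl
    have := hR (γ (t i)) (z (t i / l)) h (H.lip' (by omega) (by omega)) (by omega)
    exact hh ⟨i, hi, by omega⟩
  have sep : ∀ h, ¬ X h → ∀ i < k + 2, ∀ c c', c < t i / l → t i / l ≤ c' → c' < J →
      P.θ < P.d h (z c) (z (c + 1)) → P.θ < P.d h (z c') (z (c' + 1)) → False := by
    intro h hh i hi c c' h1 h2 h3 f1 f2
    have a1 := fast h c f1
    have a2 := fast h c' f2
    have a3 : c' * l ≤ T.len g := (Nat.le_div_iff_mul_le hl).1 (by omega)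
    have a4 : c * l ≤ c' * l := Nat.mul_le_mul_right _ (by omega)
    have a5 := H.len_eq a4 a3
    have a6 := T.len_mul ((z c)⁻¹ * h) ((z c')⁻¹ * h)⁻¹
    have e : (z c)⁻¹ * h * ((z c')⁻¹ * h)⁻¹ = (γ (c * l))⁻¹ * γ (c' * l) := by
      simp only [hz]; group
    rw [e, T.len_inv] at a6
    have a7 := Nat.lt_div_mul_add (a := t i) hl
    have a8 : t i / l * l ≤ c' * l := Nat.mul_le_mul_right _ h2
    have a9 : c * l ≤ t i / l * l := Nat.mul_le_mul_right _ (by omega)
    have a10 := Nat.div_mul_le_self (t i) l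
    have a11 := H.lip' (s := t i) (t := c * l) (r := 2 * R + l) (by omega) (by omega)
    have a12 := T.len_mul ((γ (t i))⁻¹ * γ (c * l)) ((z c)⁻¹ * h)
    have e' : (γ (t i))⁻¹ * γ (c * l) * ((z c)⁻¹ * h) = (γ (t i))⁻¹ * h := by
      simp only [hz]; group
    rw [e'] at a12
    exact hh ⟨i, hi, by omega⟩
  have key : ∀ i < k + 1, ∀ h ∈ Z i, h ∈ P.slot (20 * P.θ) 1 g ∧
      ∃ c, t i / l ≤ c ∧ c < t (i + 1) / l ∧ P.θ < P.d h (z c) (z (c + 1)) := by
    intro i hi h hh
    simp only [hZ, hY, mem_filter, not_or] at hh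
    obtain ⟨hs, hnd, hx⟩ := hh
    rw [P.mem_slot (by omega)] at hs
    have g1 := hgrid h hx i (by omega)
    have g2 := hgrid h hx (i + 1) (by omega)
    have hci := hc i
    have hci' := hc (i + 1)
    have hf : ∃ c, t i / l ≤ c ∧ c < t (i + 1) / l ∧ P.θ < P.d h (z c) (z (c + 1)) := by
      by_contra hcon
      push Not at hcon
      have := P.slow_nd hnd (hcm i (i + 1) (by omega)) (by omega) hcon
      simp only [d_le_iff] at this g1 g2
      omega
    refine ⟨?_, hf⟩
    obtain ⟨c, c1, c2, c3⟩ := hf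
    have s1 := P.slow_nd hnd (Nat.zero_le (t i / l)) (by omega) (fun c' _ h2 => by
      by_contra hf
      exact sep h hx i (by omega) c' c h2 c1 (by omega) (by omega) c3)
    have s2 := P.slow_nd hnd (a := t (i + 1) / l) (b := J) (by omega) le_rfl (fun c' h1 h2 => by
      by_contra hf
      exact sep h hx (i + 1) (by omega) c c' c2 h1 h2 c3 (by omega))
    have e0 : z 0 = 1 := by simp [hz, H.zero]
    have e1 : z J = g := grid_end H hl
    rw [e0] at s1
    rw [e1] at s2
    rw [P.mem_slot (by omega)]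
    simp only [d_le_iff] at s1 s2 g1 g2
    omega
  have hdisj : ∀ i < k + 1, ∀ j < k + 1, i < j → Disjoint (Z i) (Z j) := by
    intro i hi j hj hij
    rw [disjoint_left]
    intro h h1 h2
    obtain ⟨-, c, c1, c2, c3⟩ := key i hi h h1
    obtain ⟨-, c', c1', c2', c3'⟩ := key j hj h h2
    have hx : ¬ X h := fun hx => (mem_filter.1 h1).2 (Or.inr hx)
    have := hcm (i + 1) j hij
    have := hc (j + 1)
    exact sep h hx (i + 1) (by omega) c c' c2 (by omega) (by omega) c3 c3'
  have hsum : ∑ i ∈ range (k + 1), (Z i).card ≤ P.N (20 * P.θ) g := by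
    rw [← card_biUnion]
    · apply card_le_card
      intro h hh
      obtain ⟨i, hi, hh⟩ := mem_biUnion.1 hh
      exact (key i (mem_range.1 hi) h hh).1
    · intro i hi j hj hij
      have hi := mem_range.1 hi
      have hj := mem_range.1 hj
      rcases lt_or_gt_of_ne hij with h | h
      · exact hdisj i hi j hj h
      · exact (hdisj j hj i hi h).symm
  have hone : ∀ i ∈ range (k + 1), P.N (6 * P.θ) ((γ (t i))⁻¹ * γ (t (i + 1))) ≤
      (Z i).card + (P.M * J + (k + 2) * T.b (3 * R + l)) := by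
    intro i _
    rw [← P.card_slot_eq (by omega)]
    have h1 := P.drift_card 1 z J ((Y i).filter (P.Drift 1 z J)) (fun h hh => (mem_filter.1 hh).2)
    have h2 := card_near_geo (T := T) (fun i => γ (t i)) (k + 2) (3 * R + l) ((Y i).filter X)
      (fun h hh => (mem_filter.1 hh).2)
    have h3 := card_filter_add_card_filter_not (s := Y i) (fun h => P.Drift 1 z J h ∨ X h)
    rw [filter_or] at h3
    have h4 := card_union_le ((Y i).filter (P.Drift 1 z J)) ((Y i).filter X)
    change (Y i).card ≤ _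
    simp only [hZ]
    omega
  refine (sum_le_sum hone).trans ?_
  rw [sum_add_distrib, sum_const, card_range, smul_eq_mul]
  omega

end Proj

end Pool.Agent.Lib.MP21ae20
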