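import Pool.Agent.Lib.MP_21ae20_al.A4

/-! The counting theorem. -/

namespace Pool.Agent.Lib.MP21ae20

open Finset Filter Topology

lemma exists_cuts {k m n : ℕ} (hmn : m ≤ n) {A : Finset ℕ} (hA : A ∈ (range m).powersetCard k) :
    ∃ t : ℕ → ℕ, Monotone t ∧ t 0 = 0 ∧ t (k + 1) = n ∧ (∀ i, t i ≤ n) ∧
      A = (range k).image (fun i => t (i + 1)) := by
  obtain ⟨h1, h2⟩ := mem_powersetCard.1 hA
  have hlt : ∀ i, A.orderEmbOfFin h2 i ≤ n := fun i => by
    have := mem_range.1 (h1 (A.orderEmbOfFin_mem h2 i))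
    omega
  refine ⟨fun i => if i = 0 then 0 else if h : i - 1 < k then A.orderEmbOfFin h2 ⟨i - 1, h⟩ else n,
    ?_, by simp, by simp, ?_, ?_⟩
  · intro i j hij
    simp only
    split_ifs with a1 a2 a3 a4 a5 a6 a7
    any_goals omega
    · exact (A.orderEmbOfFin h2).monotone (by simp only [Fin.mk_le_mk]; omega)
    · exact hlt _
  · intro i
    simp only
    split_ifs
    · omega
    · exact hlt _
    · rfl
  · ext a
    simp only [mem_image, mem_range, Nat.add_eq_zero_iff, one_ne_zero, and_false, if_false,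
      Nat.add_sub_cancel]
    constructor
    · intro ha
      have : a ∈ Set.range (A.orderEmbOfFin h2) := by rw [range_orderEmbOfFin]; exact ha
      obtain ⟨i, rfl⟩ := this
      exact ⟨i, i.2, by simp⟩
    · rintro ⟨i, hi, rfl⟩
      simp [hi]

lemma poly_le_exp (c R q : ℕ) (hq : 0 < q) : ∀ᶠ n in atTop, c * (n + R + 1) ^ 3 ≤ 2 ^ (n / q) := by
  have h1 := tendsto_pow_const_div_const_pow_of_one_lt 3 (r := 2) (by norm_num)
  set c' := c * (2 * q + R) ^ 3 + 1 with hc'
  have h2 : ∀ᶠ m : ℕ in atTop, c' * m ^ 3 ≤ 2 ^ m := by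
    filter_upwards [h1.eventually (gt_mem_nhds (show (0 : ℝ) < 1 / c' by positivity))] with m hm
    rw [div_lt_div_iff₀ (by positivity) (by positivity)] at hm
    have : ((c' * m ^ 3 : ℕ) : ℝ) ≤ ((2 ^ m : ℕ) : ℝ) := by push_cast; linarith
    exact_mod_cast this
  have h3 : Tendsto (fun n : ℕ => n / q) atTop atTop := Nat.tendsto_div_const_atTop hq.ne'
  filter_upwards [h3.eventually h2, h3.eventually (eventually_ge_atTop 1)] with n hn hn1
  refine le_trans ?_ hn
  have a1 := Nat.lt_div_mul_add (a := n) hq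
  have a2 : n + R + 1 ≤ (2 * q + R) * (n / q) := by nlinarith
  calc c * (n + R + 1) ^ 3 ≤ c * ((2 * q + R) * (n / q)) ^ 3 :=
        Nat.mul_le_mul_left _ (Nat.pow_le_pow_left a2 3)
    _ ≤ c' * (n / q) ^ 3 := by rw [mul_pow, ← mul_assoc]; exact Nat.mul_le_mul_right _ (by omega)

namespace Proj

variable {G : Type} [Group G] (P : Proj G) (T : Gen G)

lemma bad_count : ∃ Q, 0 < Q ∧ ∀ k, ∀ᶠ n in atTop, ∀ Y : Finset G,
    (∀ g ∈ Y, T.len g ≤ n ∧ n ≤ 2 * T.len g ∧ 16 * Q * P.N (20 * P.θ) g ≤ n) →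
    2 ^ k * Y.card ≤ Q * T.b n := by
  obtain ⟨Q, C, hQ, hins⟩ := P.insertion T
  refine ⟨Q, hQ, fun k => ?_⟩
  have hM := P.M_pos
  set l := 16 * Q * ((k + 1) * P.M) with hl
  have hl0 : 0 < l := by positivity
  obtain ⟨R, hR⟩ := P.exists_R T l
  set c0 := (k + 1) * (P.M + (k + 2) * T.b (3 * R + l)) + C * (k + 2) with hc0
  filter_upwards [eventually_ge_atTop (8 * Q * c0 + 4 * k + 4)] with n hn Y hY
  choose γ hγ using T.exists_geo
  have hcut : ∀ x : G × Finset ℕ, ∃ t : ℕ → ℕ, x ∈ Y ×ˢ (range (n / 2)).powersetCard k →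
      Monotone t ∧ t 0 = 0 ∧ t (k + 1) = T.len x.1 ∧ (∀ i, t i ≤ T.len x.1) ∧
      x.2 = (range k).image (fun i => t (i + 1)) := by
    intro x
    by_cases hx : x ∈ Y ×ˢ (range (n / 2)).powersetCard k
    · obtain ⟨h1, h2⟩ := mem_product.1 hx
      obtain ⟨t, ht⟩ := exists_cuts (n := T.len x.1) (by have := hY _ h1; omega) h2
      exact ⟨t, fun _ => ht⟩
    · exact ⟨fun _ => 0, fun h => absurd h hx⟩
  choose t ht using hcut
  set m := n / (16 * Q) + (k + 1) * (P.M * (n / l + 1) + (k + 2) * T.b (3 * R + l)) with hm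
  have := hins (G × Finset ℕ) (Y ×ˢ (range (n / 2)).powersetCard k)
    (fun x i => (γ x.1 (t x i))⁻¹ * γ x.1 (t x (i + 1))) k n m ?_ ?_ ?_
  · rw [card_product, card_powersetCard, card_range] at this
    have a1 : 16 * Q * (n / (16 * Q)) ≤ n := Nat.mul_div_le _ _
    have a2 : l * (n / l) ≤ n := Nat.mul_div_le _ _
    have a3 : 16 * Q * (m + C * (k + 2)) = 16 * Q * (n / (16 * Q)) + l * (n / l) + 16 * Q * c0 := by
      rw [hm, hc0, hl]; ring
    have a4 : 2 * Q * (m + C * (k + 2)) ≤ n / 2 + 1 - k := by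
      have : 16 * Q * (m + C * (k + 2)) = 8 * (2 * Q * (m + C * (k + 2))) := by ring
      have : 16 * Q * c0 = 2 * (8 * Q * c0) := by ring
      omega
    have a5 := (Nat.pow_le_pow_left a4 k).trans (Nat.pow_sub_le_descFactorial (n / 2) k)
    have a6 := Nat.descFactorial_le_pow (m + C * (k + 2)) k
    rw [Nat.descFactorial_eq_factorial_mul_choose] at a5 a6
    have a7 : (2 * Q) ^ k * (m + C * (k + 2)).choose k ≤ (n / 2).choose k := by
      refine Nat.le_of_mul_le_mul_left (c := k.factorial) ?_ k.factorial_pos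
      refine le_trans ?_ a5
      rw [mul_pow (2 * Q), mul_left_comm]
      exact Nat.mul_le_mul_left _ a6
    have a8 : 0 < (n / 2).choose k := Nat.choose_pos (by omega)
    refine Nat.le_of_mul_le_mul_right (c := (n / 2).choose k * Q ^ k) ?_ (by positivity)
    calc 2 ^ k * Y.card * ((n / 2).choose k * Q ^ k)
        = (2 * Q) ^ k * (Y.card * (n / 2).choose k) := by rw [mul_pow]; ring
      _ ≤ (2 * Q) ^ k * (T.b n * (m + C * (k + 2)).choose k * Q ^ (k + 1)) :=
          Nat.mul_le_mul_left _ this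
      _ = T.b n * Q ^ (k + 1) * ((2 * Q) ^ k * (m + C * (k + 2)).choose k) := by ring
      _ ≤ T.b n * Q ^ (k + 1) * (n / 2).choose k := Nat.mul_le_mul_left _ a7
      _ = _ := by ring
  · intro x hx y hy hxy
    obtain ⟨x1, x2, x3, x4, x5⟩ := ht x hx
    obtain ⟨y1, y2, y3, y4, y5⟩ := ht y hy
    have hpp : ∀ j ≤ k + 1, γ x.1 (t x j) = γ y.1 (t y j) := by
      intro j hj
      have e1 := pp_telescope (fun i => γ x.1 (t x i)) j
      have e2 := pp_telescope (fun i => γ y.1 (t y i)) j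
      simp only [x2, y2, (hγ _).zero, inv_one, one_mul] at e1 e2
      rw [← e1, ← e2]
      exact pp_congr fun i hi => hxy i (by omega)
    have e1 : x.1 = y.1 := by
      have := hpp (k + 1) le_rfl
      rwa [x3, y3, (hγ _).fin _ le_rfl, (hγ _).fin _ le_rfl] at this
    refine Prod.ext e1 ?_
    rw [x5, y5]
    refine image_congr fun i hi => ?_
    have hi := mem_range.1 hi
    rw [← (hγ x.1).len_at (x4 (i + 1)), hpp (i + 1) (by omega), (hγ y.1).len_at (y4 (i + 1))]
  · intro x hx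
    obtain ⟨x1, x2, x3, x4, x5⟩ := ht x hx
    refine (sum_le_sum fun i _ => (hγ x.1).lip _ _ (x1 (Nat.le_succ i))).trans ?_
    rw [sum_range_tsub x1, x3]
    have := hY _ (mem_product.1 hx).1
    omega
  · intro x hx
    obtain ⟨x1, x2, x3, x4, x5⟩ := ht x hx
    refine (main_estimate (hγ x.1) hl0 hR x1 x4).trans ?_
    obtain ⟨b1, b2, b3⟩ := hY _ (mem_product.1 hx).1
    have b4 : P.N (20 * P.θ) x.1 ≤ n / (16 * Q) :=
      (Nat.le_div_iff_mul_le (by positivity)).2 (by rwa [mul_comm])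
    have b5 : T.len x.1 / l ≤ n / l := Nat.div_le_div_right b1
    rw [hm]
    gcongr

/-- `g` is a conjugate by a long element of a short element -/
def _root_.Pool.Agent.Lib.MP21ae20.Gen.Cj (R n t₀ : ℕ) (g : G) : Prop :=
  ∃ t, t₀ ≤ t ∧ ∃ u v, T.len u ≤ t ∧ T.len v + 2 * t ≤ n + R ∧ g = u * v * u⁻¹

include P in
lemma conj_count (R q j : ℕ) (hq : 0 < q) : ∀ᶠ n in atTop, ∀ Y : Finset G,
    (∀ g ∈ Y, T.Cj R n (n / q) g) → j * Y.card ≤ T.b n := by
  classical
  obtain ⟨K, hK⟩ := P.triple T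
  obtain ⟨L, hL, hg⟩ := P.growth T
  filter_upwards [poly_le_exp (j * K * T.b R) R (q * L) (by positivity)] with n hn Y hY
  set I := (range (n + R + 1)).filter (fun t => n / q ≤ t ∧ 2 * t ≤ n + R) with hI
  have hsub : Y ⊆ I.biUnion (fun t => (T.B t ×ˢ T.B (n + R - 2 * t)).image
      (fun p => p.1 * p.2 * p.1⁻¹)) := by
    intro g hg
    obtain ⟨t, h1, u, v, h2, h3, rfl⟩ := hY g hg
    refine mem_biUnion.2 ⟨t, ?_, mem_image.2 ⟨(u, v), ?_, rfl⟩⟩
    · simp only [hI, mem_filter, mem_range]; omega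
    · simp only [mem_product, T.mem_B]; omega
  have h1 : Y.card * T.b (n / q) ≤ (n + R + 1) * (K * (n + R + 1) ^ 2 * (T.b n * T.b R)) := by
    refine (Nat.mul_le_mul_right _ ((card_le_card hsub).trans card_biUnion_le)).trans ?_
    rw [sum_mul]
    refine (sum_le_card_nsmul _ _ (K * (n + R + 1) ^ 2 * (T.b n * T.b R)) fun t ht => ?_).trans ?_
    · simp only [hI, mem_filter, mem_range] at ht
      have a1 := hK t (n + R - 2 * t) t
      rw [show t + (n + R - 2 * t) + t = n + R by omega] at a1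
      refine le_trans ?_ (a1.trans (Nat.mul_le_mul_left _ (T.b_add n R)))
      refine Nat.mul_le_mul (card_image_le.trans ?_) (T.b_mono ht.2.1)
      rw [card_product]; rfl
    · rw [smul_eq_mul]
      exact Nat.mul_le_mul_right _ ((card_filter_le _ _).trans (by simp))
  have h2 : 2 ^ (n / (q * L)) ≤ T.b (n / q) := by
    refine (hg _).trans (T.b_mono ?_)
    rw [← Nat.div_div_eq_div_mul]
    exact Nat.mul_div_le _ _
  refine Nat.le_of_mul_le_mul_right (c := T.b (n / q)) ?_ (T.b_pos _)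
  calc j * Y.card * T.b (n / q) = j * (Y.card * T.b (n / q)) := by ring
    _ ≤ j * ((n + R + 1) * (K * (n + R + 1) ^ 2 * (T.b n * T.b R))) := Nat.mul_le_mul_left _ h1
    _ = T.b n * (j * K * T.b R * (n + R + 1) ^ 3) := by ring
    _ ≤ T.b n * T.b (n / q) := Nat.mul_le_mul_left _ (hn.trans h2)

open Classical in
/-- cyclic slots -/
noncomputable def Mdl (g : G) : Finset G :=
  (P.slot (20 * P.θ) 1 g).filter (fun h => P.Good (34 * P.θ) (h⁻¹ * g * h))

lemma mdl_lower (g : G) (k : ℕ) : k * (P.Mdl g).card ≤ P.N (35 * P.θ) (g ^ k) := by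
  classical
  have hθ := P.θ_pos
  have low : ∀ h ∈ P.Mdl g, ∀ j, P.u (g ^ j * h) 1 ≤ 35 * P.θ := by
    intro h hh j
    rw [Mdl, mem_filter, P.mem_slot (by omega)] at hh
    induction j with
    | zero => simp only [pow_zero, one_mul]; omega
    | succ j ih =>
      have := hh.2.low (x := (g ^ j * h)⁻¹ * 1) (by unfold u at ih; omega)
      have e : (h⁻¹ * g * h)⁻¹ * ((g ^ j * h)⁻¹ * 1) = (g ^ (j + 1) * h)⁻¹ * 1 := by
        rw [pow_succ]; group
      rw [e] at this
      unfold u; omega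
  have high : ∀ h ∈ P.Mdl g, ∀ j, 65 * P.θ ≤ P.u h (g ^ (j + 1)) := by
    intro h hh j
    rw [Mdl, mem_filter, P.mem_slot (by omega)] at hh
    induction j with
    | zero => simp only [zero_add, pow_one]; omega
    | succ j ih =>
      have := hh.2.high (x := h⁻¹ * g ^ (j + 1)) (by unfold u at ih; omega)
      have e : h⁻¹ * g * h * (h⁻¹ * g ^ (j + 1)) = h⁻¹ * g ^ (j + 1 + 1) := by
        rw [pow_succ' g (j + 1)]; group
      rw [e] at this
      unfold u; omega
  have hne : ∀ h ∈ P.Mdl g, ∀ h' ∈ P.Mdl g, ∀ j j', j < j' → g ^ j * h ≠ g ^ j' * h' := by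
    intro h hh h' hh' j j' hlt he
    obtain ⟨i, rfl⟩ := Nat.exists_eq_add_of_lt hlt
    have e : h = g * (g ^ i * h') := by
      rw [add_assoc, pow_add, mul_assoc, mul_right_inj] at he
      rw [he, pow_succ']; group
    have a1 := high h hh 0
    have a2 := low h' hh' i
    rw [← P.u_mul g, ← e] at a2
    simp only [zero_add, pow_one, mul_one] at a1 a2
    omega
  rw [← card_range k, ← card_product, card_range]
  apply card_le_card_of_injOn (fun p => g ^ p.1 * p.2)
  · rintro ⟨j, h⟩ hp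
    simp only [coe_product, Set.mem_prod, mem_coe, mem_range] at hp
    simp only [mem_coe]
    rw [P.mem_slot (by omega)]
    refine ⟨low h hp.2 j, ?_⟩
    obtain ⟨i, rfl⟩ := Nat.exists_eq_add_of_lt hp.1
    have := high h hp.2 i
    rw [add_assoc, pow_add, P.u_mul]
    omega
  · rintro ⟨j, h⟩ hp ⟨j', h'⟩ hq he
    simp only [coe_product, Set.mem_prod, mem_coe, mem_range] at hp hq he
    rcases lt_trichotomy j j' with hlt | rfl | hlt
    · exact absurd he (hne h hp.2 h' hq.2 j j' hlt)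
    · simpa using he
    · exact absurd he.symm (hne h' hq.2 h hp.2 j' j hlt)

lemma chain_lower (t g : G) (D : ℕ) (z : ℕ → G) (h0 : z 0 = t) (hD : z D = g * t)
    (hs : ∀ i < D, ∀ h, P.d h (z i) (z (i + 1)) ≤ P.θ) :
    P.N (35 * P.θ) g ≤ P.M * D + 2 * (P.big 1 t).card := by
  classical
  have hθ := P.θ_pos
  have hsub : P.slot (35 * P.θ) 1 g ⊆ (P.slot (35 * P.θ) 1 g).filter (P.Drift t z D) ∪
      (P.big 1 t ∪ (P.big 1 t).image (fun e => g * e)) := by
    intro h hh
    by_contra hcon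
    simp only [mem_union, mem_filter, hh, true_and, mem_image, not_or, not_exists, not_and,
      mem_big, not_lt] at hcon
    obtain ⟨c1, c2, c3⟩ := hcon
    have c4 : P.d h g (g * t) ≤ P.θ := by
      by_contra hf
      apply c3 (g⁻¹ * h) _ (by simp)
      rw [← P.d_mul g]
      simpa using hf
    have := P.slow_nd c1 (Nat.zero_le _) le_rfl (fun c _ hc => hs c hc h)
    rw [h0, hD] at this
    rw [P.mem_slot (by omega)] at hh
    simp only [d_le_iff] at this c2 c4
    omega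
  have h1 := P.drift_card t z D ((P.slot (35 * P.θ) 1 g).filter (P.Drift t z D))
    (fun h hh => (mem_filter.1 hh).2)
  have h2 := (card_le_card hsub).trans (card_union_le _ _)
  have h3 := card_union_le (P.big 1 t) ((P.big 1 t).image (fun e => g * e))
  have h4 : ((P.big 1 t).image (fun e => g * e)).card ≤ (P.big 1 t).card := card_image_le
  unfold N
  omega

variable {P T}

lemma conj_of_late {γ : ℕ → G} {g : G} (H : T.IsGeo γ g) {R n t₀ : ℕ} (hn : T.len g ≤ n) {k : G}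
    (h1 : ∃ s, t₀ ≤ s ∧ s ≤ T.len g ∧ T.len ((γ s)⁻¹ * k) ≤ R)
    (h2 : ∃ s, t₀ ≤ s ∧ s ≤ T.len g ∧ T.len ((γ s)⁻¹ * (g * k)) ≤ R) : T.Cj (4 * R) n t₀ g := by
  obtain ⟨s, s1, s2, s3⟩ := h1
  obtain ⟨s', s1', s2', s3'⟩ := h2
  set r := (γ s')⁻¹ * (g * k) * ((γ s)⁻¹ * k)⁻¹ with hr
  have hrl : T.len r ≤ 2 * R := by
    have := T.len_mul ((γ s')⁻¹ * (g * k)) ((γ s)⁻¹ * k)⁻¹
    rw [T.len_inv, ← hr] at this
    omega
  have a1 := H.len_eq s2' le_rfl
  rw [H.fin _ le_rfl] at a1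
  have a2 := T.len_mul r (γ s)⁻¹
  have e : r * (γ s)⁻¹ = (γ s')⁻¹ * g := by rw [hr]; group
  rw [e, T.len_inv, H.len_at s2] at a2
  have a3 := T.len_mul (γ s') (r * (γ s)⁻¹)
  have a4 := T.len_mul r⁻¹ ((γ s')⁻¹ * g)
  have e' : r⁻¹ * ((γ s')⁻¹ * g) = (γ s)⁻¹ := by rw [hr]; group
  rw [e', T.len_inv, T.len_inv, H.len_at s2] at a4
  rcases le_total s s' with h | h
  · refine ⟨s, s1, γ s, (γ s)⁻¹ * γ s' * r, (H.len_at s2).le, ?_, by rw [hr]; group⟩
    have := T.len_mul ((γ s)⁻¹ * γ s') r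
    have := H.lip s s' h
    omega
  · refine ⟨s', s1', γ s', r * ((γ s')⁻¹ * γ s)⁻¹, (H.len_at s2').le, ?_, by rw [hr]; group⟩
    have := T.len_mul r ((γ s')⁻¹ * γ s)⁻¹
    rw [T.len_inv] at this
    have := H.lip s' s h
    omega

lemma mdl_big {γ : ℕ → G} {g : G} (H : T.IsGeo γ g) {l R R₀ n t₀ : ℕ} (hl : 0 < l)
    (hR : P.Ctrl T l R) (hR₀ : ∀ e ∈ P.F0, T.len e ≤ R₀) (hn : T.len g ≤ n)
    (hcj : ¬ T.Cj (4 * (R + R₀)) n t₀ g) :
    P.N (20 * P.θ) g ≤ (P.Mdl g).card + 3 * (P.M * (n / l + 1) + t₀ * T.b (R + R₀)) := by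
  classical
  have hθ := P.θ_pos
  set Ex : G → Prop := fun k => P.Drift 1 (fun c => γ (c * l)) (T.len g / l + 1) k ∨
    ∃ s < t₀, T.len ((γ s)⁻¹ * k) ≤ R + R₀ with hEx
  have hcard : ∀ (Y : Finset G) (a : G), (Y.filter (fun h => Ex (a * h))).card ≤
      P.M * (n / l + 1) + t₀ * T.b (R + R₀) := by
    intro Y a
    rw [← card_image_of_injective _ (mul_right_injective a)]
    set Y' := (Y.filter (fun h => Ex (a * h))).image (fun x => a * x)
    have hY' : ∀ k ∈ Y', Ex k := by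
      intro k hk
      obtain ⟨h, hh, rfl⟩ := mem_image.1 hk
      exact (mem_filter.1 hh).2
    have hs : Y' ⊆ Y'.filter (P.Drift 1 (fun c => γ (c * l)) (T.len g / l + 1)) ∪
        Y'.filter (fun k => ∃ s < t₀, T.len ((γ s)⁻¹ * k) ≤ R + R₀) := by
      intro k hk
      simpa only [mem_union, mem_filter, hk, true_and] using hY' k hk
    refine (card_le_card hs).trans ((card_union_le _ _).trans (add_le_add ?_ ?_))
    · refine (P.drift_card 1 _ _ _ (fun h hh => (mem_filter.1 hh).2)).trans ?_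
      have := Nat.div_le_div_right (c := l) hn
      gcongr
    · exact card_near_geo γ _ _ _ (fun h hh => (mem_filter.1 hh).2)
  have late : ∀ k, ¬ Ex k → 13 * P.θ < P.d k 1 g →
      ∃ s, t₀ ≤ s ∧ s ≤ T.len g ∧ T.len ((γ s)⁻¹ * k) ≤ R := by
    intro k hk hd
    simp only [hEx, not_or, not_exists, not_and, not_le] at hk
    rcases near_or_drift H hl hR hd with h | ⟨s, h1, h2⟩
    · exact absurd h hk.1
    · refine ⟨s, ?_, h1, h2⟩
      by_contra hlt
      have := hk.2 s (by omega)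
      omega
  have weak : ∀ k, (∃ s, t₀ ≤ s ∧ s ≤ T.len g ∧ T.len ((γ s)⁻¹ * k) ≤ R) →
      ∃ s, t₀ ≤ s ∧ s ≤ T.len g ∧ T.len ((γ s)⁻¹ * k) ≤ R + R₀ :=
    fun k ⟨s, h1, h2, h3⟩ => ⟨s, h1, h2, by omega⟩
  set Y := P.slot (20 * P.θ) 1 g with hY
  have hsub : Y ⊆ P.Mdl g ∪ (Y.filter (fun h => Ex (1 * h)) ∪ (Y.filter (fun h => Ex (g * h)) ∪
      Y.filter (fun h => Ex (g⁻¹ * h)))) := by
    intro h hh
    by_contra hcon
    simp only [mem_union, Mdl, ← hY, mem_filter, hh, true_and, not_or, one_mul] at hcon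
    obtain ⟨c1, c2, c3, c4⟩ := hcon
    rw [hY, P.mem_slot (by omega)] at hh
    have l1 := late h c2 (by rw [lt_d_iff]; omega)
    apply hcj
    by_cases hun : P.Un h (g * h)
    · have hun' : P.Un 1 (h⁻¹ * g * h) := by simpa [mul_assoc] using hun.mul h⁻¹
      have e1 : P.f (h⁻¹ * g * h) = P.u h (g * h) := by simp [u, mul_assoc]
      have e2 : P.f (h⁻¹ * g * h)⁻¹ = P.u (g * h) h := by simp [u, mul_assoc]
      have e3 : P.u (g * h) g = P.u h 1 := by rw [← P.u_mul g h 1, mul_one]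
      by_cases h3 : 34 * P.θ < P.u (g * h) h
      · refine conj_of_late H hn (weak _ l1) (weak _ (late _ c3 ?_))
        have a1 := hun g
        have a2 := hun 1
        simp only [d_le_iff, lt_d_iff] at a1 a2 ⊢
        omega
      · have h2 : P.u h (g * h) < 66 * P.θ := by
          by_contra h2
          exact c1 ⟨hun', by omega, by omega⟩
        have hun2 : P.Un (g⁻¹ * h) h := by simpa using hun.mul g⁻¹
        have e4 : P.u (g⁻¹ * h) h = P.u h (g * h) := by simp [u, mul_assoc]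
        have e5 : P.u (g⁻¹ * h) 1 = P.u h g := by simp [u]
        refine conj_of_late H hn (k := g⁻¹ * h) (weak _ (late _ c4 ?_)) (by simpa using weak _ l1)
        have a1 := hun2 g
        have a2 := hun2 1
        simp only [d_le_iff, lt_d_iff] at a1 a2 ⊢
        omega
    · rw [un_iff, not_not] at hun
      refine conj_of_late H hn (weak _ l1) ?_
      obtain ⟨s, h1, h2, h3⟩ := l1
      refine ⟨s, h1, h2, ?_⟩
      have a1 := hR₀ _ hun
      have a2 := T.len_mul ((γ s)⁻¹ * h) (h⁻¹ * (g * h))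
      rw [show (γ s)⁻¹ * h * (h⁻¹ * (g * h)) = (γ s)⁻¹ * (g * h) by group] at a2
      omega
  have h1 := (card_le_card hsub).trans ((card_union_le _ _).trans (Nat.add_le_add_left
    ((card_union_le _ _).trans (Nat.add_le_add_left (card_union_le _ _) _)) _))
  have h2 := hcard Y 1
  have h3 := hcard Y g
  have h4 := hcard Y g⁻¹
  change Y.card ≤ _
  omega

variable (P T)

/-- every slow chain from `t` to `g ^ k * t` is long -/
def Long (A n : ℕ) (g : G) : Prop :=
  ∀ t, ∃ C : ℕ, ∀ (k D : ℕ) (z : ℕ → G), z 0 = t → z D = g ^ k * t →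
    (∀ i < D, ∀ h, P.d h (z i) (z (i + 1)) ≤ P.θ) → n * k ≤ A * D + C

theorem generic_long : ∃ A, 0 < A ∧ ∀ j, ∀ᶠ n in atTop, ∀ Y : Finset G,
    (∀ g ∈ Y, T.len g ≤ n ∧ ¬ P.Long A n g) → j * Y.card ≤ T.b n := by
  classical
  obtain ⟨Q, hQ, hbad⟩ := P.bad_count T
  have hM := P.M_pos
  refine ⟨64 * Q * P.M, by positivity, fun j => ?_⟩
  set l := 64 * Q * (3 * P.M) with hl
  have hl0 : 0 < l := by positivity
  obtain ⟨R, hR⟩ := P.exists_R T l
  obtain ⟨R₀, hR₀⟩ := T.exists_bound _ P.F0.finite_toSet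
  have hb := T.b_pos (R + R₀)
  set q := 64 * Q * (3 * T.b (R + R₀)) with hq
  have hq0 : 0 < q := by positivity
  filter_upwards [hbad (2 * j * Q), P.conj_count T (4 * (R + R₀)) q (2 * j) hq0,
    eventually_ge_atTop l] with n h1 h2 h3 Y hY
  set Y₁ := Y.filter (fun g => T.Cj (4 * (R + R₀)) n (n / q) g) with hY₁
  set Y₂ := Y.filter (fun g => ¬ T.Cj (4 * (R + R₀)) n (n / q) g) with hY₂
  have a1 := h2 Y₁ (fun g hg => (mem_filter.1 hg).2)
  have a2 := h1 Y₂ (fun g hg => by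
    obtain ⟨hg1, hg2⟩ := mem_filter.1 hg
    obtain ⟨b1, b2⟩ := hY g hg1
    refine ⟨b1, ?_, ?_⟩
    · by_contra hlt
      apply hg2
      have : n / q ≤ n / 4 := Nat.div_le_div_left (by rw [hq]; nlinarith) (by omega)
      exact ⟨n / 4, this, 1, g, by simp [T.len_one], by omega, by simp⟩
    · by_contra hlt
      apply b2
      obtain ⟨γ, H⟩ := T.exists_geo g
      have c1 := mdl_big H hl0 hR hR₀ b1 hg2
      have c2 : l * (n / l) ≤ n := Nat.mul_div_le _ _
      have c3 : q * (n / q) ≤ n := Nat.mul_div_le _ _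
      have c4 : 64 * Q * (3 * (P.M * (n / l + 1) + n / q * T.b (R + R₀))) =
          l * (n / l) + l + q * (n / q) := by rw [hl, hq]; ring
      have c5 := Nat.mul_le_mul_left (64 * Q) c1
      rw [mul_add, c4] at c5
      have c6 : 64 * Q * P.N (20 * P.θ) g = 4 * (16 * Q * P.N (20 * P.θ) g) := by ring
      have c7 : n ≤ 64 * Q * (P.Mdl g).card := by omega
      intro t
      refine ⟨64 * Q * (2 * (P.big 1 t).card), fun k D z z0 zD zs => ?_⟩
      have d1 := (P.mdl_lower g k).trans (P.chain_lower t _ D z z0 zD zs)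
      calc n * k ≤ 64 * Q * (P.Mdl g).card * k := Nat.mul_le_mul_right _ c7
        _ = 64 * Q * (k * (P.Mdl g).card) := by ring
        _ ≤ 64 * Q * (P.M * D + 2 * (P.big 1 t).card) := Nat.mul_le_mul_left _ d1
        _ = _ := by ring)
  have a3 := card_filter_add_card_filter_not (s := Y) (fun g => T.Cj (4 * (R + R₀)) n (n / q) g)
  have a4 : 2 * j * Q ≤ 2 ^ (2 * j * Q) := Nat.lt_two_pow_self.le
  have a5 : 2 * j * Y₂.card ≤ T.b n := by
    refine Nat.le_of_mul_le_mul_left (c := Q) ?_ hQ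
    calc Q * (2 * j * Y₂.card) = 2 * j * Q * Y₂.card := by ring
      _ ≤ _ := (Nat.mul_le_mul_right _ a4).trans a2
  rw [← a3]
  change j * (Y₁.card + Y₂.card) ≤ _
  nlinarith

theorem generic_tendsto : ∃ A, 0 < A ∧ ∀ p : ℕ → G → Prop, (∀ n g, P.Long A n g → p n g) →
    Tendsto (fun n => ({g ∈ ball T.S n | p n g}.ncard : ℝ) / (ball T.S n).ncard) atTop (𝓝 1) := by
  classical
  obtain ⟨A, hA, h⟩ := P.generic_long T
  refine ⟨A, hA, fun p hp => ?_⟩
  have e1 : ∀ n, (ball T.S n).ncard = T.b n := fun n => Set.ncard_eq_toFinset_card _ _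
  have e2 : ∀ n, {g ∈ ball T.S n | p n g}.ncard = ((T.B n).filter (p n)).card := by
    intro n
    rw [← Set.ncard_coe_finset]
    congr 1
    ext g
    simp [Gen.B]
  simp only [e1, e2]
  rw [Metric.tendsto_nhds]
  intro ε hε
  obtain ⟨j, hj⟩ := exists_nat_one_div_lt hε
  filter_upwards [h (j + 1)] with n hn
  have a1 := hn ((T.B n).filter (fun g => ¬ p n g)) (fun g hg => by
    rw [mem_filter, T.mem_B] at hg
    exact ⟨hg.1, fun hl => hg.2 (hp n g hl)⟩)
  have a2 := card_filter_add_card_filter_not (s := T.B n) (p n)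
  have a3 : (0 : ℝ) < T.b n := by exact_mod_cast T.b_pos n
  have a4 : (((T.B n).filter (p n)).card : ℝ) =
      T.b n - ((T.B n).filter (fun g => ¬ p n g)).card := by
    rw [Gen.b, ← a2]; push_cast; ring
  have a5 : ((j : ℝ) + 1) * ((T.B n).filter (fun g => ¬ p n g)).card ≤ T.b n := by
    exact_mod_cast a1
  rw [a4, Real.dist_eq, sub_div, div_self a3.ne', sub_sub_cancel_left, abs_neg,
    abs_of_nonneg (by positivity)]
  refine lt_of_le_of_lt ?_ hj
  rw [div_le_div_iff₀ a3 (by positivity)]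
  linarith

end Proj

end Pool.Agent.Lib.MP21ae20
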