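import Mathlib

/-! Words in free groups, local counting functions and their homogenisation. -/

namespace Pool.Agent.Lib.MP21ae20

open FreeGroup List Filter Topology

variable {α : Type}

/-- letters -/
abbrev Lt (α : Type) := α × Bool

/-- inverse letter -/
def li (x : Lt α) : Lt α := (x.1, !x.2)

@[simp] lemma li_li (x : Lt α) : li (li x) = x := by simp [li]
@[simp] lemma li_fst (x : Lt α) : (li x).1 = x.1 := rfl
@[simp] lemma li_snd (x : Lt α) : (li x).2 = !x.2 := rfl

lemma li_inj {x y : Lt α} : li x = li y ↔ x = y :=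
  ⟨fun h => by rw [← li_li x, h, li_li], fun h => by rw [h]⟩

lemma li_ne (x : Lt α) : li x ≠ x := by
  intro h
  have := congrArg Prod.snd h
  simp at this

lemma red_rel_iff {a b : Lt α} : (a.1 = b.1 → a.2 = b.2) ↔ b ≠ li a := by
  obtain ⟨a, s⟩ := a
  obtain ⟨b, t⟩ := b
  cases s <;> cases t <;> simp [li, eq_comm]

lemma isReduced_iff {w : List (Lt α)} : IsReduced w ↔ w.IsChain (fun a b => b ≠ li a) := by
  simp only [FreeGroup.IsReduced, red_rel_iff]

@[simp] lemma invRev_singleton (x : Lt α) : invRev [x] = [li x] := rfl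

lemma invRev_cons' (x : Lt α) (w : List (Lt α)) : invRev (x :: w) = invRev w ++ [li x] := by
  rw [invRev_cons, invRev_singleton]

lemma invRev_concat (x : Lt α) (w : List (Lt α)) : invRev (w ++ [x]) = li x :: invRev w := by
  rw [invRev_append]; rfl

lemma mem_invRev {x : Lt α} {w : List (Lt α)} : x ∈ invRev w ↔ li x ∈ w := by
  induction w with
  | nil => simp
  | cons a w ih =>
    rw [invRev_cons', mem_append, ih, mem_singleton, mem_cons, or_comm, ← li_inj, li_li]

lemma invRev_eq_nil {w : List (Lt α)} : invRev w = [] ↔ w = [] := by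
  rw [← length_eq_zero_iff, invRev_length, length_eq_zero_iff]

lemma mk_li (x : Lt α) : mk [li x] = (mk [x])⁻¹ := by rw [inv_mk]; rfl

lemma mk_cons (x : Lt α) (w : List (Lt α)) : mk (x :: w) = mk [x] * mk w := by rw [mul_mk]; rfl

lemma mk_true (a : α) : mk [(a, true)] = of a := rfl

lemma mk_false (a : α) : mk [(a, false)] = (of a)⁻¹ := rfl

lemma red_left {u v : List (Lt α)} (h : IsReduced (u ++ v)) : IsReduced u :=
  IsChain.left_of_append h

lemma red_right {u v : List (Lt α)} (h : IsReduced (u ++ v)) : IsReduced v :=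
  IsChain.right_of_append h

lemma red_decomp (u v : List (Lt α)) (hu : IsReduced u) (hv : IsReduced v) :
    ∃ a c b, u = a ++ c ∧ v = invRev c ++ b ∧ IsReduced (a ++ b) := by
  induction u using List.reverseRecOn generalizing v with
  | nil => exact ⟨[], [], v, rfl, rfl, hv⟩
  | append_singleton u x ih =>
    by_cases h : ∃ v', v = li x :: v'
    · obtain ⟨v', rfl⟩ := h
      obtain ⟨a, c, b, rfl, rfl, h⟩ := ih v' (red_left hu) (red_right (u := [li x]) hv)
      exact ⟨a, c ++ [x], b, by simp, by simp, h⟩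
    · refine ⟨u ++ [x], [], v, by simp, rfl, ?_⟩
      rw [isReduced_iff] at hu hv ⊢
      refine IsChain.append hu hv ?_
      intro p hp q hq
      simp only [getLast?_concat, Option.mem_def, Option.some.injEq] at hp
      rintro rfl
      subst hp
      obtain ⟨v', rfl⟩ := head?_eq_some_iff.1 hq
      exact h ⟨v', rfl⟩

variable [DecidableEq α]

lemma toWord_red {w : List (Lt α)} (h : IsReduced w) : (mk w).toWord = w := by
  rw [toWord_mk, h.reduce_eq]

lemma red_invRev {w : List (Lt α)} (h : IsReduced w) : IsReduced (invRev w) := by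
  rw [← toWord_red h, ← toWord_inv]
  exact isReduced_toWord

lemma norm_red {w : List (Lt α)} (h : IsReduced w) : (mk w).norm = w.length := by
  rw [FreeGroup.norm, toWord_red h]

lemma mul_decomp (g h : FreeGroup α) : ∃ a c b, g.toWord = a ++ c ∧ h.toWord = invRev c ++ b ∧
    (g * h).toWord = a ++ b := by
  obtain ⟨a, c, b, h1, h2, h3⟩ := red_decomp g.toWord h.toWord isReduced_toWord isReduced_toWord
  refine ⟨a, c, b, h1, h2, ?_⟩
  rw [← toWord_red h3]
  congr 1
  rw [← mk_toWord (x := g), ← mk_toWord (x := h), h1, h2, ← mul_mk, ← mul_mk, ← mul_mk, ← inv_mk]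
  group

lemma exists_lip [Finite α] (σ : FreeGroup α →* FreeGroup α) :
    ∃ L, 0 < L ∧ ∀ g, (σ g).norm ≤ L * g.norm := by
  obtain ⟨L, hL⟩ := (Set.finite_range (fun x : Lt α => (σ (mk [x])).norm)).bddAbove
  refine ⟨L + 1, by omega, fun g => ?_⟩
  have : ∀ w, (σ (mk w)).norm ≤ (L + 1) * w.length := by
    intro w
    induction w with
    | nil => simp [← one_eq_mk]
    | cons x w ih =>
      rw [mk_cons, _root_.map_mul]
      have h1 := norm_mul_le (σ (mk [x])) (σ (mk w))
      have h2 : (σ (mk [x])).norm ≤ L := hL ⟨x, rfl⟩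
      rw [length_cons, Nat.mul_succ]
      omega
  simpa only [mk_toWord, FreeGroup.norm] using this g.toWord

lemma finite_norm_le [Finite α] (n : ℕ) : {g : FreeGroup α | g.norm ≤ n}.Finite :=
  Set.Finite.of_finite_image (f := toWord) ((List.finite_length_le (Lt α) n).subset (by
    rintro _ ⟨g, hg, rfl⟩
    exact hg)) toWord_injective.injOn

/-! ### powers of words and cyclic reduction -/

omit [DecidableEq α] in
/-- the `n`-th power of a word -/
def wp (w : List (Lt α)) (n : ℕ) : List (Lt α) := (List.replicate n w).flatten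

omit [DecidableEq α] in
@[simp] lemma wp_zero (w : List (Lt α)) : wp w 0 = [] := rfl

omit [DecidableEq α] in
lemma wp_succ (w : List (Lt α)) (n : ℕ) : wp w (n + 1) = w ++ wp w n := rfl

omit [DecidableEq α] in
lemma wp_add (w : List (Lt α)) (m n : ℕ) : wp w (m + n) = wp w m ++ wp w n := by
  simp only [wp, List.replicate_add, flatten_append]

omit [DecidableEq α] in
lemma wp_succ' (w : List (Lt α)) (n : ℕ) : wp w (n + 1) = wp w n ++ w := by
  rw [wp_add]; simp [wp]

omit [DecidableEq α] in
@[simp] lemma length_wp (w : List (Lt α)) (n : ℕ) : (wp w n).length = n * w.length := by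
  simp [wp]

omit [DecidableEq α] in
lemma mem_wp {w : List (Lt α)} {n : ℕ} {x : Lt α} (h : x ∈ wp w n) : x ∈ w := by
  simp only [wp, mem_flatten, mem_replicate] at h
  obtain ⟨_, ⟨-, rfl⟩, h⟩ := h
  exact h

lemma toWord_pow_cyc {w : List (Lt α)} (h : IsCyclicallyReduced w) (n : ℕ) :
    (mk w ^ n).toWord = wp w n := by
  rw [pow_mk]
  exact toWord_red (h.flatten_replicate n).isReduced

omit [DecidableEq α] in
lemma cyc_iff {w : List (Lt α)} : IsCyclicallyReduced w ↔ IsReduced (w ++ w) := by
  rw [isCyclicallyReduced_iff, FreeGroup.IsReduced, FreeGroup.IsReduced, isChain_append]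
  tauto

lemma cyc_invRev {w : List (Lt α)} (h : IsCyclicallyReduced w) :
    IsCyclicallyReduced (invRev w) := by
  rw [cyc_iff] at h ⊢
  rw [← invRev_append]
  exact red_invRev h

lemma exists_cyc (g : FreeGroup α) : ∃ u w, IsCyclicallyReduced w ∧ g = u * mk w * u⁻¹ := by
  refine ⟨mk (reduceCyclically.conjugator g.toWord), reduceCyclically g.toWord,
    reduceCyclically.isCyclicallyReduced isReduced_toWord, ?_⟩
  rw [inv_mk, mul_mk, mul_mk, reduceCyclically.conj_conjugator_reduceCyclically, mk_toWord]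

/-! ### local counts -/

open Classical in
/-- number of nonempty final segments satisfying `p` -/
noncomputable def lc {β : Type} (p : List β → Prop) : List β → ℕ
  | [] => 0
  | x :: w => lc p w + if p (x :: w) then 1 else 0

structure Loc {β : Type} (p : List β → Prop) (m : ℕ) : Prop where
  mono : ∀ u v, p u → p (u ++ v)
  loc : ∀ u v, p (u ++ v) → m < u.length → p u

section lc

variable {β : Type} {p : List β → Prop} {m : ℕ}

lemma lc_le_length (p : List β → Prop) (w : List β) : lc p w ≤ w.length := by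
  induction w with
  | nil => simp [lc]
  | cons x w ih => simp only [lc, length_cons]; split_ifs <;> omega

lemma Loc.ge (H : Loc p m) (u v : List β) : lc p u + lc p v ≤ lc p (u ++ v) := by
  induction u with
  | nil => simp [lc]
  | cons x u ih =>
    have := H.mono (x :: u) v
    simp only [cons_append, lc] at this ⊢
    split_ifs <;> first | omega | tauto

lemma Loc.le' (H : Loc p m) (u v : List β) :
    lc p (u ++ v) ≤ lc p u + lc p v + min m u.length := by
  induction u with
  | nil => simp [lc]
  | cons x u ih =>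
    have := H.loc (x :: u) v
    simp only [cons_append, lc, length_cons] at this ⊢
    split_ifs with h1 h2
    any_goals omega
    have : ¬ m < u.length + 1 := fun h => h2 (this h1 h)
    omega

lemma Loc.le (H : Loc p m) (u v : List β) : lc p (u ++ v) ≤ lc p u + lc p v + m := by
  have := H.le' u v
  omega

lemma lc_pos_iff {w : List β} : 0 < lc p w ↔ ∃ s x t, w = s ++ x :: t ∧ p (x :: t) := by
  induction w with
  | nil => simp [lc]
  | cons y w ih =>
    constructor
    · intro h
      by_cases hp : p (y :: w)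
      · exact ⟨[], y, w, rfl, hp⟩
      · simp only [lc, hp, if_false, add_zero] at h
        obtain ⟨s, x, t, rfl, h'⟩ := ih.1 h
        exact ⟨y :: s, x, t, rfl, h'⟩
    · rintro ⟨s, x, t, h, hp⟩
      rcases s with _ | ⟨z, s⟩
      · simp only [nil_append] at h
        rw [lc, h, if_pos hp]
        omega
      · simp only [cons_append, cons.injEq] at h
        have := ih.2 ⟨s, x, t, h.2, hp⟩
        rw [lc]
        omega

end lc

/-- quasi-subadditive functions -/
def QS (q : FreeGroup α → ℕ) (C : ℕ) : Prop := ∀ g h, q (g * h) ≤ q g + q h + C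

lemma Loc.qs {p : List (Lt α) → Prop} {m : ℕ} (H : Loc p m) : QS (fun g => lc p g.toWord) m := by
  intro g h
  obtain ⟨a, c, b, h1, h2, h3⟩ := mul_decomp g h
  simp only [h1, h2, h3]
  have := H.le a b
  have := H.ge a c
  have := H.ge (invRev c) b
  omega

lemma qs_norm : QS (FreeGroup.norm : FreeGroup α → ℕ) 0 := fun g h => norm_mul_le g h

/-! ### homogenisation -/

/-- `f n ~ a n` -/
def Lin (f : ℕ → ℝ) (a : ℝ) : Prop := Tendsto (fun n => f n / n) atTop (𝓝 a)

lemma Lin.add {f g : ℕ → ℝ} {a b : ℝ} (hf : Lin f a) (hg : Lin g b) :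
    Lin (fun n => f n + g n) (a + b) := by
  simpa only [Lin, add_div] using Tendsto.add hf hg

lemma Lin.const_mul {f : ℕ → ℝ} {a : ℝ} (hf : Lin f a) (c : ℝ) :
    Lin (fun n => c * f n) (c * a) := by
  simpa only [Lin, mul_div_assoc] using Tendsto.const_mul c hf

lemma Lin.const (c : ℝ) : Lin (fun _ => c) 0 := tendsto_const_div_atTop_nhds_zero_nat c

lemma Lin.lin (c : ℝ) : Lin (fun n => n * c) c := by
  refine tendsto_const_nhds.congr' ?_
  filter_upwards [eventually_gt_atTop 0] with n hn
  have : (n : ℝ) ≠ 0 := by positivity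
  field_simp

lemma Lin.le {f g : ℕ → ℝ} {a b : ℝ} (hf : Lin f a) (hg : Lin g b) (C : ℝ)
    (h : ∀ n, f n ≤ g n + C) : a ≤ b := by
  have := hg.add (Lin.const C)
  rw [add_zero] at this
  exact le_of_tendsto_of_tendsto' hf this fun n => div_le_div_of_nonneg_right (h n) (by positivity)

omit [DecidableEq α] in
/-- homogenisation of `q` -/
noncomputable def hm (q : FreeGroup α → ℕ) (g : FreeGroup α) : ℝ :=
  limUnder atTop (fun n : ℕ => (q (g ^ n) : ℝ) / n)

section hm

omit [DecidableEq α]

variable {q : FreeGroup α → ℕ} {C : ℕ}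

lemma QS.lin (H : QS q C) (g : FreeGroup α) : Lin (fun n => q (g ^ n)) (hm q g) := by
  have hs : Subadditive (fun n => (q (g ^ n) : ℝ) + C) := by
    intro m n
    have := H (g ^ m) (g ^ n)
    rw [← pow_add] at this
    have : (q (g ^ (m + n)) : ℝ) ≤ q (g ^ m) + q (g ^ n) + C := by exact_mod_cast this
    linarith
  have h1 : Lin _ _ := hs.tendsto_lim ⟨0, by rintro _ ⟨n, rfl⟩; positivity⟩
  have h2 := h1.add (Lin.const (-C))
  simp only [add_neg_cancel_right] at h2
  exact tendsto_nhds_limUnder ⟨_, h2⟩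

lemma QS.hm_nonneg (H : QS q C) (g : FreeGroup α) : 0 ≤ hm q g :=
  (Lin.const 0).le (H.lin g) 0 (fun n => by positivity)

lemma QS.hm_conj_le (H : QS q C) (u g : FreeGroup α) : hm q (u * g * u⁻¹) ≤ hm q g := by
  refine (H.lin _).le (H.lin g) (q u + q u⁻¹ + 2 * C) fun n => ?_
  rw [conj_pow]
  have h1 := H (u * g ^ n) u⁻¹
  have h2 := H u (g ^ n)
  have : q (u * g ^ n * u⁻¹) ≤ q (g ^ n) + (q u + q u⁻¹ + 2 * C) := by omega
  exact_mod_cast this

lemma QS.hm_conj (H : QS q C) (u g : FreeGroup α) : hm q (u * g * u⁻¹) = hm q g := by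
  refine le_antisymm (H.hm_conj_le u g) ?_
  have := H.hm_conj_le u⁻¹ (u * g * u⁻¹)
  simpa [mul_assoc] using this

lemma QS.exists_pos (H : QS q C) {g : FreeGroup α} (h : 0 < hm q g) : ∃ n, 0 < q (g ^ n) := by
  by_contra hcon
  push Not at hcon
  have := (H.lin g).le (Lin.const 0) 0 (fun n => by simpa using hcon n)
  linarith

lemma QS.hm_eq_zero (H : QS q C) {g : FreeGroup α} (h : ∀ n, q (g ^ n) = 0) : hm q g = 0 :=
  le_antisymm ((H.lin g).le (Lin.const 0) 0 (fun n => by simp [h n])) (H.hm_nonneg g)

end hm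

/-- cyclic length -/
noncomputable def hl (g : FreeGroup α) : ℝ := hm FreeGroup.norm g

lemma lin_hl (g : FreeGroup α) : Lin (fun n => (g ^ n).norm) (hl g) := qs_norm.lin g

lemma hl_conj (u g : FreeGroup α) : hl (u * g * u⁻¹) = hl g := qs_norm.hm_conj u g

lemma hl_cyc {w : List (Lt α)} (h : IsCyclicallyReduced w) : hl (mk w) = w.length := by
  refine tendsto_nhds_unique (lin_hl _) ?_
  have := Lin.lin (w.length : ℝ)
  simpa only [Lin, FreeGroup.norm, toWord_pow_cyc h, length_wp, Nat.cast_mul] using this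

lemma hl_pos {g : FreeGroup α} (hg : g ≠ 1) : 1 ≤ hl g := by
  obtain ⟨u, w, hw, rfl⟩ := exists_cyc g
  rw [hl_conj, hl_cyc hw]
  have : w ≠ [] := by
    rintro rfl
    simp [← one_eq_mk] at hg
  exact_mod_cast length_pos_iff.2 this

lemma hl_le_norm (g : FreeGroup α) : hl g ≤ g.norm := by
  refine (lin_hl g).le (Lin.lin _) 0 fun n => ?_
  have : (g ^ n).norm ≤ n * g.norm := by
    induction n with
    | zero => simp
    | succ n ih =>
      have := norm_mul_le (g ^ n) g
      rw [pow_succ, Nat.succ_mul]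
      omega
  rw [add_zero]
  exact_mod_cast this

lemma le_norm_pow {g : FreeGroup α} (hg : g ≠ 1) (n : ℕ) : n ≤ (g ^ n).norm := by
  have hw : reduceCyclically g.toWord ≠ [] := by
    intro h
    have h1 := reduceCyclically.conj_conjugator_reduceCyclically g.toWord
    rw [h] at h1
    apply hg
    rw [← mk_toWord (x := g), ← h1, append_nil, ← mul_mk, ← inv_mk, mul_inv_cancel]
  have h2 := length_pos_iff.2 hw
  rw [FreeGroup.norm, toWord_pow, reduceCyclically.reduce_flatten_replicate isReduced_toWord]
  split_ifs with h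
  · omega
  · simp only [length_append, length_flatten, map_replicate, sum_replicate, smul_eq_mul]
    nlinarith

end Pool.Agent.Lib.MP21ae20
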