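import Pool.Agent.Lib.MP_21ae20_al.B1

/-! Bounded cancellation and train track maps. -/

namespace Pool.Agent.Lib.MP21ae20

open FreeGroup List Filter Topology

variable {α : Type} [DecidableEq α]

lemma passing (σ : FreeGroup α →* FreeGroup α) {L : ℕ} (hL : ∀ x, (σ (mk [x])).norm ≤ L)
    (w t : List (Lt α)) (ht : t <+: (σ (mk w)).toWord) :
    ∃ p, p <+: w ∧ ((σ (mk p))⁻¹ * mk t).norm ≤ L := by
  induction w using List.reverseRecOn with
  | nil =>
    simp only [← one_eq_mk, _root_.map_one, toWord_one, prefix_nil] at ht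
    exact ⟨[], prefix_rfl, by simp [ht, ← one_eq_mk]⟩
  | append_singleton w x ih =>
    by_cases h : t <+: (σ (mk w)).toWord
    · obtain ⟨p, h1, h2⟩ := ih h
      exact ⟨p, h1.trans (prefix_append _ _), h2⟩
    · refine ⟨_, prefix_rfl, ?_⟩
      rw [← mul_mk, _root_.map_mul] at ht ⊢
      obtain ⟨a, c, b, h1, h2, h3⟩ := mul_decomp (σ (mk w)) (σ (mk [x]))
      rw [h3] at ht
      have h4 : a <+: t := by
        rcases prefix_or_prefix_of_prefix ht (prefix_append a b) with h5 | h5
        · exact absurd (h1 ▸ h5.trans (prefix_append _ _)) h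
        · exact h5
      obtain ⟨t', rfl⟩ := h4
      obtain ⟨b', rfl⟩ := (prefix_append_right_inj a).1 ht
      rw [← mk_toWord (x := σ (mk w) * σ (mk [x])), h3, ← append_assoc, ← mul_mk (L₂ := b'),
        mul_inv_rev, inv_mul_cancel_right, norm_inv_eq]
      have h5 := hL x
      rw [FreeGroup.norm, h2] at h5
      simp only [length_append] at h5
      exact norm_mk_le.trans (by omega)

/-- bounded cancellation -/
lemma bcc [Finite α] (σ : MulAut (FreeGroup α)) : ∃ C, ∀ u v, IsReduced (u ++ v) →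
    ∃ a c b, (σ (mk u)).toWord = a ++ c ∧ (σ (mk v)).toWord = invRev c ++ b ∧
      (σ (mk (u ++ v))).toWord = a ++ b ∧ c.length ≤ C := by
  obtain ⟨L, -, hL⟩ := exists_lip σ.toMonoidHom
  obtain ⟨L', -, hL'⟩ := exists_lip σ.symm.toMonoidHom
  have hL1 : ∀ x, (σ.toMonoidHom (mk [x])).norm ≤ L := fun x =>
    (hL _).trans (by rw [norm_red IsReduced.singleton]; simp)
  refine ⟨L * (L' * (L + L)) + L, fun u v huv => ?_⟩
  obtain ⟨a, c, b, h1, h2, h3⟩ := mul_decomp (σ (mk u)) (σ (mk v))
  refine ⟨a, c, b, h1, h2, by rw [← mul_mk, _root_.map_mul, h3], ?_⟩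
  obtain ⟨p, ⟨p', hp⟩, hp2⟩ := passing σ.toMonoidHom hL1 (invRev u) (invRev c) (by
    rw [← inv_mk, _root_.map_inv, toWord_inv]
    exact ⟨invRev a, by rw [← invRev_append, ← h1]; rfl⟩)
  obtain ⟨q, ⟨q', rfl⟩, hq2⟩ := passing σ.toMonoidHom hL1 v (invRev c) ⟨b, h2.symm⟩
  have hu : u = invRev p' ++ invRev p := by rw [← invRev_append, hp, invRev_invRev]
  have hred : IsReduced (invRev p ++ q) := by
    rw [hu, append_assoc] at huv
    have := red_right huv
    rw [← append_assoc] at this
    exact red_left this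
  have a1 := hL' (σ ((mk p)⁻¹ * mk q))
  simp only [MulEquiv.coe_toMonoidHom, MulEquiv.symm_apply_apply] at a1 hp2 hq2
  rw [inv_mk, mul_mk, norm_red hred, ← mul_mk, ← inv_mk] at a1
  have a2 := norm_mul_le ((σ (mk p))⁻¹ * mk (invRev c)) ((σ (mk q))⁻¹ * mk (invRev c))⁻¹
  have e : (σ (mk p))⁻¹ * mk (invRev c) * ((σ (mk q))⁻¹ * mk (invRev c))⁻¹ =
      σ ((mk p)⁻¹ * mk q) := by rw [_root_.map_mul, _root_.map_inv]; group
  rw [e, norm_inv_eq] at a2
  have a3 : q.length ≤ L' * (L + L) := by
    have := Nat.mul_le_mul_left L' (a2.trans (Nat.add_le_add hp2 hq2))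
    simp only [length_append] at a1
    omega
  have a4 := hL (mk q)
  have a5 := norm_mul_le (σ (mk q)) ((σ (mk q))⁻¹ * mk (invRev c))
  have hc : IsReduced (invRev c) := red_left (h2 ▸ isReduced_toWord)
  rw [mul_inv_cancel_left, norm_red hc, invRev_length] at a5
  have a6 := Nat.mul_le_mul_left L (norm_mk_le.trans a3)
  simp only [MulEquiv.coe_toMonoidHom] at a4
  omega

/-! ### illegal turns and occurrences -/

omit [DecidableEq α] in
def illp (leg : Lt α → Lt α → Prop) (u : List (Lt α)) : Prop :=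
  ∃ a b r, u = a :: b :: r ∧ ¬ leg a b

omit [DecidableEq α] in
lemma illp_loc (leg : Lt α → Lt α → Prop) : Loc (illp leg) 1 where
  mono := by
    rintro _ v ⟨a, b, r, rfl, h⟩
    exact ⟨a, b, r ++ v, rfl, h⟩
  loc := by
    rintro u v ⟨a, b, r, h1, h⟩ hu
    match u, hu with
    | x :: y :: u, _ =>
      simp only [cons_append, cons.injEq] at h1
      exact ⟨x, y, u, rfl, h1.1 ▸ h1.2.1 ▸ h⟩

omit [DecidableEq α] in
lemma illp_cons_cons {leg : Lt α → Lt α → Prop} {a b : Lt α} {r : List (Lt α)} :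
    illp leg (a :: b :: r) ↔ ¬ leg a b := by
  constructor
  · rintro ⟨a', b', r', h1, h⟩
    simp only [cons.injEq] at h1
    exact h1.1 ▸ h1.2.1 ▸ h
  · exact fun h => ⟨a, b, r, rfl, h⟩

omit [DecidableEq α] in
lemma lc_ill_zero {leg : Lt α → Lt α → Prop} {w : List (Lt α)} :
    lc (illp leg) w = 0 ↔ w.IsChain leg := by
  induction w with
  | nil => simp [lc]
  | cons x w ih =>
    rcases w with _ | ⟨y, w⟩
    · simp [lc, illp]
    · rw [lc, isChain_cons_cons, ← ih, illp_cons_cons]
      split_ifs with h <;> simp [h]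

omit [DecidableEq α] in
lemma ill_split {leg : Lt α → Lt α → Prop} {w : List (Lt α)} {m : ℕ}
    (h : lc (illp leg) w = m + 1) : ∃ u a b v, w = (u ++ [a]) ++ b :: v ∧ (u ++ [a]).IsChain leg ∧
      ¬ leg a b ∧ lc (illp leg) (b :: v) = m := by
  induction w with
  | nil => simp [lc] at h
  | cons x w ih =>
    rcases w with _ | ⟨y, w⟩
    · simp [lc, illp] at h
    · rw [lc, illp_cons_cons] at h
      by_cases hl : leg x y
      · simp only [hl, not_true, if_false, add_zero] at h
        obtain ⟨u, a, b, v, h1, h2, h3, h4⟩ := ih h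
        refine ⟨x :: u, a, b, v, by rw [h1]; rfl, ?_, h3, h4⟩
        refine IsChain.cons h2 fun z hz => ?_
        have : z = y := by
          have h5 := congrArg head? h1
          have hz' : (u ++ [a]).head? = some z := hz
          rw [head?_append, hz'] at h5
          simpa using h5.symm
        exact this ▸ hl
      · simp only [hl, not_false_eq_true, if_true] at h
        exact ⟨[], x, y, w, rfl, by simp, hl, by omega⟩

noncomputable def ill (leg : Lt α → Lt α → Prop) (g : FreeGroup α) : ℕ := lc (illp leg) g.toWord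

lemma qs_ill (leg : Lt α → Lt α → Prop) : QS (ill leg) 1 := (illp_loc leg).qs

omit [DecidableEq α] in
def ocp (l u : List (Lt α)) : Prop := l <+: u ∨ invRev l <+: u

omit [DecidableEq α] in
lemma ocp_loc (l : List (Lt α)) : Loc (ocp l) l.length where
  mono := by
    rintro u v (h | h)
    · exact Or.inl (h.trans (prefix_append _ _))
    · exact Or.inr (h.trans (prefix_append _ _))
  loc := by
    rintro u v (h | h) hu
    · exact Or.inl (prefix_of_prefix_length_le h (prefix_append _ _) hu.le)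
    · exact Or.inr (prefix_of_prefix_length_le h (prefix_append _ _) (by simpa using hu.le))

noncomputable def oc (l : List (Lt α)) (g : FreeGroup α) : ℕ := lc (ocp l) g.toWord

lemma qs_oc (l : List (Lt α)) : QS (oc l) l.length := (ocp_loc l).qs

omit [DecidableEq α] in
/-- `l` or its inverse occurs in `w` -/
def Occ (l w : List (Lt α)) : Prop := l <:+: w ∨ invRev l <:+: w

omit [DecidableEq α] in
lemma Occ.trans {l w w' : List (Lt α)} (h : Occ l w) (h' : w <:+: w') : Occ l w' :=
  h.imp (fun h => h.trans h') (fun h => h.trans h')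

omit [DecidableEq α] in
lemma lc_oc_pos {l w : List (Lt α)} (hl : l ≠ []) : 0 < lc (ocp l) w ↔ Occ l w := by
  rw [lc_pos_iff]
  constructor
  · rintro ⟨s, x, t, rfl, ⟨r, h⟩ | ⟨r, h⟩⟩
    · exact Or.inl ⟨s, r, by rw [append_assoc, h]⟩
    · exact Or.inr ⟨s, r, by rw [append_assoc, h]⟩
  · rintro (⟨s, r, rfl⟩ | ⟨s, r, rfl⟩)
    · obtain ⟨x, t, rfl⟩ := exists_cons_of_ne_nil hl
      exact ⟨s, x, t ++ r, by simp, Or.inl ⟨r, rfl⟩⟩
    · obtain ⟨x, t, h⟩ := exists_cons_of_ne_nil (mt invRev_eq_nil.1 hl)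
      exact ⟨s, x, t ++ r, by simp [h], Or.inr ⟨r, by simp [h]⟩⟩

/-! ### train track maps -/

omit [DecidableEq α] in
def Red (leg : Lt α → Lt α → Prop) : Prop := ∀ a b, leg a b → b ≠ li a

omit [DecidableEq α] in
lemma Red.red {leg : Lt α → Lt α → Prop} (H : Red leg) {w : List (Lt α)} (h : w.IsChain leg) :
    IsReduced w := isReduced_iff.2 (h.imp H)

def im (σ : MulAut (FreeGroup α)) (z : Lt α) : List (Lt α) := (σ (mk [z])).toWord

lemma mk_flatMap_im (σ : MulAut (FreeGroup α)) (w : List (Lt α)) :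
    mk (w.flatMap (im σ)) = σ (mk w) := by
  induction w with
  | nil => simp [← one_eq_mk]
  | cons x w ih => rw [flatMap_cons, ← mul_mk, ih, mk_cons x w, _root_.map_mul, im, mk_toWord]

lemma im_li (σ : MulAut (FreeGroup α)) (z : Lt α) : im σ (li z) = invRev (im σ z) := by
  rw [im, im, mk_li, _root_.map_inv, toWord_inv]

lemma im_ne_nil (σ : MulAut (FreeGroup α)) (z : Lt α) : im σ z ≠ [] := by
  rw [im, Ne, toWord_eq_nil_iff, MulEquiv.map_eq_one_iff, ← toWord_eq_nil_iff,
    toWord_red IsReduced.singleton]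
  simp

def TT (leg leg' : Lt α → Lt α → Prop) (σ : MulAut (FreeGroup α)) : Prop :=
  ∀ w : List (Lt α), w.IsChain leg → (w.flatMap (im σ)).IsChain leg'

section TT

variable {leg leg' leg'' : Lt α → Lt α → Prop} {σ τ : MulAut (FreeGroup α)}

lemma TT.toWord (H : TT leg leg' σ) (hr : Red leg') {w : List (Lt α)} (hw : w.IsChain leg) :
    (σ (mk w)).toWord = w.flatMap (im σ) := by
  rw [← mk_flatMap_im, toWord_red (hr.red (H w hw))]

lemma TT.chain_im (H : TT leg leg' σ) (z : Lt α) : (im σ z).IsChain leg' := by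
  simpa using H [z] (by simp)

lemma TT.im_mul (H : TT leg leg' σ) (H' : TT leg' leg'' τ) (hr : Red leg'') (z : Lt α) :
    im (τ * σ) z = (im σ z).flatMap (im τ) := by
  rw [← H'.toWord hr (H.chain_im z), im, im, mk_toWord]
  rfl

lemma TT.mul (H : TT leg leg' σ) (H' : TT leg' leg'' τ) (hr : Red leg'') :
    TT leg leg'' (τ * σ) := by
  intro w hw
  have := H' _ (H w hw)
  rw [flatMap_assoc] at this
  simpa only [← H.im_mul H' hr] using this

lemma im_one (z : Lt α) : im 1 z = [z] := toWord_red IsReduced.singleton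

lemma TT.one : TT leg leg (1 : MulAut (FreeGroup α)) := by
  intro w hw
  have : im (1 : MulAut (FreeGroup α)) = fun z => [z] := funext im_one
  rw [this]
  simpa using hw

lemma TT.pow (H : TT leg leg σ) (hr : Red leg) (n : ℕ) : TT leg leg (σ ^ n) := by
  induction n with
  | zero => exact TT.one
  | succ n ih => rw [pow_succ]; exact H.mul ih hr

lemma TT.ill_zero (H : TT leg leg' σ) (hr : Red leg') {w : List (Lt α)} (hw : w.IsChain leg) :
    ill leg' (σ (mk w)) = 0 := by
  rw [ill, H.toWord hr hw, lc_ill_zero]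
  exact H w hw

lemma TT.ill_le (H : TT leg leg' σ) (hr : Red leg') (g : FreeGroup α) :
    ill leg' (σ g) ≤ ill leg g := by
  have : ∀ m w, lc (illp leg) w = m → ill leg' (σ (mk w)) ≤ m := by
    intro m
    induction m with
    | zero => intro w hw; exact (H.ill_zero hr (lc_ill_zero.1 hw)).le
    | succ m ih =>
      intro w hw
      obtain ⟨u, a, b, v, rfl, h2, -, h4⟩ := ill_split hw
      have h5 := qs_ill leg' (σ (mk (u ++ [a]))) (σ (mk (b :: v)))
      rw [← _root_.map_mul, mul_mk, H.ill_zero hr h2] at h5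
      have := ih _ h4
      omega
  have h := this _ g.toWord rfl
  rwa [mk_toWord] at h

/-- every reduced word with exactly one illegal turn has a legal image -/
def Prev (leg leg' : Lt α → Lt α → Prop) (σ : MulAut (FreeGroup α)) : Prop :=
  ∀ u a b v, (u ++ [a]).IsChain leg → (b :: v).IsChain leg → ¬ leg a b → b ≠ li a →
    ill leg' (σ (mk (u ++ [a] ++ b :: v))) = 0

lemma TT.ill_half (H : TT leg leg' σ) (hr : Red leg') (hp : Prev leg leg' σ) (g : FreeGroup α) :
    2 * ill leg' (σ g) ≤ ill leg g := by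
  have hne : ∀ (u : List (Lt α)) a b v, IsReduced (u ++ [a] ++ b :: v) → b ≠ li a := by
    intro u a b v h
    rw [isReduced_iff, append_assoc] at h
    exact (isChain_cons_cons.1 (IsChain.right_of_append h)).1
  have : ∀ m w, IsReduced w → lc (illp leg) w = m → 2 * ill leg' (σ (mk w)) ≤ m := by
    intro m
    induction m using Nat.strong_induction_on with
    | _ m ih =>
      intro w hw h
      rcases m with _ | m
      · rw [H.ill_zero hr (lc_ill_zero.1 h)]
      obtain ⟨u, a, b, v, rfl, h2, h3, h4⟩ := ill_split h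
      rcases m with _ | m
      · rw [hp u a b v h2 (lc_ill_zero.1 h4) h3 (hne _ _ _ _ hw)]; omega
      obtain ⟨u', a', b', v', h1', h2', h3', h4'⟩ := ill_split h4
      obtain ⟨v₀, hv₀⟩ : ∃ v₀, u' ++ [a'] = b :: v₀ := by
        rcases u' with _ | ⟨x, u'⟩
        · exact ⟨[], by simp only [nil_append, cons_append, cons.injEq] at h1'; simp [h1'.1]⟩
        · exact ⟨u' ++ [a'], by simp only [cons_append, cons.injEq] at h1'; simp [h1'.1]⟩
      have h5 := qs_ill leg' (σ (mk (u ++ [a] ++ b :: v₀))) (σ (mk (b' :: v')))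
      rw [hp u a b v₀ h2 (hv₀ ▸ h2') h3 (hne _ _ _ _ hw), ← _root_.map_mul, mul_mk, ← hv₀,
        append_assoc, ← h1'] at h5
      have := ih m (by omega) (b' :: v') (by
        rw [h1'] at hw
        exact red_right (red_right hw)) h4'
      omega
  have h := this _ g.toWord isReduced_toWord rfl
  rwa [mk_toWord] at h

lemma TT.bounds [Finite α] (H : TT leg leg' σ) (hr : Red leg') {l : List (Lt α)} (hl : l ≠ [])
    (h3 : ∀ z, 3 ≤ (im σ z).length) (hoc : ∀ z, Occ l (im σ z)) : ∃ C : ℕ, ∀ g : FreeGroup α,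
    3 * g.norm ≤ (σ g).norm + C * ill leg g ∧ g.norm ≤ oc l (σ g) + C * ill leg g := by
  obtain ⟨C, hC⟩ := bcc σ
  refine ⟨2 * (C + l.length), fun g => ?_⟩
  have base : ∀ w : List (Lt α), w.IsChain leg → 3 * w.length ≤ (σ (mk w)).norm ∧
      w.length ≤ oc l (σ (mk w)) := by
    intro w hw
    rw [FreeGroup.norm, oc, H.toWord hr hw]
    clear hw
    induction w with
    | nil => simp
    | cons x w ih =>
      have a1 := h3 x
      have a2 := (lc_oc_pos hl).2 (hoc x)
      have a3 := (ocp_loc l).ge (im σ x) (w.flatMap (im σ))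
      simp only [flatMap_cons, length_append, length_cons]
      omega
  have : ∀ m w, IsReduced w → lc (illp leg) w = m →
      3 * w.length ≤ (σ (mk w)).norm + 2 * (C + l.length) * m ∧
      w.length ≤ oc l (σ (mk w)) + 2 * (C + l.length) * m := by
    intro m
    induction m with
    | zero => intro w _ hw; exact base w (lc_ill_zero.1 hw)
    | succ m ih =>
      intro w hw h
      obtain ⟨u, a, b, v, rfl, h2, -, h4⟩ := ill_split h
      obtain ⟨a', c, b', e1, e2, e3, e4⟩ := hC _ _ hw
      have i1 := ih _ (red_right hw) h4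
      have i2 := base _ h2
      simp only [FreeGroup.norm, oc, e1, e2, e3] at i1 i2 ⊢
      have c1 := (ocp_loc l).ge a' b'
      have c2 := (ocp_loc l).le a' c
      have c3 := (ocp_loc l).le (invRev c) b'
      have c4 := lc_le_length (ocp l) c
      have c5 := lc_le_length (ocp l) (invRev c)
      simp only [length_append, invRev_length, Nat.mul_succ] at i1 i2 c5 ⊢
      omega
  have h := this _ g.toWord isReduced_toWord rfl
  rwa [mk_toWord] at h

end TT

/-! ### homogenised versions -/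

noncomputable def hi (leg : Lt α → Lt α → Prop) (g : FreeGroup α) : ℝ := hm (ill leg) g

noncomputable def ho (l : List (Lt α)) (g : FreeGroup α) : ℝ := hm (oc l) g

lemma lin_hi (leg : Lt α → Lt α → Prop) (g : FreeGroup α) :
    Lin (fun n => ill leg (g ^ n)) (hi leg g) := (qs_ill leg).lin g

lemma lin_ho (l : List (Lt α)) (g : FreeGroup α) :
    Lin (fun n => oc l (g ^ n)) (ho l g) := (qs_oc l).lin g

lemma hi_le_hl (leg : Lt α → Lt α → Prop) (g : FreeGroup α) : hi leg g ≤ hl g :=
  (lin_hi leg g).le (lin_hl g) 0 fun n => by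
    rw [add_zero]; exact_mod_cast lc_le_length _ _

lemma hi_nonneg (leg : Lt α → Lt α → Prop) (g : FreeGroup α) : 0 ≤ hi leg g :=
  (qs_ill leg).hm_nonneg g

lemma exists_hl_lip [Finite α] (σ : MulAut (FreeGroup α)) :
    ∃ L : ℕ, 0 < L ∧ ∀ g, hl (σ g) ≤ L * hl g := by
  obtain ⟨L, h0, hL⟩ := exists_lip σ.toMonoidHom
  refine ⟨L, h0, fun g => (lin_hl _).le ((lin_hl g).const_mul L) 0 fun n => ?_⟩
  rw [add_zero, ← _root_.map_pow]
  exact_mod_cast hL (g ^ n)

section TT

variable {leg leg' : Lt α → Lt α → Prop} {σ : MulAut (FreeGroup α)}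

lemma TT.hi_le (H : TT leg leg' σ) (hr : Red leg') (g : FreeGroup α) :
    hi leg' (σ g) ≤ hi leg g :=
  (lin_hi _ _).le (lin_hi leg g) 0 fun n => by
    rw [add_zero, ← _root_.map_pow]
    exact_mod_cast H.ill_le hr (g ^ n)

lemma TT.hi_half (H : TT leg leg' σ) (hr : Red leg') (hp : Prev leg leg' σ) (g : FreeGroup α) :
    2 * hi leg' (σ g) ≤ hi leg g :=
  ((lin_hi _ _).const_mul 2).le (lin_hi leg g) 0 fun n => by
    rw [add_zero, ← _root_.map_pow]
    exact_mod_cast H.ill_half hr hp (g ^ n)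

lemma TT.hbounds [Finite α] (H : TT leg leg' σ) (hr : Red leg') {l : List (Lt α)} (hl' : l ≠ [])
    (h3 : ∀ z, 3 ≤ (im σ z).length) (hoc : ∀ z, Occ l (im σ z)) : ∃ C : ℕ, ∀ g : FreeGroup α,
    3 * hl g ≤ hl (σ g) + C * hi leg g ∧ hl g ≤ ho l (σ g) + C * hi leg g := by
  obtain ⟨C, hC⟩ := H.bounds hr hl' h3 hoc
  refine ⟨C, fun g => ⟨?_, ?_⟩⟩
  · refine ((lin_hl _).const_mul 3).le ((lin_hl _).add ((lin_hi leg g).const_mul C)) 0 fun n => ?_
    rw [add_zero, ← _root_.map_pow]
    exact_mod_cast (hC (g ^ n)).1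
  · refine (lin_hl _).le ((lin_ho _ _).add ((lin_hi leg g).const_mul C)) 0 fun n => ?_
    rw [add_zero, ← _root_.map_pow]
    exact_mod_cast (hC (g ^ n)).2

end TT

end Pool.Agent.Lib.MP21ae20
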