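import Pool.Agent.Lib.MP_21ae20_al.B2

/-! The Whitehead cut vertex lemma. -/

namespace Pool.Agent.Lib.MP21ae20

open FreeGroup List Filter Topology

variable {α : Type} [DecidableEq α]

/-- all letters of the reduced word have index in `I` -/
def InF (I : Set α) (g : FreeGroup α) : Prop := ∀ x ∈ g.toWord, x.1 ∈ I

lemma InF.one (I : Set α) : InF I 1 := by simp [InF]

lemma InF.mul {I : Set α} {g h : FreeGroup α} (hg : InF I g) (hh : InF I h) : InF I (g * h) := by
  intro x hx
  rcases mem_append.1 ((toWord_mul_sublist g h).subset hx) with h1 | h1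
  · exact hg x h1
  · exact hh x h1

lemma InF.inv {I : Set α} {g : FreeGroup α} (hg : InF I g) : InF I g⁻¹ := by
  intro x hx
  rw [toWord_inv, mem_invRev] at hx
  exact hg (li x) hx

lemma InF.letter {I : Set α} {x : Lt α} (hx : x.1 ∈ I) : InF I (mk [x]) := by
  intro y hy
  rw [toWord_red IsReduced.singleton, mem_singleton] at hy
  exact hy ▸ hx

lemma InF.of {I : Set α} {i : α} (hx : i ∈ I) : InF I (of i) := InF.letter (x := (i, true)) hx

/-- the standard free factor on `I` -/
def stdF (I : Set α) : Subgroup (FreeGroup α) where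
  carrier := {g | InF I g}
  one_mem' := InF.one I
  mul_mem' := InF.mul
  inv_mem' := InF.inv

lemma InF.zpow {I : Set α} {g : FreeGroup α} (hg : InF I g) (n : ℤ) : InF I (g ^ n) :=
  (stdF I).zpow_mem hg n

/-- conjugate into the factor `ρ (F_I)` -/
def Cin (ρ : MulAut (FreeGroup α)) (I : Set α) (g : FreeGroup α) : Prop :=
  ∃ u a, InF I a ∧ g = u * ρ a * u⁻¹

lemma Cin.conj {ρ : MulAut (FreeGroup α)} {I : Set α} {g : FreeGroup α} (h : Cin ρ I g)
    (u : FreeGroup α) : Cin ρ I (u * g * u⁻¹) := by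
  obtain ⟨v, a, ha, rfl⟩ := h
  exact ⟨u * v, a, ha, by group⟩

lemma Cin.zpow {ρ : MulAut (FreeGroup α)} {I : Set α} {g : FreeGroup α} (h : Cin ρ I g)
    (n : ℤ) : Cin ρ I (g ^ n) := by
  obtain ⟨v, a, ha, rfl⟩ := h
  exact ⟨v, a ^ n, ha.zpow n, by rw [conj_zpow, map_zpow]⟩

lemma Cin.map {ρ : MulAut (FreeGroup α)} {I : Set α} {g : FreeGroup α} (h : Cin ρ I g)
    (σ : MulAut (FreeGroup α)) : Cin (σ * ρ) I (σ g) := by
  obtain ⟨v, a, ha, rfl⟩ := h
  exact ⟨σ v, a, ha, by simp⟩

/-- conjugate into one of the two sides of a splitting -/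
def Sd (ρ : MulAut (FreeGroup α)) (I : Set α) (g : FreeGroup α) : Prop := Cin ρ I g ∨ Cin ρ Iᶜ g

/-- jointly separable -/
def JS (g h : FreeGroup α) : Prop :=
  ∃ ρ I, Set.Nonempty I ∧ Set.Nonempty Iᶜ ∧ Sd ρ I g ∧ Sd ρ I h

lemma JS.symm {g h : FreeGroup α} (H : JS g h) : JS h g := by
  obtain ⟨ρ, I, h1, h2, h3, h4⟩ := H
  exact ⟨ρ, I, h1, h2, h4, h3⟩

lemma JS.self {g h : FreeGroup α} (H : JS g h) : JS g g := by
  obtain ⟨ρ, I, h1, h2, h3, -⟩ := H
  exact ⟨ρ, I, h1, h2, h3, h3⟩

lemma JS.map {g h : FreeGroup α} (H : JS g h) (σ : MulAut (FreeGroup α)) : JS (σ g) (σ h) := by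
  obtain ⟨ρ, I, h1, h2, h3, h4⟩ := H
  exact ⟨σ * ρ, I, h1, h2, h3.imp (·.map σ) (·.map σ), h4.imp (·.map σ) (·.map σ)⟩

lemma JS.conj {g h : FreeGroup α} (H : JS g h) (u : FreeGroup α) : JS (u * g * u⁻¹) h := by
  obtain ⟨ρ, I, h1, h2, h3, h4⟩ := H
  exact ⟨ρ, I, h1, h2, h3.imp (·.conj u) (·.conj u), h4⟩

lemma JS.zpow {g h : FreeGroup α} (H : JS g h) (n : ℤ) : JS (g ^ n) h := by
  obtain ⟨ρ, I, h1, h2, h3, h4⟩ := H
  exact ⟨ρ, I, h1, h2, h3.imp (·.zpow n) (·.zpow n), h4⟩

/-- an axis of a conjugate of a power of `g` crosses the turn `{x, y}` -/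
def Cross (g : FreeGroup α) (x y : Lt α) : Prop :=
  ∃ w, IsCyclicallyReduced w ∧ w.head? = some y ∧ (invRev w).head? = some x ∧
    ∃ (u : FreeGroup α) (m : ℤ), mk w = u * g ^ m * u⁻¹

lemma Cross.symm {g : FreeGroup α} {x y : Lt α} (H : Cross g x y) : Cross g y x := by
  obtain ⟨w, h1, h2, h3, u, m, h4⟩ := H
  exact ⟨invRev w, cyc_invRev h1, h3, by rwa [invRev_invRev], u, -m, by
    rw [← inv_mk, h4]; group⟩

omit [DecidableEq α] in
lemma cross_of_sub {u : FreeGroup α} {w : List (Lt α)} (hw : IsCyclicallyReduced w) {n : ℕ}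
    {p q : Lt α} (h : [p, q] <:+: wp w n) : Cross (u * mk w * u⁻¹) (li p) q := by
  obtain ⟨s, t, h⟩ := h
  refine ⟨q :: (t ++ s ++ [p]), ?_, rfl, ?_, (mk (s ++ [p]))⁻¹ * u⁻¹, n, ?_⟩
  · rw [cyc_iff]
    have h1 := (hw.flatten_replicate (n + n + n)).isReduced
    change IsReduced (wp w (n + n + n)) at h1
    rw [wp_add, wp_add, ← h] at h1
    have e : s ++ [p, q] ++ t ++ (s ++ [p, q] ++ t) ++ (s ++ [p, q] ++ t) =
      (s ++ [p]) ++ ((q :: (t ++ s ++ [p]) ++ q :: (t ++ s ++ [p])) ++ q :: t) := by simp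
    rw [e] at h1
    exact red_left (red_right h1)
  · rw [← cons_append, invRev_concat]; rfl
  · have e : (mk w) ^ n = mk (s ++ [p]) * mk (q :: t) := by
      rw [pow_mk, mul_mk]
      change mk (wp w n) = _
      rw [← h]; simp
    rw [conj_zpow, zpow_natCast, e, append_assoc, ← cons_append, ← mul_mk]
    group

lemma cross_of_ho {l : List (Lt α)} {g : FreeGroup α} (h : 0 < ho l g) {p q : Lt α}
    (hpq : [p, q] <:+: l) : Cross g (li p) q := by
  obtain ⟨u, w, hw, rfl⟩ := exists_cyc g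
  rw [ho, (qs_oc l).hm_conj] at h
  obtain ⟨n, hn⟩ := (qs_oc l).exists_pos h
  have hl : l ≠ [] := by
    rintro rfl
    simp at hpq
  rw [oc, toWord_pow_cyc hw, lc_oc_pos hl] at hn
  rcases hn with hn | hn
  · exact cross_of_sub hw (hpq.trans hn)
  · have : [li q, li p] <:+: invRev l := by
      obtain ⟨s, t, rfl⟩ := hpq
      exact ⟨invRev t, invRev s, by simp [invRev, li]⟩
    simpa using (cross_of_sub (u := u) hw (this.trans hn)).symm

lemma head_mul {g h : FreeGroup α} (hn : h.norm < g.norm) :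
    (g * h).toWord.head? = g.toWord.head? := by
  obtain ⟨a, c, b, h1, h2, h3⟩ := mul_decomp g h
  simp only [FreeGroup.norm, h1, h2, length_append, invRev_length] at hn
  obtain ⟨x, a, rfl⟩ := exists_cons_of_ne_nil (show a ≠ [] by rintro rfl; simp at hn)
  rw [h1, h3]; rfl

lemma head_side (J : Set α) (u : List (Lt α)) (hu : IsReduced u) :
    (∀ a g, InF J a → g.norm + u.length < a.norm →
      ∃ x, (mk u * a * g).toWord.head? = some x ∧ x.1 ∈ J) ∨
    ∃ y, ∀ a g, InF J a → g.norm + u.length < a.norm → (mk u * a * g).toWord.head? = some y := by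
  have base : ∀ a g : FreeGroup α, InF J a → g.norm < a.norm →
      ∃ x, (a * g).toWord.head? = some x ∧ x.1 ∈ J := by
    intro a g ha hn
    rw [head_mul hn]
    obtain ⟨x, t, h⟩ := exists_cons_of_ne_nil (show a.toWord ≠ [] by
      intro h; rw [FreeGroup.norm, FreeGroup.norm, h] at hn; simp at hn)
    exact ⟨x, by rw [h]; rfl, ha x (by rw [h]; simp)⟩
  induction u using List.reverseRecOn with
  | nil => exact Or.inl fun a g ha hn => by simpa [← one_eq_mk] using base a g ha (by simpa using hn)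
  | append_singleton u y ih =>
    by_cases hy : y.1 ∈ J
    · have key : ∀ a g : FreeGroup α, g.norm + (u ++ [y]).length < a.norm →
          g.norm + u.length < (mk [y] * a).norm := by
        intro a g hn
        have h1 := norm_mul_le (mk [y])⁻¹ (mk [y] * a)
        rw [inv_mul_cancel_left, norm_inv_eq, norm_red IsReduced.singleton] at h1
        simp only [length_append, length_cons, length_nil] at hn h1
        omega
      rcases ih (red_left hu) with h | ⟨z, h⟩
      · refine Or.inl fun a g ha hn => ?_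
        rw [← mul_mk, mul_assoc (mk u)]
        exact h _ g ((InF.letter hy).mul ha) (key a g hn)
      · refine Or.inr ⟨z, fun a g ha hn => ?_⟩
        rw [← mul_mk, mul_assoc (mk u)]
        exact h _ g ((InF.letter hy).mul ha) (key a g hn)
    · obtain ⟨z, t, hz⟩ := exists_cons_of_ne_nil (show u ++ [y] ≠ [] by simp)
      refine Or.inr ⟨z, fun a g ha hn => ?_⟩
      obtain ⟨x, h1, h2⟩ := base a g ha (by omega)
      have hred : IsReduced (u ++ [y] ++ (a * g).toWord) := by
        refine IsChain.append hu isReduced_toWord fun p hp q hq => ?_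
        simp only [getLast?_concat, Option.mem_def, Option.some.injEq] at hp
        rw [h1, Option.mem_def, Option.some.injEq] at hq
        subst hp hq
        exact fun h => absurd (h ▸ h2) hy
      rw [mul_assoc, ← mk_toWord (x := a * g), mul_mk, toWord_red hred, hz]
      rfl

section

variable (ρ : MulAut (FreeGroup α)) (I : Set α)

/-- the first letter in the adapted basis lies in `I` -/
def chi (g : FreeGroup α) : Prop := ∃ x, (ρ⁻¹ g).toWord.head? = some x ∧ x.1 ∈ I

lemma chi_step [Finite α] : ∃ R, ∀ g x, R ≤ g.norm → (chi ρ I (g * mk [x]) ↔ chi ρ I g) := by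
  obtain ⟨L, -, hL⟩ := exists_lip ρ.toMonoidHom
  obtain ⟨L', -, hL'⟩ := exists_lip (ρ⁻¹).toMonoidHom
  refine ⟨L * L' + 1, fun g x hg => ?_⟩
  have h1 := hL' (mk [x])
  have h2 := hL (ρ⁻¹ g)
  simp only [MulEquiv.coe_toMonoidHom, MulAut.apply_inv_self, norm_red IsReduced.singleton,
    length_cons, length_nil] at h1 h2
  have h3 : L' < (ρ⁻¹ g).norm := by
    by_contra h
    have := Nat.mul_le_mul_left L (not_lt.1 h)
    omega
  rw [chi, chi, _root_.map_mul, head_mul (by omega)]

lemma chi_side {c : FreeGroup α} (hc : Sd ρ I c) (h1 : c ≠ 1) (g : FreeGroup α) :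
    ∃ n₀, ∀ n ≥ n₀, (chi ρ I (c ^ n * g) ↔ chi ρ I (c⁻¹ ^ n * g)) := by
  have gen : ∀ J, Cin ρ J c → ∃ n₀, ∀ n ≥ n₀,
      ((∃ x, (ρ⁻¹ (c ^ n * g)).toWord.head? = some x ∧ x.1 ∈ J) ∧
      (∃ x, (ρ⁻¹ (c⁻¹ ^ n * g)).toWord.head? = some x ∧ x.1 ∈ J)) ∨
      (ρ⁻¹ (c ^ n * g)).toWord.head? = (ρ⁻¹ (c⁻¹ ^ n * g)).toWord.head? := by
    rintro J ⟨u, a, ha, rfl⟩
    have ha1 : a ≠ 1 := by
      rintro rfl
      simp at h1
    refine ⟨(ρ⁻¹ (u⁻¹ * g)).norm + (ρ⁻¹ u).norm + 1, fun n hn => ?_⟩
    have e1 : ρ⁻¹ ((u * ρ a * u⁻¹) ^ n * g) = mk (ρ⁻¹ u).toWord * a ^ n * ρ⁻¹ (u⁻¹ * g) := by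
      rw [conj_pow, mk_toWord]; simp [mul_assoc]
    have e2 : ρ⁻¹ ((u * ρ a * u⁻¹)⁻¹ ^ n * g) = mk (ρ⁻¹ u).toWord * a⁻¹ ^ n * ρ⁻¹ (u⁻¹ * g) := by
      rw [conj_inv, conj_pow, mk_toWord]; simp [mul_assoc]
    have n1 := le_norm_pow ha1 n
    have n2 := le_norm_pow (inv_ne_one.2 ha1) n
    have i1 : InF J (a ^ n) := (stdF J).pow_mem ha n
    have i2 : InF J (a⁻¹ ^ n) := (stdF J).pow_mem ha.inv n
    rw [e1, e2]
    have hlen : (ρ⁻¹ u).toWord.length = (ρ⁻¹ u).norm := rfl
    rcases head_side J (ρ⁻¹ u).toWord isReduced_toWord with h | ⟨y, h⟩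
    · exact Or.inl ⟨h _ _ i1 (by omega), h _ _ i2 (by omega)⟩
    · exact Or.inr ((h _ _ i1 (by omega)).trans (h _ _ i2 (by omega)).symm)
  rcases hc with hc | hc
  · obtain ⟨n₀, h⟩ := gen _ hc
    refine ⟨n₀, fun n hn => ?_⟩
    rcases h n hn with h | h
    · exact iff_of_true h.1 h.2
    · rw [chi, chi, h]
  · obtain ⟨n₀, h⟩ := gen _ hc
    refine ⟨n₀, fun n hn => ?_⟩
    rcases h n hn with ⟨⟨x, a1, a2⟩, ⟨y, b1, b2⟩⟩ | h
    · refine iff_of_false ?_ ?_
      · rintro ⟨z, h1, h2⟩
        rw [a1, Option.some.injEq] at h1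
        exact a2 (h1 ▸ h2)
      · rintro ⟨z, h1, h2⟩
        rw [b1, Option.some.injEq] at h1
        exact b2 (h1 ▸ h2)
    · rw [chi, chi, h]

end

omit [DecidableEq α] in
/-- a graph on letters stays connected after removing any vertex -/
def TwoConn (E : Lt α → Lt α → Prop) : Prop :=
  ∀ (d : Lt α) (v : Lt α → Prop), (∀ x y, x ≠ d → y ≠ d → E x y → (v x ↔ v y)) →
    ∀ x y, x ≠ d → y ≠ d → (v x ↔ v y)

theorem whitehead [Finite α] (ρ : MulAut (FreeGroup α)) {I : Set α} (hI : I.Nonempty)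
    (hI' : Iᶜ.Nonempty) {E : Lt α → Lt α → Prop}
    (hE : ∀ x y, E x y → ∃ g, Sd ρ I g ∧ Cross g x y) : ¬ TwoConn E := by
  intro h2
  obtain ⟨i, hi⟩ := hI
  obtain ⟨j, hj⟩ := hI'
  have hij : i ≠ j := fun h => hj (h ▸ hi)
  obtain ⟨R, hR⟩ := chi_step ρ I
  have cone : ∀ w t, R ≤ w.length → IsReduced (w ++ t) →
      (chi ρ I (mk (w ++ t)) ↔ chi ρ I (mk w)) := by
    intro w t hw
    induction t using List.reverseRecOn with
    | nil => simp
    | append_singleton t x ih =>
      intro h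
      rw [← append_assoc] at h ⊢
      rw [← mul_mk, hR _ _ (by rw [norm_red (red_left h)]; simp; omega), ih (red_left h)]
  have main : ∀ k w, IsReduced w → R ≤ w.length + k →
      ∃ v : Prop, ∀ t, IsReduced (w ++ t) → R ≤ (w ++ t).length → (chi ρ I (mk (w ++ t)) ↔ v) := by
    intro k
    induction k with
    | zero => exact fun w _ hw => ⟨_, fun t ht _ => cone w t hw ht⟩
    | succ k ih =>
      intro w hw hk
      by_cases hk' : R ≤ w.length + k
      · exact ih w hw hk'
      have ex : ∀ x, ∃ v : Prop, IsReduced (w ++ [x]) → ∀ t, IsReduced (w ++ [x] ++ t) →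
          R ≤ (w ++ [x] ++ t).length → (chi ρ I (mk (w ++ [x] ++ t)) ↔ v) := by
        intro x
        by_cases hx : IsReduced (w ++ [x])
        · obtain ⟨v, hv⟩ := ih _ hx (by simp; omega)
          exact ⟨v, fun _ => hv⟩
        · exact ⟨True, fun h => absurd h hx⟩
      choose v hv using ex
      have ray : ∀ c y, IsCyclicallyReduced c → c.head? = some y → IsReduced (w ++ [y]) →
          ∀ n, R + 1 ≤ n → (chi ρ I (mk w * mk c ^ n) ↔ v y) := by
        intro c y hc hy hwy n hn
        obtain ⟨c', rfl⟩ := head?_eq_some_iff.1 hy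
        obtain ⟨n, rfl⟩ : ∃ m, n = m + 1 := ⟨n - 1, by omega⟩
        have e : w ++ wp (y :: c') (n + 1) = w ++ [y] ++ (c' ++ wp (y :: c') n) := by
          simp [wp_succ]
        have hr : IsReduced (w ++ [y] ++ (c' ++ wp (y :: c') n)) := by
          refine IsReduced.append_overlap hwy ?_ (by simp)
          exact (hc.flatten_replicate (n + 1)).isReduced
        rw [pow_mk, mul_mk]
        change chi ρ I (mk (w ++ wp (y :: c') (n + 1))) ↔ _
        rw [e]
        refine hv y hwy _ hr ?_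
        simp only [length_append, length_wp, length_cons]
        nlinarith [Nat.zero_le (n * c'.length)]
      have edge : ∀ x y, IsReduced (w ++ [x]) → IsReduced (w ++ [y]) → E x y → (v x ↔ v y) := by
        intro x y hx hy hxy
        obtain ⟨g, hg, c, hc, hcy, hcx, u, m, hm⟩ := hE x y hxy
        have hs : Sd ρ I (mk w * mk c * (mk w)⁻¹) := by
          rw [hm]
          exact hg.imp (fun h => ((h.zpow m).conj u).conj _) (fun h => ((h.zpow m).conj u).conj _)
        have hne : mk w * mk c * (mk w)⁻¹ ≠ 1 := by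
          rw [Ne, conj_eq_one_iff, ← toWord_eq_nil_iff, toWord_red hc.isReduced]
          rintro rfl
          simp at hcy
        obtain ⟨n₀, hn₀⟩ := chi_side ρ I hs hne (mk w)
        have := hn₀ (n₀ + (R + 1)) (by omega)
        rw [conj_inv, conj_pow, conj_pow, inv_mul_cancel_right, inv_mul_cancel_right, inv_mk,
          ray c y hc hcy hy _ (by omega), ray _ x (cyc_invRev hc) hcx hx _ (by omega)] at this
        exact this.symm
      have all : ∀ x y, IsReduced (w ++ [x]) → IsReduced (w ++ [y]) → (v x ↔ v y) := by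
        intro x y hx hy
        have : ∃ d, x ≠ d ∧ y ≠ d ∧ ∀ z, z ≠ d → IsReduced (w ++ [z]) := by
          rcases eq_nil_or_concat w with rfl | ⟨w', z, rfl⟩
          · have : ∃ d, x ≠ d ∧ y ≠ d := by
              by_contra hcon
              push Not at hcon
              have a1 := hcon (i, true)
              have a2 := hcon (i, false)
              have a3 := hcon (j, true)
              have b1 : (i, true) ≠ (j, true) := by simpa using hij
              have b2 : (i, false) ≠ (j, true) := by simp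
              have b3 : (i, true) ≠ (i, false) := by simp
              by_cases c1 : x = (i, true)
              · exact b2 ((a2 (c1 ▸ b3)).symm.trans (a3 (c1 ▸ b1)))
              · by_cases c2 : x = (i, false)
                · exact b1 ((a1 c1).symm.trans (a3 (c2 ▸ b2)))
                · exact b3 ((a1 c1).symm.trans (a2 c2))
            obtain ⟨d, h1, h2⟩ := this
            exact ⟨d, h1, h2, fun z _ => IsReduced.singleton⟩
          · have iff : ∀ p, IsReduced (w'.concat z ++ [p]) ↔ p ≠ li z := by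
              intro p
              rw [isReduced_iff] at hw ⊢
              rw [concat_eq_append] at hw ⊢
              rw [isChain_append]
              simp only [hw, getLast?_concat, isChain_singleton, Option.mem_def, Option.some.injEq,
                head?_cons, forall_eq', true_and]
            exact ⟨li z, (iff x).1 hx, (iff y).1 hy, fun p hp => (iff p).2 hp⟩
        obtain ⟨d, h1, h3, h4⟩ := this
        exact h2 d v (fun p q hp hq => edge p q (h4 p hp) (h4 q hq)) x y h1 h3
      refine ⟨∃ x, IsReduced (w ++ [x]) ∧ v x, fun t ht hlen => ?_⟩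
      obtain ⟨x, t, rfl⟩ := exists_cons_of_ne_nil (show t ≠ [] by rintro rfl; simp at hlen; omega)
      have e : w ++ x :: t = w ++ [x] ++ t := by simp
      rw [e] at ht hlen ⊢
      rw [hv x (red_left ht) t ht hlen]
      exact ⟨fun h => ⟨x, red_left ht, h⟩, fun ⟨y, hy, h⟩ => (all x y (red_left ht) hy).2 h⟩
  obtain ⟨v, hv⟩ := main R [] IsReduced.nil (by simp)
  have test : ∀ k, (k ∈ I ↔ v) := by
    intro k
    have hn := le_norm_pow (g := ρ (of k)) (by simp) (R + 1)
    have := hv (ρ (of k) ^ (R + 1)).toWord isReduced_toWord (by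
      rw [FreeGroup.norm] at hn; simp only [nil_append]; omega)
    rw [← this, nil_append, mk_toWord, chi, ← _root_.map_pow, MulAut.inv_apply_self, toWord_of_pow]
    simp [replicate_succ]
  exact hj ((test j).2 ((test i).1 hi))

end Pool.Agent.Lib.MP21ae20
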