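import Pool.Agent.Lib.MP_21ae20_al.B3
import Pool.Agent.Lib.MP_21ae20_al.Defs

/-! Transvections, the key length comparison, properness. -/

namespace Pool.Agent.Lib.MP21ae20

open FreeGroup List Filter Topology

variable {α : Type} [DecidableEq α]

/-! ### transvections -/

def tvh (i : α) (a b : FreeGroup α) : FreeGroup α →* FreeGroup α :=
  FreeGroup.lift (Function.update of i (a * of i * b))

lemma hom_fix {I : Set α} {σ : FreeGroup α →* FreeGroup α} (hσ : ∀ j ∈ I, σ (of j) = of j)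
    {g : FreeGroup α} (hg : InF I g) : σ g = g := by
  have : ∀ w : List (Lt α), (∀ x ∈ w, x.1 ∈ I) → σ (mk w) = mk w := by
    intro w hw
    induction w with
    | nil => simp [← one_eq_mk]
    | cons x w ih =>
      rw [mk_cons, _root_.map_mul, ih (fun y hy => hw y (mem_cons_of_mem _ hy))]
      congr 1
      have := hσ _ (hw x mem_cons_self)
      obtain ⟨j, _ | _⟩ := x
      · rw [mk_false, _root_.map_inv, this]
      · exact this
  simpa only [mk_toWord] using this _ hg

lemma tvh_self (i : α) (a b : FreeGroup α) : tvh i a b (of i) = a * of i * b := by simp [tvh]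

lemma tvh_fix {i : α} (a b : FreeGroup α) {g : FreeGroup α} (hg : InF {i}ᶜ g) :
    tvh i a b g = g :=
  hom_fix (fun j hj => by simp [tvh, Function.update_of_ne hj]) hg

lemma tvh_comp {i : α} {a b : FreeGroup α} (ha : InF {i}ᶜ a) (hb : InF {i}ᶜ b) :
    (tvh i a⁻¹ b⁻¹).comp (tvh i a b) = MonoidHom.id _ := by
  ext j
  by_cases h : j = i
  · subst h
    simp only [MonoidHom.comp_apply, tvh_self, _root_.map_mul, tvh_fix _ _ ha, tvh_fix _ _ hb,
      MonoidHom.id_apply]
    group
  · have : InF {i}ᶜ (of j) := InF.of h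
    simp only [MonoidHom.comp_apply, tvh_fix _ _ this, MonoidHom.id_apply]

/-- the automorphism `x_i ↦ a x_i b` -/
def tv (i : α) {a b : FreeGroup α} (ha : InF {i}ᶜ a) (hb : InF {i}ᶜ b) : MulAut (FreeGroup α) :=
  MonoidHom.toMulEquiv (tvh i a b) (tvh i a⁻¹ b⁻¹) (tvh_comp ha hb)
    (by simpa using tvh_comp ha.inv hb.inv)

lemma tv_self (i : α) {a b : FreeGroup α} (ha : InF {i}ᶜ a) (hb : InF {i}ᶜ b) :
    tv i ha hb (of i) = a * of i * b := tvh_self i a b

lemma tv_fix {i : α} {a b : FreeGroup α} (ha : InF {i}ᶜ a) (hb : InF {i}ᶜ b) {g : FreeGroup α}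
    (hg : InF {i}ᶜ g) : tv i ha hb g = g := tvh_fix a b hg

lemma tv_inv (i : α) {a b : FreeGroup α} (ha : InF {i}ᶜ a) (hb : InF {i}ᶜ b) :
    (tv i ha hb)⁻¹ = tv i ha.inv hb.inv := by
  ext g : 1
  rfl

lemma js_basis (ρ : MulAut (FreeGroup α)) {x₀ x₁ : α} (h : x₁ ≠ x₀) {g : FreeGroup α}
    (hg : InF {x₀} g ∨ InF {x₀}ᶜ g) : JS (ρ g) (ρ (of x₀)) :=
  ⟨ρ, {x₀}, ⟨x₀, rfl⟩, ⟨x₁, h⟩, hg.imp (fun h => ⟨1, g, h, by simp⟩) (fun h => ⟨1, g, h, by simp⟩),
    Or.inl ⟨1, of x₀, InF.of rfl, by simp⟩⟩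

/-! ### the key lemma -/

lemma oc_le_ho (l : List (Lt α)) {w : List (Lt α)} (hw : IsCyclicallyReduced w) :
    (oc l (mk w) : ℝ) ≤ ho l (mk w) := by
  refine (Lin.lin _).le (lin_ho l (mk w)) 0 fun n => ?_
  have : n * oc l (mk w) ≤ oc l (mk w ^ n) := by
    rw [oc, oc, toWord_pow_cyc hw, toWord_red hw.isReduced]
    induction n with
    | zero => simp
    | succ n ih =>
      have := (ocp_loc l).ge w (wp w n)
      rw [wp_succ, Nat.succ_mul]
      omega
  rw [add_zero]
  exact_mod_cast this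

omit [DecidableEq α] in
lemma head_invRev (w : List (Lt α)) : (invRev w).head? = w.getLast?.map li := by
  rcases eq_nil_or_concat w with rfl | ⟨w, x, rfl⟩
  · rfl
  · rw [concat_eq_append, invRev_concat]; simp

omit [DecidableEq α] in
lemma cyc_of_heads {w W : List (Lt α)} (hw : IsCyclicallyReduced w) (hW : IsReduced W)
    (h1 : W.head? = w.head?) (h2 : (invRev W).head? = (invRev w).head?) :
    IsCyclicallyReduced W := by
  rw [head_invRev, head_invRev] at h2
  have h3 := Option.map_injective (fun _ _ => li_inj.1) h2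
  exact ⟨hW, by rw [h1, h3]; exact hw.2⟩

lemma head_mul' {g h : FreeGroup α} (hn : h.norm < (g * h).norm + g.norm) :
    (g * h).toWord.head? = g.toWord.head? := by
  obtain ⟨a, c, b, h1, h2, h3⟩ := mul_decomp g h
  simp only [FreeGroup.norm, h1, h2, h3, length_append, invRev_length] at hn
  obtain ⟨x, a, rfl⟩ := exists_cons_of_ne_nil (show a ≠ [] by rintro rfl; simp at hn; omega)
  rw [h1, h3]; rfl

omit [DecidableEq α] in
lemma head_wp {w : List (Lt α)} (hw : w ≠ []) (n : ℕ) : (wp w (n + 1)).head? = w.head? := by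
  obtain ⟨x, w, rfl⟩ := exists_cons_of_ne_nil hw
  rfl

lemma sandwich_head {w : List (Lt α)} (hw : IsCyclicallyReduced w) (hne : w ≠ []) {u : FreeGroup α}
    {p : ℕ} (h : u.norm < (mk w ^ (p + 1) * u * mk w ^ (p + 1)).norm) :
    (mk w ^ (p + 1) * u * mk w ^ (p + 1)).toWord.head? = w.head? := by
  have h1 := norm_mul_le u (mk w ^ (p + 1))
  rw [mul_assoc] at h ⊢
  rw [head_mul' (by omega), toWord_pow_cyc hw, head_wp hne]

lemma key_lemma [Finite α] {l l' : List (Lt α)} {x₀ x₁ : α} (hx : x₁ ≠ x₀)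
    (hW : ∀ g h, JS g h → 0 < ho l g → 0 < ho l' h → False) (η : MulAut (FreeGroup α))
    (hη : 0 < ho l' (η (of x₀))) (g : FreeGroup α) : ho l (η g) ≤ 3 * l.length * hl g := by
  obtain ⟨u, w, hw, hu⟩ := exists_cyc (η (of x₀))
  have : ∃ η' : MulAut (FreeGroup α), η' (of x₀) = mk w ∧ ∀ g, η g = u * η' g * u⁻¹ :=
    ⟨MulAut.conj u⁻¹ * η, by simp [hu, mul_assoc], fun g => by simp [mul_assoc]⟩
  obtain ⟨η', hβ, hη'⟩ := this
  rw [hη', ho, (qs_oc _).hm_conj, ← ho] at hη ⊢
  clear hη' hu u η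
  rename' η' => η
  have hne : w ≠ [] := by
    rintro rfl
    simp [← one_eq_mk] at hβ
  have zero : ∀ W, IsCyclicallyReduced W → JS (mk W) (η (of x₀)) → oc l (mk W) = 0 := by
    intro W h1 h2
    have a1 := oc_le_ho l h1
    have a2 : ho l (mk W) ≤ 0 := not_lt.1 fun h => hW _ _ h2 h hη
    exact_mod_cast le_antisymm (a1.trans a2) (Nat.cast_nonneg _)
  have jself : JS (η (of x₀)) (η (of x₀)) := js_basis η hx (Or.inl (InF.of rfl))
  have zpos : ∀ p : ℕ, oc l (mk w ^ p) = 0 := fun p => by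
    have := jself.zpow p
    nth_rewrite 1 [hβ] at this
    rw [zpow_natCast, pow_mk] at this
    rw [pow_mk]
    exact zero _ (hw.flatten_replicate p) this
  have zneg : ∀ p : ℕ, oc l ((mk w)⁻¹ ^ p) = 0 := fun p => by
    have := jself.zpow (-p)
    nth_rewrite 1 [hβ] at this
    rw [zpow_neg, zpow_natCast, ← inv_pow, inv_mk, pow_mk] at this
    rw [inv_mk, pow_mk]
    exact zero _ ((cyc_invRev hw).flatten_replicate p) this
  have letter : ∀ z : Lt α, oc l (η (mk [z])) ≤ 2 * l.length := by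
    intro z
    by_cases hz : z.1 = x₀
    · obtain ⟨j, _ | _⟩ := z
      · obtain rfl : j = x₀ := hz
        rw [mk_false, _root_.map_inv, hβ, ← pow_one (mk w)⁻¹, zneg]; omega
      · obtain rfl : j = x₀ := hz
        rw [mk_true, hβ, ← pow_one (mk w), zpos]; omega
    · set κ : FreeGroup α →* FreeGroup α :=
        FreeGroup.lift (fun j => if j = x₀ then of x₀ else 1) with hκ
      obtain ⟨L, -, hL⟩ := exists_lip (κ.comp (η⁻¹).toMonoidHom)
      set v := η (mk [z]) with hv
      set p := L * v.norm with hp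
      set G := mk w ^ (p + 1) * v * mk w ^ (p + 1) with hG
      have hGη : G = η (of x₀ ^ (p + 1) * mk [z] * of x₀ ^ (p + 1)) := by
        simp only [_root_.map_mul, _root_.map_pow, hβ, hG, hv]
      have hn : v.norm < G.norm := by
        have a1 := hL G
        have a2 : κ (mk [z]) = 1 := by
          obtain ⟨j, _ | _⟩ := z
          · rw [mk_false, _root_.map_inv]; simp [hκ, show j ≠ x₀ from hz]
          · rw [mk_true]; simp [hκ, show j ≠ x₀ from hz]
        have a3 : κ (of x₀) = of x₀ := by simp [hκ]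
        rw [hGη] at a1
        simp only [MonoidHom.comp_apply, MulEquiv.coe_toMonoidHom, MulAut.inv_apply_self] at a1
        rw [← hGη, _root_.map_mul, _root_.map_mul, a2, _root_.map_pow, a3, mul_one, ← pow_add,
          norm_of_pow] at a1
        by_contra h
        have := Nat.mul_le_mul_left L (not_lt.1 h)
        omega
      have c1 := sandwich_head hw hne hn
      have c2 := sandwich_head (cyc_invRev hw) (mt invRev_eq_nil.1 hne) (u := v⁻¹) (p := p) (by
        rw [← inv_mk, inv_pow, ← mul_inv_rev, ← mul_inv_rev, norm_inv_eq, norm_inv_eq, ← mul_assoc]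
        exact hn)
      rw [← inv_mk, inv_pow, ← mul_inv_rev, ← mul_inv_rev, toWord_inv, ← mul_assoc] at c2
      have c3 := cyc_of_heads hw isReduced_toWord c1 c2
      have hx0 : ∀ n : ℤ, InF {z.1}ᶜ (of x₀ ^ n) := fun n => (InF.of (Ne.symm hz)).zpow n
      have c4 : JS G (η (of x₀)) := by
        obtain ⟨τ, t1, t2⟩ : ∃ τ : MulAut (FreeGroup α), τ (of x₀) = of x₀ ∧
            τ (mk [z]) = of x₀ ^ (p + 1) * mk [z] * of x₀ ^ (p + 1) := by
          obtain ⟨j, _ | _⟩ := z
          · refine ⟨tv j (hx0 (-(p + 1 : ℕ))) (hx0 (-(p + 1 : ℕ))),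
              tv_fix _ _ (InF.of (Ne.symm hz)), ?_⟩
            rw [mk_false, _root_.map_inv, tv_self, zpow_neg, zpow_natCast]
            group
          · refine ⟨tv j (hx0 (p + 1 : ℕ)) (hx0 (p + 1 : ℕ)), tv_fix _ _ (InF.of (Ne.symm hz)), ?_⟩
            rw [mk_true, tv_self, zpow_natCast]
        have := js_basis (η * τ) hx (g := mk [z]) (Or.inr (InF.letter hz))
        simpa only [MulAut.mul_apply, t1, t2, ← hGη] using this
      have c5 := zero _ c3 (by rwa [mk_toWord])
      rw [mk_toWord, ← hG] at c5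
      have d1 := qs_oc l ((mk w)⁻¹ ^ (p + 1) * G) ((mk w)⁻¹ ^ (p + 1))
      have d2 := qs_oc l ((mk w)⁻¹ ^ (p + 1)) G
      have e : (mk w)⁻¹ ^ (p + 1) * G * (mk w)⁻¹ ^ (p + 1) = v := by rw [hG, inv_pow]; group
      rw [e] at d1
      rw [zneg] at d1 d2
      omega
  have all : ∀ W : List (Lt α), oc l (η (mk W)) ≤ 3 * l.length * W.length := by
    intro W
    induction W with
    | nil => simp [← one_eq_mk, oc, lc]
    | cons z W ih =>
      have d1 := qs_oc l (η (mk [z])) (η (mk W))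
      have d2 := letter z
      rw [mk_cons, _root_.map_mul, length_cons, Nat.mul_succ]
      omega
  refine (lin_ho _ _).le ((lin_hl g).const_mul _) 0 fun n => ?_
  have := all (g ^ n).toWord
  rw [mk_toWord, _root_.map_pow] at this
  rw [add_zero]
  exact_mod_cast this

/-! ### properness -/

lemma exists_short [Fintype α] (β : α → FreeGroup α) (C : ℝ) (h1 : ∀ i, hl (β i) ≤ C)
    (h2 : ∀ i j, i ≠ j → hl (β i * β j) ≤ C) : ∃ u, ∀ i, ((u * β i * u⁻¹).norm : ℝ) ≤ C := by
  obtain ⟨u, hu⟩ := exists_minimalFor_of_wellFoundedLT (fun _ : FreeGroup α => True)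
    (fun u => ∑ i, (u * β i * u⁻¹).norm) ⟨1, trivial⟩
  refine ⟨u, fun i => ?_⟩
  set γ : α → FreeGroup α := fun i => u * β i * u⁻¹ with hγ
  change ((γ i).norm : ℝ) ≤ C
  have g1 : hl (γ i) ≤ C := by rw [hγ, hl_conj]; exact h1 i
  have g2 : ∀ j, i ≠ j → hl (γ i * γ j) ≤ C := fun j hj => by
    rw [show γ i * γ j = u * (β i * β j) * u⁻¹ by simp only [hγ]; group, hl_conj]
    exact h2 i j hj
  by_cases hc : IsCyclicallyReduced (γ i).toWord
  · rw [← mk_toWord (x := γ i), hl_cyc hc] at g1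
    exact g1
  obtain ⟨y, m, hm⟩ : ∃ y m, (γ i).toWord = y :: m ++ [li y] := by
    have hr : IsReduced (γ i).toWord := isReduced_toWord
    generalize (γ i).toWord = W at hc hr
    induction W using List.bidirectionalRec with
    | nil => simp at hc
    | singleton => simp at hc
    | cons_append a m b =>
      refine ⟨a, m, ?_⟩
      rw [← cons_append] at hc hr
      rw [isCyclicallyReduced_cons_append_iff, red_rel_iff] at hc
      have : a = li b := by tauto
      simp [this]
  have hi : ((mk [y])⁻¹ * γ i * mk [y]).norm < (γ i).norm := by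
    have e : (mk [y])⁻¹ * γ i * mk [y] = mk m := by
      rw [← mk_toWord (x := γ i), hm, ← mul_mk, mk_cons y m, mk_li]
      group
    rw [e, FreeGroup.norm, FreeGroup.norm, hm]
    refine norm_mk_le.trans_lt ?_
    simp only [length_append, length_cons]
    omega
  obtain ⟨j, hj⟩ : ∃ j, (γ j).norm < ((mk [y])⁻¹ * γ j * mk [y]).norm := by
    by_contra hcon
    push Not at hcon
    have a1 : ∑ j, ((mk [y])⁻¹ * γ j * mk [y]).norm < ∑ j, (γ j).norm :=
      Finset.sum_lt_sum (fun j _ => hcon j) ⟨i, Finset.mem_univ _, hi⟩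
    have a2 := hu.2 (j := (mk [y])⁻¹ * u) trivial
    simp only [hγ, mul_inv_rev, inv_inv, mul_assoc] at a1 a2
    omega
  have hy : (mk [y]).norm = 1 := norm_red IsReduced.singleton
  have hij : i ≠ j := by
    rintro rfl
    omega
  have b1 : ∀ q ∈ (γ j).toWord.head?, q ≠ y := by
    rintro q hq rfl
    obtain ⟨t, ht⟩ := head?_eq_some_iff.1 hq
    have a1 := norm_mul_le ((mk [q])⁻¹ * γ j) (mk [q])
    have a2 : ((mk [q])⁻¹ * γ j).norm + 1 ≤ (γ j).norm := by
      rw [← mk_toWord (x := γ j), norm_red isReduced_toWord, ht, mk_cons q t, inv_mul_cancel_left]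
      simpa using norm_mk_le
    omega
  have b2 : ∀ q ∈ (γ j).toWord.getLast?, y ≠ li q := by
    rintro q hq rfl
    obtain ⟨t, ht⟩ := getLast?_eq_some_iff.1 hq
    have a1 := norm_mul_le (mk [li q])⁻¹ (γ j * mk [li q])
    have a2 : (γ j * mk [li q]).norm + 1 ≤ (γ j).norm := by
      rw [← mk_toWord (x := γ j), norm_red isReduced_toWord, ht, ← mul_mk, mk_li,
        mul_inv_cancel_right]
      simpa using norm_mk_le
    rw [← mul_assoc, norm_inv_eq] at a1
    omega
  have hne : (γ j).toWord ≠ [] := by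
    intro h
    rw [toWord_eq_nil_iff] at h
    rw [h, mul_one, inv_mul_cancel] at hj
    omega
  have hcyc : IsCyclicallyReduced ((γ i).toWord ++ (γ j).toWord) := by
    refine ⟨IsChain.append isReduced_toWord isReduced_toWord fun p hp q hq => ?_,
      fun p hp q hq => ?_⟩
    · rw [hm, getLast?_concat, Option.mem_def, Option.some.injEq] at hp
      rw [red_rel_iff, ← hp, li_li]
      exact b1 q hq
    · rw [getLast?_append_of_ne_nil _ hne] at hp
      rw [hm, cons_append, cons_append, head?_cons, Option.mem_def, Option.some.injEq] at hq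
      rw [red_rel_iff, ← hq]
      exact b2 p hp
  have := g2 j hij
  rw [← mk_toWord (x := γ i), ← mk_toWord (x := γ j), mul_mk, hl_cyc hcyc, length_append] at this
  refine le_trans ?_ this
  exact_mod_cast Nat.le_add_right _ _

omit [DecidableEq α] in
lemma out_conj_mul (u : FreeGroup α) (σ : MulAut (FreeGroup α)) :
    ((MulAut.conj u * σ : MulAut (FreeGroup α)) : Out (FreeGroup α)) = σ := by
  have : ((MulAut.conj u : MulAut (FreeGroup α)) : Out (FreeGroup α)) = 1 :=
    (QuotientGroup.eq_one_iff _).2 (MonoidHom.mem_range.2 ⟨u, rfl⟩)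
  rw [QuotientGroup.mk_mul, this, one_mul]

omit [DecidableEq α] in
lemma out_eq {σ τ : MulAut (FreeGroup α)} (h : (σ : Out (FreeGroup α)) = τ) :
    ∃ u, ∀ g, σ g = u * τ g * u⁻¹ := by
  obtain ⟨k, hk⟩ := QuotientGroup.eq.1 h.symm
  refine ⟨τ k, fun g => ?_⟩
  have : σ = τ * MulAut.conj k := by rw [hk]; group
  simp [this]

lemma finite_out [Finite α] (C : ℝ) : {h : Out (FreeGroup α) | ∃ σ : MulAut (FreeGroup α),
    (σ : Out (FreeGroup α)) = h ∧ (∀ i, hl (σ (of i)) ≤ C) ∧
    ∀ i j, i ≠ j → hl (σ (of i * of j)) ≤ C}.Finite := by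
  have := Fintype.ofFinite α
  obtain ⟨n, hn⟩ := exists_nat_ge C
  have hfin : {σ : MulAut (FreeGroup α) | ∀ i, (σ (of i)).norm ≤ n}.Finite := by
    refine Set.Finite.of_finite_image (f := fun σ i => σ (of i))
      ((Set.Finite.pi' (fun _ : α => finite_norm_le (α := α) n)).subset ?_) ?_
    · rintro _ ⟨σ, hσ, rfl⟩
      exact hσ
    · intro σ _ τ _ h
      apply MulEquiv.toMonoidHom_injective
      ext i : 1
      exact congrFun h i
  refine (hfin.image (fun σ : MulAut (FreeGroup α) => (σ : Out (FreeGroup α)))).subset ?_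
  rintro _ ⟨σ, rfl, h1, h2⟩
  obtain ⟨u, hu⟩ := exists_short (fun i => σ (of i)) C h1 (by simpa using h2)
  refine ⟨MulAut.conj u * σ, fun i => ?_, ?_⟩
  · exact_mod_cast (hu i).trans hn
  · exact out_conj_mul u σ

end Pool.Agent.Lib.MP21ae20
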