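import Pool.Agent.Lib.MP_21ae20_al.B4
import Pool.Agent.Lib.MP_21ae20_al.A1

/-! From a pair of train track structures to projection data on `Out`. -/

namespace Pool.Agent.Lib.MP21ae20

open FreeGroup List Filter Topology

variable {α : Type} [DecidableEq α]

structure Half (x₀ : α) (σ : MulAut (FreeGroup α)) (leg : Lt α → Lt α → Prop)
    (l : List (Lt α)) : Prop where
  red : Red leg
  tt : TT leg leg σ
  lne : l ≠ []
  len3 : ∀ z, 3 ≤ (im σ z).length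
  occ : ∀ z, Occ l (im σ z)
  base : leg (x₀, true) (x₀, true)

def Gd (K : ℕ) (leg : Lt α → Lt α → Prop) (g : FreeGroup α) : Prop := K * hi leg g ≤ hl g

def Dn (D : ℕ) (l : List (Lt α)) (g : FreeGroup α) : Prop := hl g ≤ D * ho l g

lemma Gd.conj_iff {K : ℕ} {leg : Lt α → Lt α → Prop} (u g : FreeGroup α) :
    Gd K leg (u * g * u⁻¹) ↔ Gd K leg g := by
  rw [Gd, Gd, hl_conj, hi, (qs_ill leg).hm_conj, hi]

lemma Dn.pos {D : ℕ} {l : List (Lt α)} {g : FreeGroup α} (h : Dn D l g) (hg : g ≠ 1) :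
    0 < ho l g := by
  have h1 := hl_pos hg
  by_contra hn
  have : (D : ℝ) * ho l g ≤ 0 := mul_nonpos_of_nonneg_of_nonpos (by positivity) (not_lt.1 hn)
  unfold Dn at h
  linarith

lemma Half.step [Finite α] {x₀ : α} {σ : MulAut (FreeGroup α)} {leg : Lt α → Lt α → Prop}
    {l : List (Lt α)} (H : Half x₀ σ leg l) : ∃ K₀ D₀ : ℕ, ∀ K D : ℕ, K₀ ≤ K → D₀ ≤ D → ∀ g,
    Gd K leg g → Gd K leg (σ g) ∧ 2 * hl g ≤ hl (σ g) ∧ Dn D l (σ g) := by
  obtain ⟨C, hC⟩ := H.tt.hbounds H.red H.lne H.len3 H.occ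
  obtain ⟨L, -, hL⟩ := exists_hl_lip σ
  refine ⟨2 * C, 2 * L, fun K D hK hD g hg => ?_⟩
  have a1 := hC g
  have a2 := hL g
  have a3 := H.tt.hi_le H.red g
  have a4 := hi_nonneg leg g
  have a5 : (2 * C : ℝ) ≤ K := by exact_mod_cast hK
  have a6 : (2 * L : ℝ) ≤ D := by exact_mod_cast hD
  have a7 : 0 ≤ hl g := qs_norm.hm_nonneg g
  unfold Gd Dn at *
  have a8 : 2 * (C * hi leg g) ≤ hl g := by nlinarith
  have a9 : (K : ℝ) * hi leg (σ g) ≤ K * hi leg g := mul_le_mul_of_nonneg_left a3 (by positivity)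
  have a10 : hl g ≤ 2 * ho l (σ g) := by linarith
  have a11 : (0 : ℝ) ≤ L := by positivity
  refine ⟨by linarith, by linarith, ?_⟩
  nlinarith

lemma Half.gd_base {x₀ : α} {σ : MulAut (FreeGroup α)} {leg : Lt α → Lt α → Prop}
    {l : List (Lt α)} (H : Half x₀ σ leg l) (K : ℕ) : Gd K leg (of x₀) := by
  have : hi leg (of x₀) = 0 := (qs_ill leg).hm_eq_zero fun n => by
    rw [ill, toWord_of_pow, lc_ill_zero]
    exact isChain_replicate_of_rel _ H.base
  rw [Gd, this, mul_zero]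
  exact qs_norm.hm_nonneg _

structure Dyn (x₀ : α) (φ : MulAut (FreeGroup α)) (legp legm : Lt α → Lt α → Prop)
    (lp lm : List (Lt α)) : Prop where
  hp : Half x₀ φ legp lp
  hm : Half x₀ φ⁻¹ legm lm
  two : TwoConn (fun x y => [li x, y] <:+: lp ∨ [li x, y] <:+: lm)
  v2 : ∀ K : ℕ, ∃ t : ℕ, ∀ ρ : MulAut (FreeGroup α),
    Gd K legp ((φ ^ t) (ρ (of x₀))) ∨ Gd K legm ((φ ^ t)⁻¹ (ρ (of x₀)))

lemma Dyn.white [Finite α] {x₀ : α} {φ : MulAut (FreeGroup α)} {legp legm : Lt α → Lt α → Prop}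
    {lp lm : List (Lt α)} (H : Dyn x₀ φ legp legm lp lm) (g h : FreeGroup α) (hj : JS g h)
    (h1 : 0 < ho lp g) (h2 : 0 < ho lm h) : False := by
  obtain ⟨ρ, I, i1, i2, i3, i4⟩ := hj
  refine whitehead ρ i1 i2 ?_ H.two
  rintro x y (h | h)
  · exact ⟨g, i3, by simpa using cross_of_ho h1 h⟩
  · exact ⟨_, i4, by simpa using cross_of_ho h2 h⟩

open Classical in
/-- the first time the iterates are good, capped at `Λ` -/
noncomputable def ff (φ : MulAut (FreeGroup α)) (K : ℕ) (leg : Lt α → Lt α → Prop) (Λ : ℕ)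
    (g : FreeGroup α) : ℕ :=
  Nat.find (⟨Λ, Or.inr le_rfl⟩ : ∃ j, Gd K leg ((φ ^ j) g) ∨ Λ ≤ j)

section ff

variable {φ : MulAut (FreeGroup α)} {K : ℕ} {leg : Lt α → Lt α → Prop} {Λ : ℕ}

lemma ff_le (g : FreeGroup α) : ff φ K leg Λ g ≤ Λ := by
  classical
  exact Nat.find_le (Or.inr le_rfl)

lemma ff_good {g : FreeGroup α} (h : ff φ K leg Λ g < Λ) :
    Gd K leg ((φ ^ ff φ K leg Λ g) g) := by
  classical
  have := Nat.find_spec (⟨Λ, Or.inr le_rfl⟩ : ∃ j, Gd K leg ((φ ^ j) g) ∨ Λ ≤ j)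
  exact this.resolve_right (not_le.2 h)

lemma ff_not {g : FreeGroup α} {j : ℕ} (h : j < ff φ K leg Λ g) : ¬ Gd K leg ((φ ^ j) g) := by
  classical
  exact fun h' => Nat.find_min _ h (Or.inl h')

lemma ff_le_of {g : FreeGroup α} {j : ℕ} (h : Gd K leg ((φ ^ j) g)) : ff φ K leg Λ g ≤ j :=
  not_lt.1 fun h' => ff_not h' h

lemma ff_conj (u g : FreeGroup α) : ff φ K leg Λ (u * g * u⁻¹) = ff φ K leg Λ g := by
  unfold ff
  congr 1
  funext j
  simp only [_root_.map_mul, _root_.map_inv, Gd.conj_iff]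

end ff

omit [DecidableEq α] in
lemma prim_ne_one (ρ : MulAut (FreeGroup α)) (x : α) : ρ (of x) ≠ 1 := by simp

lemma exists_cand {x₀ x₁ : α} (hx : x₁ ≠ x₀) :
    (∀ i : α, (∃ τ : MulAut (FreeGroup α), τ (of x₀) = of i) ∧ JS (of i) (of x₀)) ∧
    ∀ i j : α, i ≠ j → (∃ τ : MulAut (FreeGroup α), τ (of x₀) = of i * of j) ∧
      JS (of i * of j) (of x₀) := by
  have sw : ∀ i : α, ∃ τ : MulAut (FreeGroup α), τ (of x₀) = of i := fun i =>
    ⟨freeGroupCongr (Equiv.swap x₀ i), by simp⟩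
  refine ⟨fun i => ⟨sw i, ?_⟩, fun i j hij => ⟨?_, ?_⟩⟩
  · refine js_basis 1 hx (g := of i) ?_
    by_cases h : i = x₀
    · exact Or.inl (InF.of h)
    · exact Or.inr (InF.of h)
  · obtain ⟨τ, hτ⟩ := sw i
    exact ⟨tv i (InF.one _) (InF.of (i := j) hij.symm) * τ, by simp [hτ, tv_self]⟩
  · by_cases h : i = x₀
    · subst h
      have := js_basis (tv j (InF.of (i := i) hij) (InF.one _)) hx (g := of j)
        (Or.inr (InF.of hij.symm))
      rwa [tv_self, mul_one, tv_fix _ _ (InF.of hij)] at this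
    by_cases h' : j = x₀
    · subst h'
      have := js_basis (tv i (InF.one _) (InF.of (i := j) hij.symm)) hx (g := of i)
        (Or.inr (InF.of hij))
      rwa [tv_self, one_mul, tv_fix _ _ (InF.of hij.symm)] at this
    · exact js_basis 1 hx (g := of i * of j) (Or.inr ((InF.of h).mul (InF.of h')))

lemma infinite_stab {x₀ x₁ : α} (hx : x₁ ≠ x₀) :
    {h : Out (FreeGroup α) | ∃ σ : MulAut (FreeGroup α), (σ : Out (FreeGroup α)) = h ∧
      σ (of x₀) = of x₀}.Infinite := by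
  have hin : ∀ n : ℤ, InF {x₁}ᶜ (of x₀ ^ n) := fun n => (InF.of hx.symm).zpow n
  refine Set.infinite_of_injective_forall_mem
    (f := fun n : ℤ => ((tv x₁ (hin n) (InF.one _) : MulAut (FreeGroup α)) : Out (FreeGroup α)))
    ?_ (fun n => ⟨_, rfl, tv_fix _ _ (InF.of hx.symm)⟩)
  intro m n h
  obtain ⟨u, hu⟩ := out_eq h
  have := congrArg (FreeGroup.lift (fun j => if j = x₀ then Multiplicative.ofAdd (1 : ℤ) else 1))
    (hu (of x₁))
  simp only [tv_self, mul_one, _root_.map_mul, map_zpow, lift_apply_of, if_true, hx, if_false,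
    _root_.map_inv, mul_inv_cancel_comm] at this
  simpa [← ofAdd_zsmul] using this

theorem Dyn.exists_proj [Finite α] {x₀ x₁ : α} (hx : x₁ ≠ x₀) {φ : MulAut (FreeGroup α)}
    {legp legm : Lt α → Lt α → Prop} {lp lm : List (Lt α)} (H : Dyn x₀ φ legp legm lp lm) :
    ∃ P : Proj (Out (FreeGroup α)), ∀ σ τ : MulAut (FreeGroup α), JS (σ (of x₀)) (τ (of x₀)) →
      ∀ h, P.d h σ τ ≤ P.θ := by
  obtain ⟨K₁, D₁, s₁⟩ := H.hp.step
  obtain ⟨K₂, D₂, s₂⟩ := H.hm.step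
  set K := K₁ + K₂
  set D := D₁ + D₂
  replace s₁ := s₁ K D (by omega) (by omega)
  replace s₂ := s₂ K D (by omega) (by omega)
  obtain ⟨t, ht⟩ := H.v2 K
  set c : ℕ := D * (3 * (lp.length + lm.length)) with hc
  set θ : ℕ := 6 * t + 10 + c with hθ
  set Λ := 100 * θ with hΛ
  set F := ff φ K legp Λ with hF
  have key1 : ∀ (η : MulAut (FreeGroup α)) y, Dn D lp y → Dn D lm (η (of x₀)) →
      hl y ≤ c * hl (η⁻¹ y) := by
    intro η y h1 h2
    have a1 := key_lemma hx H.white η (h2.pos (prim_ne_one _ _)) (η⁻¹ y)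
    rw [MulAut.apply_inv_self] at a1
    have a2 : 0 ≤ hl (η⁻¹ y) := qs_norm.hm_nonneg _
    refine le_trans h1 ((mul_le_mul_of_nonneg_left a1 (by positivity)).trans ?_)
    rw [← mul_assoc, hc]
    push_cast
    gcongr
    linarith [show (0 : ℝ) ≤ lm.length by positivity]
  have key2 : ∀ (η : MulAut (FreeGroup α)) y, Dn D lm y → Dn D lp (η (of x₀)) →
      hl y ≤ c * hl (η⁻¹ y) := by
    intro η y h1 h2
    have a1 := key_lemma hx (fun g h hj b1 b2 => H.white h g hj.symm b2 b1) η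
      (h2.pos (prim_ne_one _ _)) (η⁻¹ y)
    rw [MulAut.apply_inv_self] at a1
    have a2 : 0 ≤ hl (η⁻¹ y) := qs_norm.hm_nonneg _
    refine le_trans h1 ((mul_le_mul_of_nonneg_left a1 (by positivity)).trans ?_)
    rw [← mul_assoc, hc]
    push_cast
    gcongr
    linarith [show (0 : ℝ) ≤ lp.length by positivity]
  have up : ∀ g j m, Gd K legp ((φ ^ j) g) → Gd K legp ((φ ^ (j + m)) g) ∧
      2 ^ m * hl ((φ ^ j) g) ≤ hl ((φ ^ (j + m)) g) ∧ Dn D lp ((φ ^ (j + m + 1)) g) := by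
    intro g j m h
    induction m with
    | zero => exact ⟨h, by simp, by simpa [pow_succ'] using (s₁ _ h).2.2⟩
    | succ m ih =>
      have a1 := s₁ _ ih.1
      have a2 := s₁ _ a1.1
      rw [← add_assoc, pow_succ' φ (j + m + 1), pow_succ' φ (j + m), pow_succ]
      simp only [MulAut.mul_apply]
      exact ⟨a1.1, by linarith [ih.2.1, a1.2.1], a2.2.2⟩
  have hiD : ∀ g j, F g < j → j ≤ Λ → Dn D lp ((φ ^ j) g) := by
    intro g j h1 h2
    obtain ⟨m, rfl⟩ := Nat.exists_eq_add_of_lt h1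
    exact (up g _ m (ff_good (by rw [← hF]; omega))).2.2
  have loD : ∀ (ρ : MulAut (FreeGroup α)) j, ¬ Gd K legp ((φ ^ (j + 1 + 2 * t)) (ρ (of x₀))) →
      Dn D lm ((φ ^ j) (ρ (of x₀))) ∧
      2 * hl ((φ ^ (j + 1)) (ρ (of x₀))) ≤ hl ((φ ^ j) (ρ (of x₀))) := by
    intro ρ j h
    rcases ht (φ ^ (j + 1 + t) * ρ) with h1 | h1
    · refine absurd ?_ h
      rw [show j + 1 + 2 * t = t + (j + 1 + t) by omega, pow_add]
      exact h1
    · have e1 : (φ ^ t)⁻¹ ((φ ^ (j + 1 + t) * ρ) (of x₀)) = (φ ^ (j + 1)) (ρ (of x₀)) := by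
        rw [add_comm (j + 1), pow_add]; simp
      have e2 : φ⁻¹ ((φ ^ (j + 1)) (ρ (of x₀))) = (φ ^ j) (ρ (of x₀)) := by
        rw [pow_succ']; simp
      rw [e1] at h1
      have := s₂ _ h1
      rw [e2] at this
      exact ⟨this.2.2, this.2.1⟩
  have lip : ∀ σ τ : MulAut (FreeGroup α), JS (σ (of x₀)) (τ (of x₀)) →
      F (τ (of x₀)) ≤ F (σ (of x₀)) + (2 * t + 2) := by
    intro σ τ hj
    by_contra hlt
    have b0 : F (τ (of x₀)) ≤ Λ := ff_le _
    have b1 := hiD (σ (of x₀)) (F (σ (of x₀)) + 1) (by omega) (by omega)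
    have b2 := (loD τ (F (σ (of x₀)) + 1) (ff_not (Λ := Λ) (by rw [← hF]; omega))).1
    exact H.white _ _ (hj.map _) (b1.pos (by simp)) (b2.pos (by simp))
  have gap : ∀ (ρ : MulAut (FreeGroup α)) (e r m : ℕ), e ≤ Λ →
      (F (ρ (of x₀)) + m + r + 2 * t + 4 ≤ e ∨ e + m + r + 2 * t + 4 ≤ F (ρ (of x₀))) →
      ∃ j₁ ≤ Λ, ∃ j₂ ≤ Λ, 2 ^ m * hl ((φ ^ j₁) (ρ (of x₀))) ≤ hl ((φ ^ j₂) (ρ (of x₀))) ∧
        ∀ η : MulAut (FreeGroup α), F (η (of x₀)) ≤ e + r → e ≤ F (η (of x₀)) + r →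
          hl ((φ ^ j₂) (ρ (of x₀))) ≤ c * hl (η⁻¹ (ρ (of x₀))) := by
    intro ρ e r m he h
    have b0 : F (ρ (of x₀)) ≤ Λ := ff_le _
    rcases h with h | h
    · have a1 := up _ _ 1 (ff_good (φ := φ) (K := K) (leg := legp) (Λ := Λ) (g := ρ (of x₀))
        (by rw [← hF]; omega))
      rw [← hF] at a1
      refine ⟨F (ρ (of x₀)) + 1, by omega, F (ρ (of x₀)) + 1 + m, by omega, (up _ _ m a1.1).2.1,
        fun η h1 h2 => ?_⟩
      have a2 := key1 (φ ^ (F (ρ (of x₀)) + 1 + m) * η) _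
        (hiD (ρ (of x₀)) (F (ρ (of x₀)) + 1 + m) (by omega) (by omega))
        (loD η _ (ff_not (Λ := Λ) (by rw [← hF]; omega))).1
      simpa using a2
    · refine ⟨e + r + 1 + m, by omega, e + r + 1, by omega, ?_, fun η h1 h2 => ?_⟩
      · have : ∀ i ≤ m, 2 ^ i * hl ((φ ^ (e + r + 1 + i)) (ρ (of x₀))) ≤
            hl ((φ ^ (e + r + 1)) (ρ (of x₀))) := by
          intro i hi
          induction i with
          | zero => simp
          | succ i ih =>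
            have a1 := (loD ρ (e + r + 1 + i) (ff_not (Λ := Λ) (by rw [← hF]; omega))).2
            refine le_trans ?_ (ih (by omega))
            rw [pow_succ, mul_assoc, ← add_assoc]
            gcongr
        exact this m le_rfl
      · have a2 := key2 (φ ^ (e + r + 1) * η) _
          (loD ρ (e + r + 1) (ff_not (Λ := Λ) (by rw [← hF]; omega))).1
          (hiD (η (of x₀)) (e + r + 1) (by omega) (by omega))
        simpa using a2
  set f : Out (FreeGroup α) → ℤ := fun h => F (h.out (of x₀)) with hf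
  have fmk : ∀ σ : MulAut (FreeGroup α), f σ = F (σ (of x₀)) := by
    intro σ
    obtain ⟨u, hu⟩ := out_eq (QuotientGroup.out_eq' (σ : Out (FreeGroup α)))
    simp only [hf, hu, hF, ff_conj]
  have finF : ∀ g : Out (FreeGroup α), {h | (4 * t + 6 : ℤ) < |f h - f (h * g)|}.Finite := by
    intro g
    obtain ⟨γ, rfl⟩ := QuotientGroup.mk_surjective g
    obtain ⟨L, -, hL⟩ := exists_hl_lip φ⁻¹
    obtain ⟨L', -, hL'⟩ := exists_hl_lip γ
    have hpow : ∀ j y, hl y ≤ (L + 1) ^ j * hl ((φ ^ j) y) := by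
      intro j y
      induction j with
      | zero => simp
      | succ j ih =>
        have a1 := hL ((φ ^ (j + 1)) y)
        have a2 : 0 ≤ hl ((φ ^ (j + 1)) y) := qs_norm.hm_nonneg _
        rw [show φ⁻¹ ((φ ^ (j + 1)) y) = (φ ^ j) y by rw [pow_succ']; simp] at a1
        refine ih.trans ?_
        rw [pow_succ ((L : ℝ) + 1), mul_assoc]
        gcongr
        linarith
    refine ((finite_out ((L + 1) ^ Λ * (c * (L' * 2)))).preimage
      (f := fun h => h * (γ : Out (FreeGroup α))) (fun a _ b _ h => by simpa using h)).subset ?_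
    intro h hh
    obtain ⟨σ, rfl⟩ := QuotientGroup.mk_surjective h
    rw [Set.mem_ofPred_eq, ← QuotientGroup.mk_mul, fmk, fmk, lt_abs] at hh
    have bd : ∀ y, (∃ τ : MulAut (FreeGroup α), τ (of x₀) = y) → JS y (of x₀) → y.norm ≤ 2 →
        hl ((σ * γ) y) ≤ (L + 1) ^ Λ * (c * (L' * 2)) := by
      rintro _ ⟨τ, rfl⟩ hj hn
      have a1 := lip (σ * γ * τ) (σ * γ) (hj.map (σ * γ))
      have a2 := lip (σ * γ) (σ * γ * τ) (hj.map (σ * γ)).symm
      obtain ⟨j₁, -, j₂, hj₂, -, a3⟩ := gap (σ * γ * τ) (F (σ (of x₀))) 0 0 (ff_le _) (by omega)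
      have a4 := a3 σ (by omega) (by omega)
      simp only [MulAut.mul_apply, MulAut.inv_apply_self] at a4 ⊢
      have a5 := (hL' (τ (of x₀))).trans (mul_le_mul_of_nonneg_left
        ((hl_le_norm _).trans (show ((τ (of x₀)).norm : ℝ) ≤ 2 by exact_mod_cast hn))
        (by positivity))
      refine (hpow j₂ _).trans (mul_le_mul ?_ (a4.trans (by gcongr)) (qs_norm.hm_nonneg _)
        (by positivity))
      exact pow_le_pow_right₀ (by linarith [show (0 : ℝ) ≤ L by positivity]) hj₂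
    obtain ⟨c1, c2⟩ := exists_cand hx
    refine ⟨σ * γ, rfl, fun i => bd _ (c1 i).1 (c1 i).2 (by simp),
      fun i j hij => bd _ (c2 i j hij).1 (c2 i j hij).2 (by simpa using norm_mul_le (of i) (of j))⟩
  have hθ0 : (0 : ℤ) < θ := by positivity
  refine ⟨⟨f, θ, hθ0, ?_, fun g => (finF g).subset fun h hh => ?_, ?_, ?_, ?_⟩, ?_⟩
  · set E := ⋃ i ∈ Set.Iic Λ, {h : Out (FreeGroup α) |
      (4 * t + 6 : ℤ) < |f h - f (h * ((φ ^ i)⁻¹ : MulAut (FreeGroup α)))|} with hE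
    have hEf : E.Finite := (Set.finite_Iic Λ).biUnion fun i _ => finF _
    refine (hEf.union hEf.inv).subset fun h hh => ?_
    by_contra hcon
    apply hh
    intro x
    obtain ⟨σ, rfl⟩ := QuotientGroup.mk_surjective h
    obtain ⟨ξ, rfl⟩ := QuotientGroup.mk_surjective x
    simp only [hE, Set.mem_union, Set.mem_inv, Set.mem_iUnion, Set.mem_Iic, Set.mem_ofPred_eq,
      not_or, not_exists, not_lt, ← QuotientGroup.mk_inv, ← QuotientGroup.mk_mul, fmk,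
      abs_sub_le_iff] at hcon ⊢
    by_contra hcon'
    rw [not_or] at hcon'
    obtain ⟨j₁, p₁, j₂, p₂, a1, a2⟩ := gap ξ (F (σ (of x₀))) (4 * t + 6) c (ff_le _) (by omega)
    obtain ⟨i₁, q₁, i₂, q₂, b1, b2⟩ := gap (σ⁻¹ * ξ) (F (σ⁻¹ (of x₀))) (4 * t + 6) c (ff_le _)
      (by omega)
    have a3 := a2 (σ * (φ ^ i₁)⁻¹) (by have := hcon.1 i₁ q₁; omega) (by have := hcon.1 i₁ q₁; omega)
    have b3 := b2 (σ⁻¹ * (φ ^ j₁)⁻¹) (by have := hcon.2 j₁ p₁; omega)
      (by have := hcon.2 j₁ p₁; omega)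
    simp only [mul_inv_rev, inv_inv, MulAut.mul_apply, MulAut.apply_inv_self] at a3 b3 b1
    have c1 := hl_pos (prim_ne_one (φ ^ j₁ * ξ) x₀)
    have c2 := hl_pos (prim_ne_one (φ ^ i₁ * σ⁻¹ * ξ) x₀)
    simp only [MulAut.mul_apply] at c1 c2
    have c3 : (c : ℝ) < 2 ^ c := by exact_mod_cast Nat.lt_two_pow_self
    have c4 := a1.trans a3
    have c5 := b1.trans b3
    have c6 : (0 : ℝ) ≤ c := by positivity
    nlinarith
  · rw [Set.mem_ofPred_eq] at hh ⊢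
    omega
  · refine (infinite_stab hx).mono ?_
    rintro _ ⟨σ, rfl, hσ⟩ g
    obtain ⟨γ, rfl⟩ := QuotientGroup.mk_surjective g
    rw [← QuotientGroup.mk_mul, fmk, fmk, MulAut.mul_apply, hσ]
  · refine ⟨(1 : MulAut (FreeGroup α)), ?_⟩
    rw [fmk]
    have : F ((1 : MulAut (FreeGroup α)) (of x₀)) ≤ 0 := ff_le_of (H.hp.gd_base K)
    omega
  · refine ⟨((φ ^ (Λ + 2))⁻¹ : MulAut (FreeGroup α)), ?_⟩
    rw [fmk]
    by_contra hlt
    have a1 := hiD ((φ ^ (Λ + 2))⁻¹ (of x₀)) Λ (by omega) le_rfl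
    have e : (φ ^ Λ) ((φ ^ (Λ + 2))⁻¹ (of x₀)) = φ⁻¹ (φ⁻¹ (of x₀)) := by
      rw [add_comm, pow_add, pow_two]; simp
    rw [e] at a1
    have a2 := (s₂ _ (s₂ _ (H.hm.gd_base K)).1).2.2
    have ne : φ⁻¹ (φ⁻¹ (of x₀)) ≠ 1 := prim_ne_one (φ⁻¹ * φ⁻¹) x₀
    exact H.white _ _ (js_basis (φ⁻¹ * φ⁻¹) hx (Or.inl (InF.of rfl))) (a1.pos ne) (a2.pos ne)
  · intro σ τ hj h
    obtain ⟨η, rfl⟩ := QuotientGroup.mk_surjective h
    have a1 := lip (η⁻¹ * σ) (η⁻¹ * τ) (hj.map η⁻¹)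
    have a2 := lip (η⁻¹ * τ) (η⁻¹ * σ) (hj.map η⁻¹).symm
    simp only [Proj.d_le_iff, Proj.u, ← QuotientGroup.mk_inv, ← QuotientGroup.mk_mul, fmk]
    omega

end Pool.Agent.Lib.MP21ae20
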