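import Pool.Agent.Lib.MP_21ae20_al.B5

/-! Elementary moves as train track maps. -/

namespace Pool.Agent.Lib.MP21ae20

open FreeGroup List Filter Topology

variable {α : Type}

/-- reduced, and the turn is not `{x, y}` -/
def lg (x y p q : Lt α) : Prop := q ≠ li p ∧ ¬ ((li p = x ∧ q = y) ∨ (li p = y ∧ q = x))

/-- sign of a letter after flipping the generators in `ε` -/
def sg (ε : α → Bool) (p : Lt α) : Bool := p.2 ^^ ε p.1

/-- sign coherent -/
def coh (ε : α → Bool) (p q : Lt α) : Prop := sg ε p = sg ε q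

lemma sg_li (ε : α → Bool) (p : Lt α) : sg ε (li p) = !sg ε p := by simp [sg]

lemma red_lg (x y : Lt α) : Red (lg x y) := fun _ _ h => h.1

lemma red_coh (ε : α → Bool) : Red (coh ε) := by
  rintro p q h rfl
  simp [coh, sg_li] at h

lemma chain_invRev {leg : Lt α → Lt α → Prop} (hs : ∀ p q, leg p q → leg (li q) (li p))
    {w : List (Lt α)} (h : w.IsChain leg) : (invRev w).IsChain leg := by
  rw [invRev, isChain_reverse, isChain_map]
  exact h.imp hs

lemma chain_of_forall {R : Lt α → Lt α → Prop} {w : List (Lt α)}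
    (h : ∀ p ∈ w, ∀ q ∈ w, R p q) : w.IsChain R :=
  isChain_iff_forall_rel_of_append_cons_cons.2 (by
    rintro a b l₁ l₂ rfl
    exact h a (by simp) b (by simp))

lemma red_of_sign {w : List (Lt α)} {ε : α → Bool} {s : Bool} (h : ∀ p ∈ w, sg ε p = s) :
    IsReduced w :=
  (red_coh ε).red (chain_of_forall fun p hp q hq => (h p hp).trans (h q hq).symm)

variable [DecidableEq α]

lemma tt_of_local {leg leg' : Lt α → Lt α → Prop} {σ : MulAut (FreeGroup α)}
    (h1 : ∀ z, (im σ z).IsChain leg')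
    (h2 : ∀ p q, leg p q → ∀ a ∈ (im σ p).getLast?, ∀ b ∈ (im σ q).head?, leg' a b) :
    TT leg leg' σ := by
  intro w hw
  induction w with
  | nil => simp
  | cons p w ih =>
    rw [flatMap_cons]
    refine IsChain.append (h1 p) (ih hw.tail) fun a ha b hb => ?_
    rcases w with _ | ⟨q, w⟩
    · simp at hb
    · rw [flatMap_cons, head?_append_of_ne_nil _ (im_ne_nil σ q)] at hb
      exact h2 p q (isChain_cons_cons.1 hw).1 a ha b hb

omit [DecidableEq α] in
/-- `σ` sends `x` to `δ x` and fixes the other generators -/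
structure IsMv (σ : MulAut (FreeGroup α)) (x : Lt α) (δ : List (Lt α)) : Prop where
  img : σ (mk [x]) = mk (δ ++ [x])
  fix : ∀ z : Lt α, z.1 ≠ x.1 → σ (mk [z]) = mk [z]
  av : ∀ z ∈ δ, z.1 ≠ x.1

lemma exists_mv (x : Lt α) (δ : List (Lt α)) (h : ∀ z ∈ δ, z.1 ≠ x.1) :
    ∃ σ, IsMv σ x δ ∧ IsMv σ⁻¹ x (invRev δ) := by
  have hδ : InF {x.1}ᶜ (mk δ) := fun z hz => h z (reduce.red.sublist.subset hz)
  have h' : ∀ z ∈ invRev δ, z.1 ≠ x.1 := fun z hz => h (li z) (mem_invRev.1 hz)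
  obtain ⟨i, _ | _⟩ := x
  · refine ⟨tv i (InF.one _) hδ.inv, ⟨?_, fun z hz => tv_fix _ _ (InF.letter hz), h⟩, ?_⟩
    · rw [← mul_mk, mk_false, _root_.map_inv, tv_self]; group
    · rw [tv_inv]
      refine ⟨?_, fun z hz => tv_fix _ _ (InF.letter hz), h'⟩
      rw [← mul_mk, mk_false, _root_.map_inv, tv_self, ← inv_mk]; group
  · refine ⟨tv i hδ (InF.one _), ⟨?_, fun z hz => tv_fix _ _ (InF.letter hz), h⟩, ?_⟩
    · rw [← mul_mk, mk_true, tv_self]; group
    · rw [tv_inv]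
      refine ⟨?_, fun z hz => tv_fix _ _ (InF.letter hz), h'⟩
      rw [← mul_mk, mk_true, tv_self, ← inv_mk]; group

omit [DecidableEq α] in
lemma letter_cases (x z : Lt α) : z = x ∨ z = li x ∨ z.1 ≠ x.1 := by
  obtain ⟨i, s⟩ := x
  obtain ⟨j, t⟩ := z
  by_cases h : j = i
  · subst h
    cases s <;> cases t <;> simp [li]
  · exact Or.inr (Or.inr h)

namespace IsMv

variable {σ : MulAut (FreeGroup α)} {x : Lt α} {δ : List (Lt α)}

lemma im_self (H : IsMv σ x δ) (hr : IsReduced δ) : im σ x = δ ++ [x] := by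
  rw [im, H.img, toWord_red]
  refine IsChain.append hr IsReduced.singleton fun p hp q hq h => ?_
  obtain rfl : x = q := by simpa using hq
  exact absurd h (H.av p (mem_of_mem_getLast? hp))

lemma im_inv (H : IsMv σ x δ) (hr : IsReduced δ) : im σ (li x) = li x :: invRev δ := by
  rw [im_li, H.im_self hr, invRev_concat]

lemma im_other (H : IsMv σ x δ) {z : Lt α} (hz : z.1 ≠ x.1) : im σ z = [z] := by
  rw [im, H.fix z hz, toWord_red IsReduced.singleton]

lemma surv (H : IsMv σ x δ) (hr : IsReduced δ) (z : Lt α) : z ∈ im σ z := by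
  rcases letter_cases x z with rfl | rfl | h
  · simp [H.im_self hr]
  · simp [H.im_inv hr]
  · simp [H.im_other h]

lemma head (H : IsMv σ x δ) (hr : IsReduced δ) {y : Lt α} (hy : δ.head? = some y) (q : Lt α) :
    (im σ q).head? = some (if q = x then y else q) := by
  obtain ⟨δ', rfl⟩ := head?_eq_some_iff.1 hy
  rcases letter_cases x q with rfl | rfl | h
  · simp [H.im_self hr]
  · simp [H.im_inv hr, li_ne]
  · have : q ≠ x := fun h' => h (by rw [h'])
    simp [H.im_other h, this]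

lemma last (H : IsMv σ x δ) (hr : IsReduced δ) {y : Lt α} (hy : δ.head? = some y) {p a : Lt α}
    (ha : a ∈ (im σ p).getLast?) : li a = if li p = x then y else li p := by
  have := H.head hr hy (li p)
  rw [im_li, head_invRev, Option.mem_def.1 ha] at this
  simpa using this

lemma tt_lg (H : IsMv σ x δ) {y x' y' : Lt α} (hy : δ.head? = some y)
    (hs : ∀ z ∈ δ, z.2 = !x.2) (h1 : x = x' ∨ x = y') (h2 : x'.2 ≠ y'.2) :
    TT (lg x y) (lg x' y') σ := by
  have hr : IsReduced δ := red_of_sign (ε := fun _ => false) (s := !x.2) (by simpa [sg] using hs)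
  have hyx : y ≠ x := fun h => H.av y (mem_of_mem_head? hy) (by rw [h])
  have nox : ∀ p q, q ≠ li p → li p ≠ x → q ≠ x → lg x' y' p q := by
    rintro p q a1 a2 a3
    refine ⟨a1, ?_⟩
    rintro (⟨rfl, rfl⟩ | ⟨rfl, rfl⟩) <;> rcases h1 with h | h <;> simp_all
  have hc : (δ ++ [x]).IsChain (lg x' y') := by
    refine IsChain.append (chain_of_forall fun p hp q hq => nox p q ?_ ?_ ?_) (by simp) ?_
    · rintro rfl
      have := hs p hp
      have := hs _ hq
      simp_all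
    · exact fun h => H.av p hp (by rw [← h]; rfl)
    · exact fun h => H.av q hq (by rw [h])
    · intro p hp q hq
      obtain rfl : x = q := by simpa using hq
      have hp' := mem_of_mem_getLast? hp
      have := hs p hp'
      refine ⟨fun h => H.av p hp' (by rw [h]; rfl), ?_⟩
      rintro (⟨rfl, rfl⟩ | ⟨rfl, rfl⟩) <;> simp_all
  refine tt_of_local (fun z => ?_) fun p q hpq a ha b hb => ?_
  · rcases letter_cases x z with rfl | rfl | h
    · rwa [H.im_self hr]
    · rw [im_li, H.im_self hr]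
      refine chain_invRev (fun p q h => ⟨?_, ?_⟩) hc
      · rw [li_li]; exact fun h' => h.1 h'.symm
      · rw [li_li]; exact fun h' => h.2 (by tauto)
    · simp [H.im_other h]
  · have e1 := H.last hr hy ha
    rw [H.head hr hy, Option.mem_def, Option.some.injEq] at hb
    obtain ⟨c1, c2⟩ := hpq
    refine nox a b ?_ ?_ ?_
    · rw [e1, ← hb]
      split_ifs with d1 d2 d2
      · exact absurd (d1.trans d2.symm) c1
      · exact fun h => c2 (Or.inr ⟨h.symm, d1⟩)
      · exact fun h => c2 (Or.inl ⟨d2, h⟩)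
      · exact c1
    · rw [e1]; split_ifs with d1 <;> assumption
    · rw [← hb]; split_ifs with d1 <;> assumption

lemma tt_coh (H : IsMv σ x δ) {ε : α → Bool} (hs : ∀ z ∈ δ, sg ε z = sg ε x) :
    TT (coh ε) (coh ε) σ := by
  have hr : IsReduced δ := red_of_sign hs
  have all : ∀ z, ∀ p ∈ im σ z, sg ε p = sg ε z := by
    have : ∀ p ∈ im σ x, sg ε p = sg ε x := by
      intro p hp
      rw [H.im_self hr, mem_append, mem_singleton] at hp
      rcases hp with h | rfl
      · exact hs p h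
      · rfl
    intro z p hp
    rcases letter_cases x z with rfl | rfl | h
    · exact this p hp
    · rw [im_li, mem_invRev] at hp
      rw [sg_li, ← this _ hp, sg_li, Bool.not_not]
    · rw [H.im_other h, mem_singleton] at hp
      rw [hp]
  refine tt_of_local (fun z => chain_of_forall fun p hp q hq => (all z p hp).trans (all z q hq).symm)
    fun p q hpq a ha b hb => ?_
  exact (all p a (mem_of_mem_getLast? ha)).trans (hpq.trans (all q b (mem_of_mem_head? hb)).symm)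

end IsMv

/-- a train track map with positive inverse, keeping all letters -/
structure Mv (leg leg' : Lt α → Lt α → Prop) (σ : MulAut (FreeGroup α)) : Prop where
  red : Red leg'
  tt : TT leg leg' σ
  tm : TT (coh fun _ => false) (coh fun _ => false) σ⁻¹
  sv : ∀ z, z ∈ im σ z
  sv' : ∀ z, z ∈ im σ⁻¹ z

section Mv

variable {leg leg' leg'' : Lt α → Lt α → Prop} {σ τ : MulAut (FreeGroup α)}

lemma Mv.im_mul (H : Mv leg leg' σ) (H' : Mv leg' leg'' τ) (z : Lt α) :
    im (τ * σ) z = (im σ z).flatMap (im τ) := H.tt.im_mul H'.tt H'.red z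

lemma Mv.im_mul' (H : Mv leg leg' σ) (H' : Mv leg' leg'' τ) (z : Lt α) :
    im (τ * σ)⁻¹ z = (im τ⁻¹ z).flatMap (im σ⁻¹) := by
  rw [mul_inv_rev]
  exact H'.tm.im_mul H.tm (red_coh _) z

lemma Mv.mul (H : Mv leg leg' σ) (H' : Mv leg' leg'' τ) : Mv leg leg'' (τ * σ) where
  red := H'.red
  tt := H.tt.mul H'.tt H'.red
  tm := by rw [mul_inv_rev]; exact H'.tm.mul H.tm (red_coh _)
  sv z := by rw [H.im_mul H']; exact mem_flatMap.2 ⟨z, H.sv z, H'.sv z⟩
  sv' z := by rw [H.im_mul' H']; exact mem_flatMap.2 ⟨z, H'.sv' z, H.sv' z⟩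

lemma Mv.one (h : Red leg) : Mv leg leg (1 : MulAut (FreeGroup α)) where
  red := h
  tt := TT.one
  tm := TT.one
  sv z := by simp [im_one]
  sv' z := by simp [im_one]

/-- the images of `i` under `σ` and `σ⁻¹` contain the generator `a` -/
def Rch (a : α) (σ : MulAut (FreeGroup α)) (i : α) : Prop :=
  (∀ s, ∃ p ∈ im σ (i, s), p.1 = a) ∧ ∀ s, ∃ p ∈ im σ⁻¹ (i, s), p.1 = a

lemma Mv.rch_left (H : Mv leg leg' σ) (H' : Mv leg' leg'' τ) {a i : α} (h : Rch a σ i) :
    Rch a (τ * σ) i := by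
  refine ⟨fun s => ?_, fun s => ?_⟩
  · obtain ⟨p, h1, h2⟩ := h.1 s
    exact ⟨p, by rw [H.im_mul H']; exact mem_flatMap.2 ⟨p, h1, H'.sv p⟩, h2⟩
  · obtain ⟨p, h1, h2⟩ := h.2 s
    exact ⟨p, by rw [H.im_mul' H']; exact mem_flatMap.2 ⟨_, H'.sv' _, h1⟩, h2⟩

lemma Mv.rch_right (H : Mv leg leg' σ) (H' : Mv leg' leg'' τ) {a i : α} (h : Rch a τ i) :
    Rch a (τ * σ) i := by
  refine ⟨fun s => ?_, fun s => ?_⟩
  · obtain ⟨p, h1, h2⟩ := h.1 s
    exact ⟨p, by rw [H.im_mul H']; exact mem_flatMap.2 ⟨_, H.sv _, h1⟩, h2⟩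
  · obtain ⟨p, h1, h2⟩ := h.2 s
    exact ⟨p, by rw [H.im_mul' H']; exact mem_flatMap.2 ⟨p, h1, H.sv' p⟩, h2⟩

lemma Mv.rch_self (H : Mv leg leg' σ) (a : α) : Rch a σ a :=
  ⟨fun _ => ⟨_, H.sv _, rfl⟩, fun _ => ⟨_, H.sv' _, rfl⟩⟩

end Mv

lemma reach_both {σ : MulAut (FreeGroup α)} {x : Lt α} {a : α} (h : ∃ p ∈ im σ x, p.1 = a)
    (s : Bool) : ∃ p ∈ im σ (x.1, s), p.1 = a := by
  rcases letter_cases x (x.1, s) with h' | h' | h'
  · rwa [h']
  · obtain ⟨p, h1, h2⟩ := h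
    exact ⟨li p, by rw [h', im_li, mem_invRev, li_li]; exact h1, h2⟩
  · exact absurd rfl h'

/-- existence of an elementary move with all its properties -/
lemma exists_move (x y : Lt α) (δ : List (Lt α)) (hy : δ.head? = some y)
    (h : ∀ z ∈ δ, z.1 ≠ x.1 ∧ z.2 = !x.2) : ∃ σ : MulAut (FreeGroup α),
    (∀ x' y', (x = x' ∨ x = y') → x'.2 ≠ y'.2 → Mv (lg x y) (lg x' y') σ) ∧
    (∀ ε, (∀ z ∈ δ, sg ε z = sg ε x) → Mv (coh ε) (coh ε) σ) ∧
    im σ x = δ ++ [x] ∧ im σ (li x) = li x :: invRev δ ∧ im σ⁻¹ x = invRev δ ++ [x] ∧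
    im σ⁻¹ (li x) = li x :: δ ∧ (∀ z : Lt α, z.1 ≠ x.1 → im σ z = [z] ∧ im σ⁻¹ z = [z]) ∧
    ∀ z ∈ δ, Rch z.1 σ x.1 := by
  obtain ⟨σ, H, H'⟩ := exists_mv x δ (fun z hz => (h z hz).1)
  have hr : IsReduced δ := red_of_sign (ε := fun _ => false) (s := !x.2)
    (fun z hz => by simpa [sg] using (h z hz).2)
  have hr' := red_invRev hr
  have tm := H'.tt_coh (ε := fun _ => false) (fun z hz => by
    have := (h _ (mem_invRev.1 hz)).2
    simpa [sg] using this)
  refine ⟨σ, fun x' y' h1 h2 => ⟨red_lg _ _, H.tt_lg hy (fun z hz => (h z hz).2) h1 h2, tm,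
    H.surv hr, H'.surv hr'⟩, fun ε hε => ⟨red_coh _, H.tt_coh hε, tm, H.surv hr, H'.surv hr'⟩,
    H.im_self hr, H.im_inv hr, H'.im_self hr', by rw [H'.im_inv hr', invRev_invRev],
    fun z hz => ⟨H.im_other hz, H'.im_other hz⟩, fun z hz => ⟨reach_both ⟨z, ?_, rfl⟩,
      reach_both ⟨li z, ?_, rfl⟩⟩⟩
  · simp [H.im_self hr, hz]
  · simp [H'.im_self hr', mem_invRev, hz]

lemma occ_of_reach {leg leg' leg'' : Lt α → Lt α → Prop} {σ τ : MulAut (FreeGroup α)}
    (H : TT leg leg' σ) (H' : TT leg' leg'' τ) (hr : Red leg'') {l : List (Lt α)} {x z : Lt α}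
    (h1 : ∃ p ∈ im σ z, p.1 = x.1) (h2 : l <:+: im τ x) : Occ l (im (τ * σ) z) := by
  obtain ⟨p, hp, hpx⟩ := h1
  rw [H.im_mul H' hr]
  refine Occ.trans ?_ (infix_flatMap_of_mem hp _)
  rcases letter_cases x p with rfl | rfl | h
  · exact Or.inl h2
  · right
    obtain ⟨s, t, h⟩ := h2
    exact ⟨invRev t, invRev s, by rw [im_li, ← h]; simp⟩
  · exact absurd hpx h

omit [DecidableEq α] in
lemma Occ.length_le {l w : List (Lt α)} (h : Occ l w) : l.length ≤ w.length := by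
  rcases h with h | h
  · exact h.length_le
  · simpa using h.length_le

lemma v2_of_decay {x₀ : α} {φ : MulAut (FreeGroup α)} {legp legm : Lt α → Lt α → Prop}
    (rm : Red legm) (hm : TT legm legm φ⁻¹)
    (hd : ∀ g, 2 * hi legp (φ g) ≤ hi legp g) (K : ℕ) : ∃ t : ℕ, ∀ ρ : MulAut (FreeGroup α),
    Gd K legp ((φ ^ t) (ρ (of x₀))) ∨ Gd K legm ((φ ^ t)⁻¹ (ρ (of x₀))) := by
  refine ⟨K, fun ρ => ?_⟩
  by_contra hcon
  simp only [Gd, not_or, not_le] at hcon
  obtain ⟨h1, h2⟩ := hcon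
  set u := (φ ^ K)⁻¹ (ρ (of x₀)) with hu
  set w := (φ ^ K) (ρ (of x₀)) with hw
  have e1 : w = (φ ^ (K + K)) u := by rw [pow_add]; simp [hu, hw]
  have e2 : u = (φ⁻¹ ^ (K + K)) w := by rw [e1, inv_pow]; simp
  have a1 : ∀ n g, 2 ^ n * hi legp ((φ ^ n) g) ≤ hi legp g := by
    intro n g
    induction n with
    | zero => simp
    | succ n ih =>
      refine le_trans ?_ ih
      rw [pow_succ, mul_assoc, pow_succ', MulAut.mul_apply]
      exact mul_le_mul_of_nonneg_left (hd _) (by positivity)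
  have a2 := a1 (K + K) u
  rw [← e1, pow_add] at a2
  have a3 := (hm.pow rm (K + K)).hi_le rm w
  rw [← e2] at a3
  have a4 := hi_le_hl legp u
  have a5 := hi_le_hl legm w
  have a6 := hi_nonneg legp w
  have a7 : (K : ℝ) ≤ 2 ^ K := by exact_mod_cast Nat.lt_two_pow_self.le
  have a8 : (0 : ℝ) ≤ K := by positivity
  have a9 : (K : ℝ) * K ≤ 2 ^ K * 2 ^ K := mul_le_mul a7 a7 a8 (by positivity)
  have b1 : (K : ℝ) * hi legm u ≤ K * hl w := mul_le_mul_of_nonneg_left (a3.trans a5) a8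
  have b2 : (K : ℝ) * hl w ≤ K * (K * hi legp w) := mul_le_mul_of_nonneg_left h1.le a8
  nlinarith

end Pool.Agent.Lib.MP21ae20
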