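import Pool.Agent.Lib.MP_21ae20_al.B6

/-! Construction of the automorphisms. -/

namespace Pool.Agent.Lib.MP21ae20

open FreeGroup List Filter Topology

variable {α : Type} [DecidableEq α]

lemma exists_loop {a b : α} (js : List α) (hjs : ∀ j ∈ js, j ≠ a ∧ j ≠ b)
    (x' y' : Lt α) (h1 : (b, false) = x' ∨ (b, false) = y') (h2 : x'.2 ≠ y'.2) :
    ∃ x y : Lt α, ((b, false) = x ∨ (b, false) = y) ∧ x.2 ≠ y.2 ∧ ∃ σ, Mv (lg x y) (lg x' y') σ ∧
      ∀ j ∈ js, Rch a σ j := by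
  induction js with
  | nil => exact ⟨x', y', h1, h2, 1, Mv.one (red_lg _ _), by simp⟩
  | cons j js ih =>
    obtain ⟨x, y, i1, i2, σ, i3, i4⟩ := ih (fun j hj => hjs j (mem_cons_of_mem _ hj))
    obtain ⟨j1, j2⟩ := hjs j mem_cons_self
    obtain ⟨M₁, m1, -, -, -, -, -, -, r1⟩ := exists_move (j, true) (b, false)
      [(b, false), (a, false)] rfl (by simp [j1.symm, j2.symm])
    obtain ⟨M₂, m2, -⟩ := exists_move (b, false) (j, true) [(j, true)] rfl (by simp [j2])
    have n1 := m1 (b, false) (j, true) (Or.inr rfl) (by simp)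
    have n2 := m2 x y i1 i2
    refine ⟨(j, true), (b, false), Or.inr rfl, by simp, σ * (M₂ * M₁), (n1.mul n2).mul i3, ?_⟩
    intro k hk
    rcases mem_cons.1 hk with rfl | hk
    · exact (n1.mul n2).rch_left i3 (n1.rch_left n2 (r1 (a, false) (by simp)))
    · exact (n1.mul n2).rch_right i3 (i4 k hk)

omit [DecidableEq α] in
lemma first_diff {a b c : α} {s : Lt α → List (Lt α)}
    (sa : s (a, true) = [(b, false), (a, true)]) (sb : s (b, false) = [(b, false)])
    (hd : ∀ (w : List (Lt α)) m, w.flatMap s = (a, true) :: m →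
      ∃ m', m = (a, true) :: (c, false) :: m')
    {u v t r r' : List (Lt α)} {p q : Lt α} (h1 : ((a, true) :: u).flatMap s = t ++ p :: r)
    (h2 : ((b, false) :: v).flatMap s = t ++ q :: r') (hpq : p ≠ q) :
    p = (a, true) ∨ q = (a, true) := by
  rw [flatMap_cons, sa] at h1
  rw [flatMap_cons, sb] at h2
  rcases t with _ | ⟨t₁, t⟩
  · simp only [cons_append, nil_append, cons.injEq] at h1 h2
    exact absurd (h1.1.symm.trans h2.1) hpq
  simp only [cons_append, nil_append, cons.injEq] at h1 h2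
  replace h1 := h1.2
  replace h2 := h2.2
  rcases t with _ | ⟨t₂, t⟩
  · simp only [nil_append, cons.injEq] at h1
    exact Or.inl h1.1.symm
  simp only [cons_append, cons.injEq] at h1 h2
  obtain ⟨rfl, h1⟩ := h1
  obtain ⟨m, hm⟩ := hd _ _ h2
  rcases t with _ | ⟨t₃, t⟩
  · simp only [nil_append, cons.injEq] at hm
    exact Or.inr hm.1
  simp only [cons_append, cons.injEq] at h1 hm
  obtain ⟨rfl, hm⟩ := hm
  obtain ⟨m', hm'⟩ := hd _ _ h1
  rcases t with _ | ⟨t₄, t⟩
  · simp only [nil_append, cons.injEq] at hm'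
    exact Or.inl hm'.1
  simp only [cons_append, cons.injEq] at hm hm'
  have := hm.1.symm.trans hm'.1
  simp at this

lemma flatMap_im_invRev (σ : MulAut (FreeGroup α)) (w : List (Lt α)) :
    (invRev w).flatMap (im σ) = invRev (w.flatMap (im σ)) := by
  induction w with
  | nil => rfl
  | cons x w ih => rw [invRev_cons', flatMap_append, ih, flatMap_cons, flatMap_cons, invRev_append,
      im_li, flatMap_nil, append_nil]

lemma exists_prev {a b c : α} (hab : a ≠ b) (hac : a ≠ c) (hbc : b ≠ c) :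
    ∃ σ, Mv (lg (a, true) (b, false)) (lg (c, false) (b, true)) σ ∧
      Prev (lg (a, true) (b, false)) (lg (c, false) (b, true)) σ := by
  obtain ⟨M₁, m1, -, e1, e2, -, -, e3, -⟩ := exists_move (a, true) (b, false) [(b, false)] rfl
    (by simp [hab.symm])
  obtain ⟨M₂, m2, -, f1, f2, -, -, f3, -⟩ := exists_move (c, false) (a, true)
    [(a, true), (a, true)] rfl (by simp [hac])
  have n1 := m1 (c, false) (a, true) (Or.inr rfl) (by simp)
  have n2 := m2 (c, false) (b, true) (Or.inl rfl) (by simp)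
  have n := n1.mul n2
  have g : ∀ z : Lt α, z.1 ≠ c → im M₂ z = [z] := fun z hz => (f3 z hz).1
  have sa : im (M₂ * M₁) (a, true) = [(b, false), (a, true)] := by
    rw [n1.im_mul n2, e1]; simp [g, hac, hbc]
  have so : ∀ z : Lt α, z.1 ≠ a → im (M₂ * M₁) z = im M₂ z := fun z hz => by
    rw [n1.im_mul n2, (e3 z hz).1]; simp
  have sb : im (M₂ * M₁) (b, false) = [(b, false)] := by rw [so _ hab.symm, g _ hbc]
  have hd : ∀ (w : List (Lt α)) m, w.flatMap (im (M₂ * M₁)) = (a, true) :: m →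
      ∃ m', m = (a, true) :: (c, false) :: m' := by
    intro w m h
    rcases w with _ | ⟨z, w⟩
    · simp at h
    rw [flatMap_cons] at h
    rcases letter_cases (a, true) z with rfl | rfl | hz
    · simp [sa] at h
    · rw [im_li, sa] at h
      simp [invRev] at h
    rw [so z hz] at h
    rcases letter_cases (c, false) z with rfl | rfl | hz'
    · rw [f1] at h
      simp only [cons_append, nil_append, cons.injEq, true_and] at h
      exact ⟨_, h.symm⟩
    · rw [f2] at h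
      simp [li, hac.symm] at h
    · rw [g z hz'] at h
      simp only [cons_append, cons.injEq] at h
      exact absurd (congrArg Prod.fst h.1) hz
  refine ⟨_, n, fun u p q v hu hv hpq hne => ?_⟩
  obtain ⟨s, t, r, h1, h2, h3⟩ := mul_decomp ((M₂ * M₁) (mk (u ++ [p]))) ((M₂ * M₁) (mk (q :: v)))
  rw [n.tt.toWord n.red hu] at h1
  rw [n.tt.toWord n.red hv] at h2
  have c1 := n.tt _ hu
  have c2 := n.tt _ hv
  rw [h1] at c1
  rw [h2] at c2
  have hred : IsReduced (s ++ r) := h3 ▸ isReduced_toWord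
  rw [ill, ← mul_mk, _root_.map_mul, h3, lc_ill_zero]
  refine IsChain.append c1.left_of_append c2.right_of_append fun x hx y hy => ?_
  obtain ⟨s', rfl⟩ := getLast?_eq_some_iff.1 hx
  obtain ⟨r', rfl⟩ := head?_eq_some_iff.1 hy
  have hxy : y ≠ li x := by
    rw [isReduced_iff, append_assoc] at hred
    exact (isChain_cons_cons.1 hred.right_of_append).1
  have h4 : (li p :: invRev u).flatMap (im (M₂ * M₁)) = invRev t ++ li x :: invRev s' := by
    rw [← invRev_concat, flatMap_im_invRev, h1, invRev_append, invRev_concat]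
  have h5 : li x = (a, true) ∨ y = (a, true) := by
    simp only [lg, hne, ne_eq, not_false_eq_true, true_and, not_not] at hpq
    rcases hpq with ⟨d1, rfl⟩ | ⟨d1, rfl⟩
    · rw [d1] at h4
      exact first_diff sa sb hd h4 h2 hxy.symm
    · rw [d1] at h4
      exact (first_diff sa sb hd h2 h4 hxy).symm
  refine ⟨hxy, ?_⟩
  rintro (⟨d1, d2⟩ | ⟨d1, d2⟩) <;> rw [d1, d2] at h5 <;> simp [hab.symm] at h5

omit [DecidableEq α] in
lemma twoConn_big {a b c : α} (hab : a ≠ b) (hac : a ≠ c) (hbc : b ≠ c) {E : Lt α → Lt α → Prop}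
    (h1 : ∀ p q, p ≠ a → q ≠ a → E (p, false) (q, true)) (h2 : E (b, false) (a, true))
    (h3 : E (c, true) (a, true)) (h4 : E (a, false) (b, true)) (h5 : E (a, false) (c, true)) :
    TwoConn E := by
  intro d v hv
  obtain ⟨p₀, p1, p2⟩ : ∃ p, p ≠ a ∧ (p, false) ≠ d := by
    by_cases h : (b, false) = d
    · exact ⟨c, hac.symm, by rw [← h]; simp [hbc.symm]⟩
    · exact ⟨b, hab.symm, h⟩
  obtain ⟨q₀, q1, q2⟩ : ∃ q, q ≠ a ∧ (q, true) ≠ d := by
    by_cases h : (b, true) = d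
    · exact ⟨c, hac.symm, by rw [← h]; simp [hbc.symm]⟩
    · exact ⟨b, hab.symm, h⟩
  have core : ∀ x : Lt α, x.1 ≠ a → x ≠ d → (v x ↔ v (p₀, false)) := by
    rintro ⟨i, _ | _⟩ hi hd
    · exact (hv _ _ hd q2 (h1 i q₀ hi q1)).trans (hv _ _ p2 q2 (h1 p₀ q₀ p1 q1)).symm
    · exact (hv _ _ p2 hd (h1 p₀ i p1 hi)).symm
  have all : ∀ x : Lt α, x ≠ d → (v x ↔ v (p₀, false)) := by
    intro x hd
    rcases letter_cases (a, true) x with rfl | rfl | h
    · by_cases h : (b, false) = d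
      · have : (c, true) ≠ d := by rw [← h]; simp
        exact (hv _ _ this hd h3).symm.trans (core _ hac.symm this)
      · exact (hv _ _ h hd h2).symm.trans (core _ hab.symm h)
    · by_cases h : (b, true) = d
      · have : (c, true) ≠ d := by rw [← h]; simp [hbc.symm]
        exact (hv _ _ hd this h5).trans (core _ hac.symm this)
      · exact (hv _ _ hd h h4).trans (core _ hab.symm h)
    · exact core x h hd
  exact fun x y hx hy => (all x hx).trans (all y hy).symm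

/-- the two halves for the cube of a move sequence -/
lemma halves {x₀ a b : α} {φ : MulAut (FreeGroup α)} {leg : Lt α → Lt α → Prop}
    (H : Mv leg leg φ) (hb : leg (x₀, true) (x₀, true)) (hr : ∀ i, Rch a φ i) (hab : Rch b φ a)
    {lp lm : List (Lt α)} {x y : Lt α} (hx : x.1 = a) (hy : y.1 = b) (h1 : lp <:+: im φ x)
    (h2 : lm <:+: im φ⁻¹ y) (h3 : 3 ≤ lp.length) (h4 : 3 ≤ lm.length) :
    Half x₀ (φ * (φ * φ)) leg lp ∧ Half x₀ (φ * (φ * φ))⁻¹ (coh fun _ => false) lm := by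
  have o1 : ∀ z, Occ lp (im (φ * (φ * φ)) z) := fun z =>
    occ_of_reach (H.mul H).tt H.tt H.red (hx ▸ (H.rch_left H (hr z.1)).1 z.2) h1
  have o2 : ∀ z, Occ lm (im (φ * (φ * φ))⁻¹ z) := fun z => by
    rw [show (φ * (φ * φ))⁻¹ = φ⁻¹ * (φ * φ)⁻¹ by group]
    refine occ_of_reach (H.mul H).tm H.tm (red_coh _) ?_ h2
    obtain ⟨p, p1, p2⟩ := (hr z.1).2 z.2
    obtain ⟨q, q1, q2⟩ := hab.2 p.2
    refine ⟨q, ?_, hy ▸ q2⟩
    rw [H.im_mul' H]
    exact mem_flatMap.2 ⟨p, p1, by rw [← p2] at q1; exact q1⟩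
  exact ⟨⟨H.red, ((H.mul H).mul H).tt, by rintro rfl; simp at h3,
    fun z => h3.trans (o1 z).length_le, o1, hb⟩, ⟨red_coh _, ((H.mul H).mul H).tm,
    by rintro rfl; simp at h4, fun z => h4.trans (o2 z).length_le, o2, rfl⟩⟩

theorem exists_dyn_big [Finite α] {a b c : α} (hab : a ≠ b) (hac : a ≠ c) (hbc : b ≠ c) (x₀ : α) :
    ∃ φ legp legm lp lm, Dyn x₀ φ legp legm lp lm := by
  have := Fintype.ofFinite α
  set L := (Finset.univ.filter (fun p : α × α => p.1 ≠ a ∧ p.2 ≠ a)).toList with hL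
  have mL : ∀ p, p ∈ L ↔ p.1 ≠ a ∧ p.2 ≠ a := by simp [hL]
  set β₀ : List (Lt α) := L.flatMap (fun p => [(p.1, true), (p.2, true)]) with hβ₀
  set β : List (Lt α) := ((b, true) :: β₀) ++ [(b, true)] with hβ
  have mβ : ∀ z ∈ β, z.1 ≠ a ∧ z.2 = true := by
    intro z hz
    simp only [hβ, hβ₀, mem_append, mem_cons, mem_flatMap, mL, not_mem_nil, or_false] at hz
    rcases hz with (rfl | ⟨p, hp, rfl | rfl⟩) | rfl
    exacts [⟨hab.symm, rfl⟩, ⟨hp.1, rfl⟩, ⟨hp.2, rfl⟩, ⟨hab.symm, rfl⟩]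
  obtain ⟨M₁, m1, -, -, -, e1, -, e2, r1⟩ := exists_move (a, true) (b, false) (invRev β)
    (by rw [hβ, invRev_concat]; rfl) (fun z hz => by simpa using mβ _ (mem_invRev.1 hz))
  obtain ⟨M₂, m2, -, -, -, -, e3, -, r2⟩ := exists_move (b, false) (a, true)
    [(a, true), (a, true), (c, true)] rfl (by simp [hab, hbc.symm])
  obtain ⟨x, y, l1, l2, M₃, n3, r3⟩ := exists_loop (a := a) (b := b)
    (Finset.univ.filter (fun j => j ≠ a ∧ j ≠ b)).toList (by simp) (a, true) (b, false)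
    (Or.inr rfl) (by simp)
  obtain ⟨M₄, n4, pv⟩ := exists_prev hab hac hbc
  obtain ⟨M₅, m5, -⟩ := exists_move (c, false) (b, true) [(b, true)] rfl (by simp [hbc])
  obtain ⟨M₆, m6, -, e6, -⟩ := exists_move (a, true) (c, false) [(c, false), (c, false)] rfl
    (by simp [hac.symm])
  have n1 := m1 (b, false) (a, true) (Or.inr rfl) (by simp)
  have n2 := m2 x y l1 l2
  have n5 := m5 (a, true) (c, false) (Or.inr rfl) (by simp)
  have n6 := m6 (a, true) (b, false) (Or.inl rfl) (by simp)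
  have k2 := n1.mul n2
  have k3 := k2.mul n3
  have k4 := k3.mul n4
  have k5 := k4.mul n5
  have k6 := k5.mul n6
  set φ := M₆ * (M₅ * (M₄ * (M₃ * (M₂ * M₁)))) with hφ
  have lift3 : ∀ {i j}, Rch i (M₃ * (M₂ * M₁)) j → Rch i φ j := fun h =>
    k5.rch_left n6 (k4.rch_left n5 (k3.rch_left n4 h))
  have hr : ∀ i, Rch a φ i := by
    intro i
    by_cases h1 : i = a
    · exact h1 ▸ k6.rch_self i
    by_cases h2 : i = b
    · exact h2 ▸ lift3 (k2.rch_left n3 (n1.rch_right n2 (r2 (a, true) (by simp))))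
    · exact lift3 (k2.rch_right n3 (r3 i (by simp [h1, h2])))
  have hba : Rch b φ a := lift3 (k2.rch_left n3 (n1.rch_left n2 (r1 (b, false) (by
    rw [hβ, invRev_concat]; exact mem_cons_self))))
  set lm : List (Lt α) := (b, true) :: ((β ++ [(a, true)]) ++ ((β ++ [(a, true)]) ++ [(c, true)]))
    with hlm
  have p1 : [(c, false), (c, false), (a, true)] <:+: im φ (a, true) := by
    rw [hφ, k5.im_mul n6]
    have := infix_flatMap_of_mem (k5.sv (a, true)) (im M₆)
    rwa [e6] at this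
  have p2 : lm <:+: im φ⁻¹ (b, true) := by
    have kk := ((n3.mul n4).mul n5).mul n6
    have e : φ = (M₆ * (M₅ * (M₄ * M₃))) * (M₂ * M₁) := by rw [hφ]; group
    rw [e, k2.im_mul' kk]
    refine IsInfix.trans ?_ (infix_flatMap_of_mem (kk.sv' (b, true)) _)
    rw [n1.im_mul' n2, show ((b, true) : Lt α) = li (b, false) from rfl, e3]
    rw [invRev_invRev] at e1
    simp only [flatMap_cons, e1, (e2 (li (b, false)) hab.symm).2, (e2 (c, true) hac.symm).2,
      flatMap_nil, append_nil, hlm]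
    exact infix_rfl
  obtain ⟨h1, h2⟩ := halves (x₀ := x₀) k6 ⟨(li_ne _).symm, by
    rintro (⟨d1, d2⟩ | ⟨d1, d2⟩)
    · simp at d2
    · exact hab ((congrArg Prod.fst d2).symm.trans (congrArg Prod.fst d1))⟩ hr hba rfl rfl p1 p2
    (by simp) (by simp [hlm, hβ]; omega)
  refine ⟨_, _, _, _, _, h1, h2, twoConn_big hab hac hbc ?_ ?_ ?_ ?_ ?_,
    v2_of_decay (red_coh _) h2.tt fun g => ?_⟩
  · intro p q hp hq
    right
    have i1 : [(p, true), (q, true)] <:+: β₀ :=
      infix_of_mem_flatten (mem_map.2 ⟨(p, q), (mL _).2 ⟨hp, hq⟩, rfl⟩)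
    obtain ⟨s, t, i1⟩ := i1
    exact ⟨(b, true) :: (b, true) :: s, t ++ (b, true) :: (a, true) :: (β ++ [(a, true), (c, true)]),
      by rw [hlm]; nth_rewrite 2 [hβ]; rw [← i1]; simp [li]⟩
  · exact Or.inr ⟨(b, true) :: (b, true) :: β₀, β ++ [(a, true), (c, true)], by simp [hlm, hβ, li]⟩
  · exact Or.inl ⟨[(c, false)], [], by simp [li]⟩
  · exact Or.inr ⟨(b, true) :: β, β₀ ++ [(b, true), (a, true), (c, true)], by simp [hlm, hβ, li]⟩
  · exact Or.inr ⟨(b, true) :: (β ++ (a, true) :: β), [], by simp [hlm, li]⟩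
  · have a1 := (k6.mul k6).tt.hi_le k6.red g
    have a2 := k3.tt.hi_le k3.red ((φ * φ) g)
    have a3 := n4.tt.hi_half n4.red pv ((M₃ * (M₂ * M₁)) ((φ * φ) g))
    have a4 := (n5.mul n6).tt.hi_le n6.red (M₄ ((M₃ * (M₂ * M₁)) ((φ * φ) g)))
    have e : (φ * (φ * φ)) g = (M₆ * M₅) (M₄ ((M₃ * (M₂ * M₁)) ((φ * φ) g))) := rfl
    rw [e]
    linarith

omit [DecidableEq α] in
lemma sign_change {P : Lt α → Prop} {s t : List (Lt α)} {p q : Lt α} (hp : p ∈ s) (hq : q ∈ t)
    (h1 : P p) (h2 : ¬ P q) : ∃ p' q', [p', q'] <:+: s ++ t ∧ P p' ∧ ¬ P q' := by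
  by_contra hcon
  push Not at hcon
  have hc : (s ++ t).IsChain (fun x y => P x → P y) :=
    isChain_iff_forall_rel_of_append_cons_cons.2 fun x y l₁ l₂ h => hcon x y ⟨l₁, l₂, by simp [h]⟩
  have : Trans (fun x y => P x → P y) (fun x y => P x → P y) (fun x y => P x → P y) :=
    ⟨fun f g h => g (f h)⟩
  exact h2 ((pairwise_append.1 (isChain_iff_pairwise.1 hc)).2.2 p hp q hq h1)

lemma cross_of_hi {ε : α → Bool} {g : FreeGroup α} (h : 0 < hi (coh ε) g) (s : Bool) :
    ∃ p q, sg ε p = s ∧ sg ε q = !s ∧ q ≠ li p ∧ Cross g (li p) q := by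
  obtain ⟨u, w, hw, rfl⟩ := exists_cyc g
  rw [hi, (qs_ill _).hm_conj] at h
  obtain ⟨n, hn⟩ := (qs_ill _).exists_pos h
  rw [ill, toWord_pow_cyc hw, lc_pos_iff] at hn
  obtain ⟨r, x, t, h1, p, q, t', h2, h3⟩ := hn
  have hp : p ∈ w := mem_wp (n := n) (by rw [h1, h2]; simp)
  have hq : q ∈ w := mem_wp (n := n) (by rw [h1, h2]; simp)
  obtain ⟨p', q', hp', hq', a1, a2⟩ : ∃ p' q', p' ∈ w ∧ q' ∈ w ∧ sg ε p' = s ∧ ¬ sg ε q' = s := by
    by_cases h4 : sg ε p = s
    · exact ⟨p, q, hp, hq, h4, fun h5 => h3 (h4.trans h5.symm)⟩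
    · refine ⟨q, p, hq, hp, ?_, h4⟩
      unfold coh at h3
      revert h3 h4
      cases sg ε p <;> cases sg ε q <;> cases s <;> simp
  obtain ⟨x, y, b1, b2, b3⟩ := sign_change (P := fun z => sg ε z = s) hp' hq' a1 a2
  refine ⟨x, y, b2, Bool.eq_not.2 b3, ?_, cross_of_sub (n := 2) hw (by simpa [wp] using b1)⟩
  obtain ⟨l₁, l₂, b1⟩ := b1
  have := isReduced_iff.1 (cyc_iff.1 hw)
  rw [← b1, append_assoc] at this
  exact (isChain_cons_cons.1 this.right_of_append).1

omit [DecidableEq α] in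
lemma twoConn_two {a b : α} (hall : ∀ i, i = a ∨ i = b) {E : Lt α → Lt α → Prop}
    (h : ∀ s t, E (a, s) (b, t) ∨ E (b, t) (a, s)) (hab : a ≠ b) : TwoConn E := by
  intro d v hv
  have e : ∀ s t, (a, s) ≠ d → (b, t) ≠ d → (v (a, s) ↔ v (b, t)) := fun s t h1 h2 =>
    (h s t).elim (hv _ _ h1 h2) (fun h => (hv _ _ h2 h1 h).symm)
  obtain ⟨s₀, hs⟩ : ∃ s, (a, s) ≠ d := ⟨!d.2, fun h => by simpa using congrArg Prod.snd h⟩
  obtain ⟨t₀, ht⟩ : ∃ s, (b, s) ≠ d := ⟨!d.2, fun h => by simpa using congrArg Prod.snd h⟩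
  have all : ∀ x : Lt α, x ≠ d → (v x ↔ v (a, s₀)) := by
    rintro ⟨i, s⟩ hd
    rcases hall i with rfl | rfl
    · exact (e s t₀ hd ht).trans (e s₀ t₀ hs ht).symm
    · exact (e s₀ s hs hd).symm
  exact fun x y hx hy => (all x hx).trans (all y hy).symm

theorem exists_dyn_two [Finite α] {a b : α} (hab : a ≠ b) (hall : ∀ i, i = a ∨ i = b) :
    ∃ φ legp legm lp lm, Dyn a φ legp legm lp lm := by
  set ε : α → Bool := fun i => decide (i = b) with hε
  obtain ⟨M₁, -, m1, e1, -, e1', -, e3, r1⟩ := exists_move (a, true) (b, false) [(b, false)] rfl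
    (by simp [hab.symm])
  obtain ⟨M₂, -, m2, f1, -, -, f2, f3, r2⟩ := exists_move (b, false) (a, true) [(a, true)] rfl
    (by simp [hab])
  have n1 := m1 ε (by simp [sg, hε, hab])
  have n2 := m2 ε (by simp [sg, hε, hab])
  have k2 := n1.mul n2
  have k3 := k2.mul n1
  have hr : ∀ i, Rch a (M₁ * (M₂ * M₁)) i := by
    intro i
    rcases hall i with rfl | rfl
    · exact k3.rch_self i
    · exact k2.rch_left n1 (n1.rch_right n2 (r2 (a, true) (by simp)))
  have g1 := e3 (b, false) hab.symm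
  have g2 := e3 (b, true) hab.symm
  have g3 := f3 (a, true) hab
  replace f2 : im M₂⁻¹ (b, true) = [(b, true), (a, true)] := f2
  replace e1' : im M₁⁻¹ (a, true) = [(b, true), (a, true)] := e1'
  have p1 : [(b, false), (a, true), (b, false)] <:+: im (M₁ * (M₂ * M₁)) (a, true) := by
    rw [k2.im_mul n1, n1.im_mul n2]
    simp only [e1, f1, g1, g3, flatMap_cons, flatMap_nil, cons_append, nil_append, append_nil]
    exact ⟨[], _, rfl⟩
  have p2 : [(a, true), (b, true), (a, true)] <:+: im (M₁ * (M₂ * M₁))⁻¹ (a, true) := by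
    rw [k2.im_mul' n1]
    simp only [n1.im_mul' n2, e1', f2, g2, g3, flatMap_cons, flatMap_nil, cons_append, nil_append,
      append_nil]
    exact ⟨[(b, true), (b, true)], [], rfl⟩
  obtain ⟨h1, h2⟩ := halves (x₀ := a) k3 rfl hr (k3.rch_self a) rfl rfl p1 p2 (by simp) (by simp)
  refine ⟨_, _, _, _, _, h1, h2, twoConn_two hall ?_ hab, fun K => ⟨0, fun ρ => ?_⟩⟩
  · rintro (_ | _) (_ | _)
    · exact Or.inl (Or.inl ⟨[(b, false)], [], rfl⟩)
    · exact Or.inl (Or.inr ⟨[], [(a, true)], rfl⟩)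
    · exact Or.inr (Or.inr ⟨[(a, true)], [], rfl⟩)
    · exact Or.inr (Or.inl ⟨[], [(b, false)], rfl⟩)
  · simp only [pow_zero, inv_one, MulAut.one_apply]
    have gd : ∀ leg, hi leg (ρ (of a)) ≤ 0 → Gd K leg (ρ (of a)) := fun leg h =>
      (mul_nonpos_of_nonneg_of_nonpos (by positivity) h).trans (qs_norm.hm_nonneg _)
    by_contra hcon
    rw [not_or] at hcon
    have c1 := cross_of_hi (not_le.1 fun h => hcon.1 (gd _ h))
    have c2 := cross_of_hi (not_le.1 fun h => hcon.2 (gd _ h))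
    refine whitehead ρ (I := {a}) ⟨a, rfl⟩ ⟨b, hab.symm⟩ (E := Cross (ρ (of a)))
      (fun x y h => ⟨_, Or.inl ⟨1, of a, InF.of rfl, by simp⟩, h⟩) (twoConn_two hall ?_ hab)
    have fin : ∀ (ε' : α → Bool) s t s', (∀ p q : Lt α, sg ε' p = s' → sg ε' q = !s' →
        q ≠ li p → (li p = (a, s) ∧ q = (b, t)) ∨ (li p = (b, t) ∧ q = (a, s))) →
        (∃ p q, sg ε' p = s' ∧ sg ε' q = !s' ∧ q ≠ li p ∧ Cross (ρ (of a)) (li p) q) →
        Cross (ρ (of a)) (a, s) (b, t) ∨ Cross (ρ (of a)) (b, t) (a, s) := by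
      rintro ε' s t s' h ⟨p, q, d1, d2, d3, d4⟩
      rcases h p q d1 d2 d3 with ⟨d5, d6⟩ | ⟨d5, d6⟩ <;> rw [d5, d6] at d4
      exacts [Or.inl d4, Or.inr d4]
    rintro (_ | _) (_ | _)
    · refine fin _ _ _ true ?_ (c2 true)
      rintro ⟨i, s⟩ ⟨j, t⟩
      rcases hall i with rfl | rfl <;> rcases hall j with rfl | rfl <;> cases s <;> cases t <;>
        simp [sg, li, hab, hab.symm]
    · refine fin _ _ _ true ?_ (c1 true)
      rintro ⟨i, s⟩ ⟨j, t⟩
      rcases hall i with rfl | rfl <;> rcases hall j with rfl | rfl <;> cases s <;> cases t <;>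
        simp [sg, li, hε, hab, hab.symm]
    · refine fin _ _ _ false ?_ (c1 false)
      rintro ⟨i, s⟩ ⟨j, t⟩
      rcases hall i with rfl | rfl <;> rcases hall j with rfl | rfl <;> cases s <;> cases t <;>
        simp [sg, li, hε, hab, hab.symm]
    · refine fin _ _ _ false ?_ (c2 false)
      rintro ⟨i, s⟩ ⟨j, t⟩
      rcases hall i with rfl | rfl <;> rcases hall j with rfl | rfl <;> cases s <;> cases t <;>
        simp [sg, li, hab, hab.symm]

end Pool.Agent.Lib.MP21ae20
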