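import Pool.Agent.Lib.MP_21ae20_al.B7

/-! Free factors are generated by parts of bases; Whitehead reduction of primitive elements. -/

namespace Pool.Agent.Lib.MP21ae20

open FreeGroup List Filter Topology

variable {α : Type} [DecidableEq α]

lemma mem_stdF {I : Set α} {g : FreeGroup α} : g ∈ stdF I ↔ InF I g := Iff.rfl

lemma stdF_eq_closure (I : Set α) : stdF I = Subgroup.closure (of '' I) := by
  apply le_antisymm
  · intro g hg
    have : ∀ w : List (Lt α), (∀ x ∈ w, x.1 ∈ I) → mk w ∈ Subgroup.closure (of '' I) := by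
      intro w hw
      induction w with
      | nil => exact one_mem _
      | cons x w ih =>
        rw [mk_cons]
        refine mul_mem ?_ (ih fun y hy => hw y (mem_cons_of_mem _ hy))
        have h := Subgroup.subset_closure (k := of '' I) ⟨x.1, hw x mem_cons_self, rfl⟩
        obtain ⟨j, _ | _⟩ := x
        · exact inv_mem h
        · exact h
    simpa only [mk_toWord] using this _ hg
  · rw [Subgroup.closure_le]
    rintro _ ⟨i, hi, rfl⟩
    exact InF.of hi

lemma stdF_singleton (i : α) : stdF {i} = Subgroup.zpowers (of i) := by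
  rw [stdF_eq_closure, Set.image_singleton, Subgroup.zpowers_eq_closure]

lemma of_mem_stdF {I : Set α} {i : α} : of i ∈ stdF I ↔ i ∈ I :=
  ⟨fun h => h (i, true) (by simp), InF.of⟩

lemma stdF_pff {I : Set α} (h1 : I.Nonempty) (h2 : Iᶜ.Nonempty) : IsProperFreeFactor (stdF I) := by
  classical
  refine ⟨⟨stdF Iᶜ, ?_⟩, ?_, ?_⟩
  · set κ : FreeGroup α →* Monoid.Coprod (stdF I) (stdF Iᶜ) := FreeGroup.lift fun i =>
      if h : i ∈ I then Monoid.Coprod.inl ⟨of i, InF.of h⟩ else Monoid.Coprod.inr ⟨of i, InF.of h⟩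
      with hκ
    have gen : ∀ (J : Set α) (ι : stdF J →* Monoid.Coprod (stdF I) (stdF Iᶜ)),
        (∀ i (h : i ∈ J), κ (of i) = ι ⟨of i, InF.of h⟩) → ∀ a : stdF J, κ a = ι a := by
      rintro J ι hι ⟨a, ha⟩
      have ha' := ha
      rw [stdF_eq_closure] at ha'
      induction ha' using Subgroup.closure_induction with
      | mem x hx =>
        obtain ⟨i, hi, rfl⟩ := hx
        exact hι i hi
      | one => exact (_root_.map_one κ).trans (_root_.map_one ι).symm
      | mul x y hx hy ihx ihy =>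
        rw [← stdF_eq_closure] at hx hy
        rw [_root_.map_mul, ihx hx, ihy hy, ← _root_.map_mul]
        rfl
      | inv x hx ihx =>
        rw [← stdF_eq_closure] at hx
        rw [_root_.map_inv, ihx hx, ← _root_.map_inv]
        rfl
    have e1 : κ.comp (Monoid.Coprod.lift (stdF I).subtype (stdF Iᶜ).subtype) = MonoidHom.id _ := by
      apply Monoid.Coprod.hom_ext
      · ext a : 1
        exact gen I Monoid.Coprod.inl (fun i h => by simp [hκ, h]) a
      · ext a : 1
        exact gen Iᶜ Monoid.Coprod.inr (fun i h => by simp [hκ, show i ∉ I from h]) a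
    have e2 : (Monoid.Coprod.lift (stdF I).subtype (stdF Iᶜ).subtype).comp κ = MonoidHom.id _ := by
      ext i : 1
      by_cases h : i ∈ I <;> simp [hκ, h]
    exact (MonoidHom.toMulEquiv _ κ e1 e2).bijective
  · obtain ⟨i, hi⟩ := h1
    intro h
    have := of_mem_stdF.2 hi
    rw [h] at this
    simp at this
  · obtain ⟨i, hi⟩ := h2
    intro h
    exact hi (of_mem_stdF.1 (h ▸ Subgroup.mem_top _))

lemma pff_std {A : Subgroup (FreeGroup α)} (h : IsProperFreeFactor A) :
    ∃ (ρ : MulAut (FreeGroup α)) (I : Set α), I.Nonempty ∧ Iᶜ.Nonempty ∧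
      A = (stdF I).map ρ.toMonoidHom := by
  obtain ⟨⟨B, hB⟩, h1, h2⟩ := h
  let eA := IsFreeGroup.mulEquiv A
  let eB := IsFreeGroup.mulEquiv B
  let Ψ : FreeGroup (IsFreeGroup.Generators A ⊕ IsFreeGroup.Generators B) →* Monoid.Coprod A B :=
    FreeGroup.lift (Sum.elim (fun a => Monoid.Coprod.inl (eA (of a)))
      (fun b => Monoid.Coprod.inr (eB (of b))))
  let Φ : Monoid.Coprod A B →* FreeGroup (IsFreeGroup.Generators A ⊕ IsFreeGroup.Generators B) :=
    Monoid.Coprod.lift ((FreeGroup.map Sum.inl).comp eA.symm.toMonoidHom)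
      ((FreeGroup.map Sum.inr).comp eB.symm.toMonoidHom)
  have e1 : Φ.comp Ψ = MonoidHom.id _ := by
    ext (a | b) : 1 <;> simp [Φ, Ψ]
  have e2 : Ψ.comp Φ = MonoidHom.id _ := by
    have a1 : Ψ.comp (FreeGroup.map Sum.inl) = Monoid.Coprod.inl.comp eA.toMonoidHom := by
      ext a : 1; simp [Ψ]
    have a2 : Ψ.comp (FreeGroup.map Sum.inr) = Monoid.Coprod.inr.comp eB.toMonoidHom := by
      ext a : 1; simp [Ψ]
    apply Monoid.Coprod.hom_ext
    · ext a : 1
      simpa [Φ] using DFunLike.congr_fun a1 (eA.symm a)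
    · ext a : 1
      simpa [Φ] using DFunLike.congr_fun a2 (eB.symm a)
  let E : FreeGroup (IsFreeGroup.Generators A ⊕ IsFreeGroup.Generators B) ≃* FreeGroup α :=
    (MonoidHom.toMulEquiv Ψ Φ e1 e2).trans (MulEquiv.ofBijective _ hB)
  let e := Equiv.ofFreeGroupEquiv E
  let ρ : MulAut (FreeGroup α) := (freeGroupCongr e.symm).trans E
  have hρ : ∀ a, ρ (of (e (Sum.inl a))) = eA (of a) := by
    intro a
    simp [ρ, E, Ψ]
  have hA : A = (stdF (Set.range (e ∘ Sum.inl))).map ρ.toMonoidHom := by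
    rw [stdF_eq_closure, MonoidHom.map_closure, ← Set.range_comp, ← Set.range_comp]
    have : A = (⊤ : Subgroup _).map (A.subtype.comp eA.toMonoidHom) := by
      rw [← Subgroup.map_map, Subgroup.map_top_of_surjective _ eA.surjective, ← MonoidHom.range_eq_map,
        Subgroup.range_subtype]
    refine this.trans ?_
    rw [← closure_range_of, MonoidHom.map_closure, ← Set.range_comp]
    congr 2
    funext a
    exact (hρ a).symm
  refine ⟨ρ, _, ?_, ?_, hA⟩
  · by_contra h
    rw [Set.not_nonempty_iff_eq_empty] at h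
    apply h1
    rw [hA, h, stdF_eq_closure]
    simp
  · by_contra h
    rw [Set.not_nonempty_iff_eq_empty, Set.compl_empty_iff] at h
    apply h2
    rw [hA, h, stdF_eq_closure, Set.image_univ, closure_range_of,
      Subgroup.map_top_of_surjective _ ρ.surjective]

/-! ### Whitehead automorphisms -/

def whh (k : α) (a : FreeGroup α) (e e' : α → ℤ) : FreeGroup α →* FreeGroup α :=
  FreeGroup.lift fun i => if i = k then of k else a ^ e i * of i * a ^ e' i

lemma whh_comp (k : α) {a : FreeGroup α} (ha : InF {k} a) (e e' : α → ℤ) :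
    (whh k a (-e) (-e')).comp (whh k a e e') = MonoidHom.id _ := by
  have fix : whh k a (-e) (-e') a = a := hom_fix (I := {k}) (by rintro j rfl; simp [whh]) ha
  ext i : 1
  by_cases h : i = k
  · simp [whh, h]
  · have : whh k a e e' (of i) = a ^ e i * of i * a ^ e' i := by simp [whh, h]
    have h2 : whh k a (-e) (-e') (of i) = a ^ (-e i) * of i * a ^ (-e' i) := by simp [whh, h]
    rw [MonoidHom.comp_apply, this, _root_.map_mul, _root_.map_mul, map_zpow, map_zpow, fix, h2,
      MonoidHom.id_apply]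
    group

open Classical in
lemma exists_wh (a : Lt α) (A : Lt α → Prop) (h1 : A a) (h2 : ¬ A (li a)) :
    ∃ W : MulAut (FreeGroup α), W (of a.1) = of a.1 ∧ ∀ p, W (mk [p]) =
      mk [a] ^ (if A p then 1 else 0 : ℤ) * (if p.1 = a.1 then 1 else mk [p]) *
        mk [a] ^ (-(if A (li p) then 1 else 0 : ℤ)) := by
  have ha : InF {a.1} (mk [a]) := InF.letter rfl
  set e : α → ℤ := fun i => if A (i, true) then 1 else 0
  set e' : α → ℤ := fun i => -(if A (i, false) then 1 else 0)
  refine ⟨MonoidHom.toMulEquiv (whh a.1 (mk [a]) e e') (whh a.1 (mk [a]) (-e) (-e'))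
    (whh_comp _ ha _ _) (by simpa using whh_comp _ ha (-e) (-e')), by simp [whh], fun p => ?_⟩
  change whh a.1 (mk [a]) e e' (mk [p]) = _
  have fix : whh a.1 (mk [a]) e e' (mk [a]) = mk [a] :=
    hom_fix (I := {a.1}) (by rintro j rfl; simp [whh]) ha
  rcases letter_cases a p with rfl | rfl | h
  · simp [fix, h1, h2]
  · rw [mk_li, _root_.map_inv, fix]
    simp [h1, h2]
  · obtain ⟨i, _ | _⟩ := p
    · rw [mk_false, _root_.map_inv]
      simp only [whh, lift_apply_of, show i ≠ a.1 from h, if_false, e, e', li, Bool.not_false]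
      group
    · rw [mk_true]
      simp only [whh, lift_apply_of, show i ≠ a.1 from h, if_false, e, e', li, Bool.not_true]

open Classical in
lemma wh_short (a : Lt α) (A : Lt α → Prop) (h1 : A a) (h2 : ¬ A (li a)) {p : Lt α}
    {w : List (Lt α)} (hc : ∀ x y, [x, y] <:+: p :: w ++ [p] → ¬ (A (li x) ↔ A y) → li x = a ∨ y = a)
    (hs : ∃ x y, [x, y] <:+: p :: w ++ [p] ∧ (A (li x) ↔ A y) ∧ (li x = a ∨ y = a)) :
    ∃ W : MulAut (FreeGroup α), W (of a.1) = of a.1 ∧ hl (W (mk (p :: w))) ≤ w.length := by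
  obtain ⟨W, w1, w2⟩ := exists_wh a A h1 h2
  refine ⟨W, w1, ?_⟩
  set e : Lt α → ℤ := fun x => if A x then 1 else 0 with he
  set leg : Lt α → Lt α → Prop := fun x y => ¬ ((A (li x) ↔ A y) ∧ (li x = a ∨ y = a)) with hleg
  have ha : (mk [a]).norm = 1 := norm_red IsReduced.singleton
  have ha' : (mk [li a]).norm = 1 := norm_red IsReduced.singleton
  have step : ∀ x y, (¬ (A (li x) ↔ A y) → li x = a ∨ y = a) →
      ((if x.1 = a.1 then 1 else mk [x]) * mk [a] ^ (e y - e (li x))).norm +
        (if x = a then 1 else 0) + (if ¬ leg x y then 1 else 0) ≤ 1 + if y = a then 1 else 0 := by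
    intro x y h
    have a1 := norm_mul_le (if x.1 = a.1 then 1 else mk [x]) (mk [a] ^ (e y - e (li x)))
    have a2 : (mk [a] ^ (e y - e (li x))).norm = if A (li x) ↔ A y then 0 else 1 := by
      by_cases c1 : A y <;> by_cases c2 : A (li x) <;> simp [he, c1, c2, ha, ha']
    have a3 : (if x.1 = a.1 then 1 else mk [x]).norm = if x.1 = a.1 then 0 else 1 := by
      split_ifs
      · simp
      · exact norm_red IsReduced.singleton
    rw [a2, a3] at a1
    simp only [hleg, not_not]
    rcases letter_cases a x with rfl | rfl | hx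
    · have := li_ne x
      by_cases c1 : A (li x) ↔ A y <;> by_cases c2 : y = x <;> simp_all
    · have := li_ne a
      by_cases c1 : A a ↔ A y <;> by_cases c2 : y = a <;> simp_all
    · have b1 : x ≠ a := fun h => hx (by rw [h])
      have b2 : li x ≠ a := fun h => hx (by rw [← h]; rfl)
      by_cases c1 : A (li x) ↔ A y <;> by_cases c2 : y = a <;> simp_all
  have main : ∀ (w : List (Lt α)) p q,
      (∀ x y, [x, y] <:+: p :: w ++ [q] → ¬ (A (li x) ↔ A y) → li x = a ∨ y = a) →
      (mk [a] ^ (-e p) * W (mk (p :: w)) * mk [a] ^ e q).norm + (if p = a then 1 else 0) +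
        lc (illp leg) (p :: w ++ [q]) ≤ w.length + 1 + if q = a then 1 else 0 := by
    intro w
    induction w with
    | nil =>
      intro p q h
      have := step p q (h p q infix_rfl)
      have e1 : mk [a] ^ (-e p) * W (mk [p]) * mk [a] ^ e q =
          (if p.1 = a.1 then 1 else mk [p]) * mk [a] ^ (e q - e (li p)) := by
        rw [w2]; simp only [he]; group
      have e2 : lc (illp leg) [p, q] = if ¬ leg p q then 1 else 0 := by
        rw [lc, illp_cons_cons, lc_ill_zero.2 (by simp), zero_add]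
        split_ifs <;> rfl
      rw [e1, show [p] ++ [q] = [p, q] from rfl, e2]
      simpa only [length_nil, zero_add] using this
    | cons r w ih =>
      intro p q h
      have a1 := step p r (h p r ⟨[], w ++ [q], by simp⟩)
      have a2 := ih r q (fun x y hxy => h x y (hxy.trans ⟨[p], [], by simp⟩))
      have e1 : mk [a] ^ (-e p) * W (mk (p :: r :: w)) * mk [a] ^ e q =
          ((if p.1 = a.1 then 1 else mk [p]) * mk [a] ^ (e r - e (li p))) *
          (mk [a] ^ (-e r) * W (mk (r :: w)) * mk [a] ^ e q) := by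
        rw [mk_cons p, _root_.map_mul, w2]; simp only [he]; group
      have a3 := norm_mul_le ((if p.1 = a.1 then 1 else mk [p]) * mk [a] ^ (e r - e (li p)))
        (mk [a] ^ (-e r) * W (mk (r :: w)) * mk [a] ^ e q)
      rw [← e1] at a3
      have e2 : lc (illp leg) (p :: r :: w ++ [q]) =
          lc (illp leg) (r :: w ++ [q]) + if ¬ leg p r then 1 else 0 := by
        rw [cons_append, lc, cons_append, illp_cons_cons]
        split_ifs <;> rfl
      rw [e2, length_cons]
      omega
  have a1 := main w p p hc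
  have a2 : 0 < lc (illp leg) (p :: w ++ [p]) := by
    obtain ⟨x, y, ⟨s, t, h⟩, h'⟩ := hs
    exact lc_pos_iff.2 ⟨s, x, y :: t, by rw [← h]; simp, x, y, t, rfl, not_not.2 h'⟩
  have a3 := hl_le_norm (mk [a] ^ (-e p) * W (mk (p :: w)) * mk [a] ^ e p)
  rw [show mk [a] ^ e p = (mk [a] ^ (-e p))⁻¹ by group, hl_conj] at a3
  rw [show mk [a] ^ e p = (mk [a] ^ (-e p))⁻¹ by group] at a1
  refine a3.trans ?_
  exact_mod_cast (by omega : _ ≤ w.length)

omit [DecidableEq α] in
lemma pair_first {z q : Lt α} {w : List (Lt α)} (h : z ∈ w) : ∃ y, [z, y] <:+: w ++ [q] := by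
  obtain ⟨s, t, rfl⟩ := append_of_mem h
  rcases t with _ | ⟨y, t⟩
  · exact ⟨q, s, [], by simp⟩
  · exact ⟨y, s, t ++ [q], by simp⟩

omit [DecidableEq α] in
lemma pair_second {z p : Lt α} {w : List (Lt α)} (h : z ∈ p :: w) :
    ∃ x, [x, z] <:+: p :: w ++ [p] := by
  have : z ∈ w ++ [p] := by simpa [or_comm] using h
  obtain ⟨s, t, h'⟩ := append_of_mem this
  rw [cons_append, h']
  rcases eq_nil_or_concat s with rfl | ⟨s, x, rfl⟩
  · exact ⟨p, [], t, by simp⟩
  · exact ⟨x, p :: s, t, by simp⟩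

/-- Whitehead's reduction for a separable cyclically reduced word using all generators -/
lemma wh_reduce [Finite α] {p : Lt α} {w : List (Lt α)} (hw : IsCyclicallyReduced (p :: w))
    {ρ : MulAut (FreeGroup α)} {I : Set α} (h1 : I.Nonempty) (h2 : Iᶜ.Nonempty)
    (h3 : Sd ρ I (mk (p :: w))) (hall : ∀ i, ∃ z ∈ p :: w, z.1 = i) :
    ∃ (W : MulAut (FreeGroup α)) (i : α), W (of i) = of i ∧ hl (W (mk (p :: w))) ≤ w.length := by
  have := whitehead ρ h1 h2 (E := fun x y => [li x, y] <:+: p :: w ++ [p]) (fun x y h =>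
    ⟨_, h3, by
      have := cross_of_sub (u := 1) (n := 2) hw (h.trans ⟨[], w, by simp [wp]⟩)
      simpa using this⟩)
  simp only [TwoConn, not_forall] at this
  obtain ⟨d, v, hv, x, y, hx, hy, hxy⟩ := this
  set Z : Lt α → Prop := fun z => z ≠ d ∧ ¬ (v z ↔ v (li d)) with hZ
  obtain ⟨z, hz⟩ : ∃ z, Z z := by
    by_cases h : v x ↔ v (li d)
    · exact ⟨y, hy, fun h' => hxy (h.trans h'.symm)⟩
    · exact ⟨x, hx, h⟩
  have nd : ¬ Z d := fun h => h.1 rfl
  have nd' : ¬ Z (li d) := fun h => h.2 Iff.rfl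
  have inner : ∀ x y, [x, y] <:+: p :: w ++ [p] → li x ≠ d → y ≠ d → (Z (li x) ↔ Z y) := by
    intro x y h c1 c2
    have := hv (li x) y c1 c2 (by rwa [li_li])
    simp only [hZ, c1, c2, ne_eq, not_false_eq_true, true_and, this]
  by_cases c1 : ∃ x y, [x, y] <:+: p :: w ++ [p] ∧ ((li x = d ∧ Z y) ∨ (Z (li x) ∧ y = d))
  · obtain ⟨W, hW⟩ := wh_short d (fun z => Z z ∨ z = d) (Or.inr rfl)
      (by rintro (h | h); exacts [nd' h, li_ne d h]) (p := p) (w := w) (fun x y h hc => by
        by_contra hn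
        rw [not_or] at hn
        exact hc (by simp only [hn.1, hn.2, or_false]; exact inner x y h hn.1 hn.2)) (by
        obtain ⟨x, y, h, h'⟩ := c1
        exact ⟨x, y, h, by tauto, by tauto⟩)
    exact ⟨W, _, hW⟩
  have all : ∀ x y, [x, y] <:+: p :: w ++ [p] → (Z (li x) ↔ Z y) := by
    intro x y h
    by_cases d1 : li x = d
    · exact iff_of_false (d1 ▸ nd) fun h' => c1 ⟨x, y, h, Or.inl ⟨d1, h'⟩⟩
    by_cases d2 : y = d
    · exact iff_of_false (fun h' => c1 ⟨x, y, h, Or.inr ⟨h', d2⟩⟩) (d2 ▸ nd)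
    · exact inner x y h d1 d2
  by_cases c2 : ∃ a, Z a ∧ ¬ Z (li a)
  · obtain ⟨a, a1, a2⟩ := c2
    obtain ⟨W, hW⟩ := wh_short a Z a1 a2 (p := p) (w := w) (fun x y h hc => absurd (all x y h) hc) (by
      obtain ⟨u, u1, u2⟩ := hall a.1
      rcases letter_cases a u with rfl | rfl | h
      · obtain ⟨x, h⟩ := pair_second u1
        exact ⟨x, u, h, all _ _ h, Or.inr rfl⟩
      · obtain ⟨y, h⟩ := pair_first (q := p) u1
        exact ⟨_, y, h, all _ _ h, Or.inl (li_li a)⟩
      · exact absurd u2 h)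
    exact ⟨W, _, hW⟩
  · exfalso
    push Not at c2
    have cl : ∀ a, Z (li a) ↔ Z a := fun a => ⟨fun h => by simpa using c2 _ h, c2 a⟩
    have ch : (p :: w).IsChain (fun x y => (Z x ↔ Z y)) :=
      isChain_iff_forall_rel_of_append_cons_cons.2 fun x y l₁ l₂ h =>
        (cl x).symm.trans (all x y ⟨l₁, l₂ ++ [p], by rw [h]; simp⟩)
    have : Trans (fun x y => (Z x ↔ Z y)) (fun x y => (Z x ↔ Z y)) (fun x y => (Z x ↔ Z y)) :=
      ⟨Iff.trans⟩
    have pw := pairwise_cons.1 (isChain_iff_pairwise.1 ch)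
    have same : ∀ u ∈ p :: w, (Z p ↔ Z u) := fun u hu =>
      (mem_cons.1 hu).elim (fun h => h ▸ Iff.rfl) (pw.1 u)
    have idx : ∀ a : Lt α, Z p ↔ Z a := by
      intro a
      obtain ⟨u, u1, u2⟩ := hall a.1
      rcases letter_cases a u with rfl | rfl | h
      · exact same _ u1
      · exact (same _ u1).trans (cl a)
      · exact absurd u2 h
    exact nd ((idx d).1 ((idx z).2 hz))

end Pool.Agent.Lib.MP21ae20
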