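import Pool.Agent.Lib.MP_21ae20_al.Main

/-! The counting theorem with an exponential rate. -/

namespace Pool.Agent.Lib.MP21ae20

open Finset Filter Topology

namespace Proj

variable {G : Type} [Group G] {P : Proj G} {T : Gen G}

/-- the main estimate, localised to the pieces -/
lemma local_estimate {γ : ℕ → G} {g : G} (H : T.IsGeo γ g) {l R : ℕ} (hl : 0 < l)
    (hR : P.Ctrl T l R) {k : ℕ} {t : ℕ → ℕ} (ht : Monotone t) (htn : ∀ i, t i ≤ T.len g) :
    ∑ i ∈ range (k + 1), P.N (6 * P.θ) ((γ (t i))⁻¹ * γ (t (i + 1))) ≤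
      P.N (20 * P.θ) g + 2 * P.M * (T.len g / l + 1) + (k + 1) * (2 * T.b (3 * R + l)) := by
  classical
  have hθ := P.θ_pos
  set z : ℕ → G := fun c => γ (c * l) with hz
  set J := T.len g / l + 1 with hJ
  set X : ℕ → G → Prop := fun i h => T.len ((γ (t i))⁻¹ * h) ≤ 3 * R + l with hX
  set D : ℕ → G → Prop := fun i h =>
    P.Drift 1 (fun c => z (t i / l + c)) (t (i + 1) / l - t i / l) h with hD
  set Y : ℕ → Finset G := fun i => P.slot (6 * P.θ) (γ (t i)) (γ (t (i + 1))) with hY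
  set Z : ℕ → Finset G := fun i => (Y i).filter (fun h => ¬ (D i h ∨ X i h ∨ X (i + 1) h)) with hZ
  have hc : ∀ i, t i / l ≤ T.len g / l := fun i => Nat.div_le_div_right (htn i)
  have hcm : ∀ i j, i ≤ j → t i / l ≤ t j / l := fun i j hij => Nat.div_le_div_right (ht hij)
  have fast : ∀ h c, P.θ < P.d h (z c) (z (c + 1)) → T.len ((z c)⁻¹ * h) ≤ R := fun h c hf =>
    hR _ _ h (H.lip' (by rw [Nat.add_mul]; omega) (by rw [Nat.add_mul]; omega)) hf
  have hgrid : ∀ h i, ¬ X i h → P.d h (γ (t i)) (z (t i / l)) ≤ P.θ := by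
    intro h i hh
    by_contra hf
    have a0 := Nat.div_mul_le_self (t i) l
    have a1 := Nat.lt_div_mul_add (a := t i) hl
    have := hR (γ (t i)) (z (t i / l)) h (H.lip' (by omega) (by omega)) (by omega)
    exact hh (by simp only [hX]; omega)
  have sep : ∀ h i, ¬ X i h → ∀ c c', c < t i / l → t i / l ≤ c' → c' < J →
      P.θ < P.d h (z c) (z (c + 1)) → P.θ < P.d h (z c') (z (c' + 1)) → False := by
    intro h i hh c c' h1 h2 h3 f1 f2
    have a1 := fast h c f1
    have a2 := fast h c' f2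
    have a3 : c' * l ≤ T.len g := (Nat.le_div_iff_mul_le hl).1 (by omega)
    have a4 : c * l ≤ c' * l := Nat.mul_le_mul_right _ (by omega)
    have a5 := H.len_eq a4 a3
    have a6 := T.len_mul ((z c)⁻¹ * h) ((z c')⁻¹ * h)⁻¹
    have e : (z c)⁻¹ * h * ((z c')⁻¹ * h)⁻¹ = (γ (c * l))⁻¹ * γ (c' * l) := by
      simp only [hz]; group
    rw [e, T.len_inv] at a6
    have a7 := Nat.lt_div_mul_add (a := t i) hl
    have a8 : t i / l * l ≤ c' * l := Nat.mul_le_mul_right _ h2
    have a9 : c * l ≤ t i / l * l := Nat.mul_le_mul_right _ (by omega)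
    have a10 := Nat.div_mul_le_self (t i) l
    have a11 := H.lip' (s := t i) (t := c * l) (r := 2 * R + l) (by omega) (by omega)
    have a12 := T.len_mul ((γ (t i))⁻¹ * γ (c * l)) ((z c)⁻¹ * h)
    have e' : (γ (t i))⁻¹ * γ (c * l) * ((z c)⁻¹ * h) = (γ (t i))⁻¹ * h := by
      simp only [hz]; group
    rw [e'] at a12
    exact hh (by simp only [hX]; omega)
  have key : ∀ i, ∀ h ∈ Z i, (P.Drift 1 z J h ∨ h ∈ P.slot (20 * P.θ) 1 g) ∧
      ∃ c, t i / l ≤ c ∧ c < t (i + 1) / l ∧ P.θ < P.d h (z c) (z (c + 1)) := by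
    intro i h hh
    simp only [hZ, hY, mem_filter, not_or] at hh
    obtain ⟨hs, hld, hx, hx'⟩ := hh
    rw [P.mem_slot (by omega)] at hs
    have g1 := hgrid h i hx
    have g2 := hgrid h (i + 1) hx'
    have hci := hc i
    have hci' := hc (i + 1)
    have hm := hcm i (i + 1) (by omega)
    have hf : ∃ c, t i / l ≤ c ∧ c < t (i + 1) / l ∧ P.θ < P.d h (z c) (z (c + 1)) := by
      by_contra hcon
      push Not at hcon
      have := P.slow_nd hld (Nat.zero_le _) le_rfl
        (fun c _ h2 => hcon (t i / l + c) (by omega) (by omega))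
      rw [add_zero, Nat.add_sub_cancel' hm] at this
      simp only [d_le_iff] at this g1 g2
      omega
    refine ⟨?_, hf⟩
    by_cases hnd : P.Drift 1 z J h
    · exact Or.inl hnd
    right
    obtain ⟨c, c1, c2, c3⟩ := hf
    have s1 := P.slow_nd hnd (Nat.zero_le (t i / l)) (by omega) (fun c' _ h2 => by
      by_contra hf
      exact sep h i hx c' c h2 c1 (by omega) (by omega) c3)
    have s2 := P.slow_nd hnd (a := t (i + 1) / l) (b := J) (by omega) le_rfl (fun c' h1 h2 => by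
      by_contra hf
      exact sep h (i + 1) hx' c c' c2 h1 h2 c3 (by omega))
    have e0 : z 0 = 1 := by simp [hz, H.zero]
    have e1 : z J = g := grid_end H hl
    rw [e0] at s1
    rw [e1] at s2
    rw [P.mem_slot (by omega)]
    simp only [d_le_iff] at s1 s2 g1 g2
    omega
  have hdisj : ∀ i j, i < j → Disjoint (Z i) (Z j) := by
    intro i j hij
    rw [disjoint_left]
    intro h h1 h2
    obtain ⟨-, c, c1, c2, c3⟩ := key i h h1
    obtain ⟨-, c', c1', c2', c3'⟩ := key j h h2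
    have hx : ¬ X (i + 1) h := fun hx => (mem_filter.1 h1).2 (Or.inr (Or.inr hx))
    have := hcm (i + 1) j hij
    have := hc (j + 1)
    exact sep h (i + 1) hx c c' c2 (by omega) (by omega) c3 c3'
  have hsum : ∑ i ∈ range (k + 1), (Z i).card ≤ P.N (20 * P.θ) g + P.M * J := by
    rw [← card_biUnion]
    · set U := (range (k + 1)).biUnion Z with hU
      have h1 := P.drift_card 1 z J (U.filter (P.Drift 1 z J)) (fun h hh => (mem_filter.1 hh).2)
      have h2 : (U.filter (fun h => ¬ P.Drift 1 z J h)).card ≤ P.N (20 * P.θ) g := by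
        apply card_le_card
        intro h hh
        obtain ⟨hh, hn⟩ := mem_filter.1 hh
        obtain ⟨i, -, hh⟩ := mem_biUnion.1 hh
        exact (key i h hh).1.resolve_left hn
      have h3 := card_filter_add_card_filter_not (s := U) (P.Drift 1 z J)
      omega
    · intro i _ j _ hij
      rcases lt_or_gt_of_ne hij with h | h
      · exact hdisj i j h
      · exact (hdisj j i h).symm
  have hone : ∀ i ∈ range (k + 1), P.N (6 * P.θ) ((γ (t i))⁻¹ * γ (t (i + 1))) ≤
      (Z i).card + (P.M * (t (i + 1) / l - t i / l) + 2 * T.b (3 * R + l)) := by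
    intro i _
    rw [← P.card_slot_eq (by omega)]
    have h1 := P.drift_card 1 _ _ ((Y i).filter (D i)) (fun h hh => (mem_filter.1 hh).2)
    have h2 := T.card_near (γ (t i)) (3 * R + l) ((Y i).filter (X i))
      (fun h hh => (mem_filter.1 hh).2)
    have h2' := T.card_near (γ (t (i + 1))) (3 * R + l) ((Y i).filter (X (i + 1)))
      (fun h hh => (mem_filter.1 hh).2)
    have h3 := card_filter_add_card_filter_not (s := Y i) (fun h => D i h ∨ X i h ∨ X (i + 1) h)
    rw [filter_or, filter_or] at h3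
    have h4 := card_union_le ((Y i).filter (D i)) ((Y i).filter (X i) ∪ (Y i).filter (X (i + 1)))
    have h5 := card_union_le ((Y i).filter (X i)) ((Y i).filter (X (i + 1)))
    change (Y i).card ≤ _
    simp only [hZ]
    omega
  refine (sum_le_sum hone).trans ?_
  have hmono : Monotone fun i => t i / l := fun i j hij => hcm i j hij
  rw [sum_add_distrib, sum_add_distrib, sum_const, card_range, smul_eq_mul, ← mul_sum,
    sum_range_tsub hmono]
  have h1 : P.M * (t (k + 1) / l - t 0 / l) ≤ P.M * J :=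
    Nat.mul_le_mul_left _ ((Nat.sub_le _ _).trans ((hc (k + 1)).trans (Nat.le_succ _)))
  have h2 : 2 * P.M * J = P.M * J + P.M * J := by ring
  omega

variable (P T)

lemma bad_exp : ∃ Q q, 0 < Q ∧ 0 < q ∧ ∀ᶠ n in atTop, ∀ Y : Finset G,
    (∀ g ∈ Y, T.len g ≤ n ∧ n ≤ 2 * T.len g ∧ 16 * Q * P.N (20 * P.θ) g ≤ n) →
    2 ^ (n / q) * Y.card ≤ Q * T.b n := by
  obtain ⟨Q, C, hQ, hins⟩ := P.insertion T
  have hM := P.M_pos
  set l := 16 * Q * (2 * P.M) with hl
  have hl0 : 0 < l := by positivity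
  obtain ⟨R, hR⟩ := P.exists_R T l
  set c0 := 16 * Q * (2 * T.b (3 * R + l) + C) with hc0
  refine ⟨Q, c0 + 8, hQ, by omega, ?_⟩
  filter_upwards [eventually_ge_atTop (l + 2 * c0 + 4)] with n hn Y hY
  set k := n / (c0 + 8) with hk
  have hkn : c0 * k + 8 * k ≤ n := by
    have := Nat.mul_div_le n (c0 + 8)
    rwa [← hk, add_mul] at this
  choose γ hγ using T.exists_geo
  have hcut : ∀ x : G × Finset ℕ, ∃ t : ℕ → ℕ, x ∈ Y ×ˢ (range (n / 2)).powersetCard k →
      Monotone t ∧ t 0 = 0 ∧ t (k + 1) = T.len x.1 ∧ (∀ i, t i ≤ T.len x.1) ∧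
      x.2 = (range k).image (fun i => t (i + 1)) := by
    intro x
    by_cases hx : x ∈ Y ×ˢ (range (n / 2)).powersetCard k
    · obtain ⟨h1, h2⟩ := mem_product.1 hx
      obtain ⟨t, ht⟩ := exists_cuts (n := T.len x.1) (by have := hY _ h1; omega) h2
      exact ⟨t, fun _ => ht⟩
    · exact ⟨fun _ => 0, fun h => absurd h hx⟩
  choose t ht using hcut
  set m := n / (16 * Q) + 2 * P.M * (n / l + 1) + (k + 1) * (2 * T.b (3 * R + l)) with hm
  have := hins (G × Finset ℕ) (Y ×ˢ (range (n / 2)).powersetCard k)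
    (fun x i => (γ x.1 (t x i))⁻¹ * γ x.1 (t x (i + 1))) k n m ?_ ?_ ?_
  · rw [card_product, card_powersetCard, card_range] at this
    have a1 : 16 * Q * (n / (16 * Q)) ≤ n := Nat.mul_div_le _ _
    have a2 : l * (n / l) ≤ n := Nat.mul_div_le _ _
    have a3 : 16 * Q * (m + C * (k + 2)) + 16 * Q * (2 * T.b (3 * R + l)) =
        16 * Q * (n / (16 * Q)) + l * (n / l) + l + c0 * k + 2 * c0 := by
      rw [hm, hc0]
      generalize n / l = y
      generalize T.b (3 * R + l) = w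
      rw [hl]; ring
    have a4 : 2 * Q * (m + C * (k + 2)) ≤ n / 2 + 1 - k := by
      have : 16 * Q * (m + C * (k + 2)) = 8 * (2 * Q * (m + C * (k + 2))) := by ring
      omega
    have a5 := (Nat.pow_le_pow_left a4 k).trans (Nat.pow_sub_le_descFactorial (n / 2) k)
    have a6 := Nat.descFactorial_le_pow (m + C * (k + 2)) k
    rw [Nat.descFactorial_eq_factorial_mul_choose] at a5 a6
    have a7 : (2 * Q) ^ k * (m + C * (k + 2)).choose k ≤ (n / 2).choose k := by
      refine Nat.le_of_mul_le_mul_left (c := k.factorial) ?_ k.factorial_pos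
      refine le_trans ?_ a5
      rw [mul_pow (2 * Q), mul_left_comm]
      exact Nat.mul_le_mul_left _ a6
    have a8 : 0 < (n / 2).choose k := Nat.choose_pos (by omega)
    refine Nat.le_of_mul_le_mul_right (c := (n / 2).choose k * Q ^ k) ?_ (by positivity)
    calc 2 ^ k * Y.card * ((n / 2).choose k * Q ^ k)
        = (2 * Q) ^ k * (Y.card * (n / 2).choose k) := by rw [mul_pow]; ring
      _ ≤ (2 * Q) ^ k * (T.b n * (m + C * (k + 2)).choose k * Q ^ (k + 1)) :=
          Nat.mul_le_mul_left _ this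
      _ = T.b n * Q ^ (k + 1) * ((2 * Q) ^ k * (m + C * (k + 2)).choose k) := by ring
      _ ≤ T.b n * Q ^ (k + 1) * (n / 2).choose k := Nat.mul_le_mul_left _ a7
      _ = _ := by ring
  · intro x hx y hy hxy
    obtain ⟨x1, x2, x3, x4, x5⟩ := ht x hx
    obtain ⟨y1, y2, y3, y4, y5⟩ := ht y hy
    have hpp : ∀ j ≤ k + 1, γ x.1 (t x j) = γ y.1 (t y j) := by
      intro j hj
      have e1 := pp_telescope (fun i => γ x.1 (t x i)) j
      have e2 := pp_telescope (fun i => γ y.1 (t y i)) j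
      simp only [x2, y2, (hγ _).zero, inv_one, one_mul] at e1 e2
      rw [← e1, ← e2]
      exact pp_congr fun i hi => hxy i (by omega)
    have e1 : x.1 = y.1 := by
      have := hpp (k + 1) le_rfl
      rwa [x3, y3, (hγ _).fin _ le_rfl, (hγ _).fin _ le_rfl] at this
    refine Prod.ext e1 ?_
    rw [x5, y5]
    refine image_congr fun i hi => ?_
    have hi := mem_range.1 hi
    rw [← (hγ x.1).len_at (x4 (i + 1)), hpp (i + 1) (by omega), (hγ y.1).len_at (y4 (i + 1))]
  · intro x hx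
    obtain ⟨x1, x2, x3, x4, x5⟩ := ht x hx
    refine (sum_le_sum fun i _ => (hγ x.1).lip _ _ (x1 (Nat.le_succ i))).trans ?_
    rw [sum_range_tsub x1, x3]
    have := hY _ (mem_product.1 hx).1
    omega
  · intro x hx
    obtain ⟨x1, x2, x3, x4, x5⟩ := ht x hx
    refine (local_estimate (hγ x.1) hl0 hR x1 x4).trans ?_
    obtain ⟨b1, b2, b3⟩ := hY _ (mem_product.1 hx).1
    have b4 : P.N (20 * P.θ) x.1 ≤ n / (16 * Q) :=
      (Nat.le_div_iff_mul_le (by positivity)).2 (by rwa [mul_comm])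
    have b5 : T.len x.1 / l ≤ n / l := Nat.div_le_div_right b1
    rw [hm]
    gcongr

include P in
lemma conj_exp (R q : ℕ) (hq : 0 < q) : ∃ q', 0 < q' ∧ ∀ᶠ n in atTop, ∀ Y : Finset G,
    (∀ g ∈ Y, T.Cj R n (n / q) g) → 2 ^ (n / q') * Y.card ≤ T.b n := by
  classical
  obtain ⟨K, hK⟩ := P.triple T
  obtain ⟨L, hL, hg⟩ := P.growth T
  refine ⟨q * L * 2, by positivity, ?_⟩
  filter_upwards [poly_le_exp (K * T.b R) R (q * L * 2) (by positivity)] with n hn Y hY
  set I := (range (n + R + 1)).filter (fun t => n / q ≤ t ∧ 2 * t ≤ n + R) with hI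
  have hsub : Y ⊆ I.biUnion (fun t => (T.B t ×ˢ T.B (n + R - 2 * t)).image
      (fun p => p.1 * p.2 * p.1⁻¹)) := by
    intro g hg
    obtain ⟨t, h1, u, v, h2, h3, rfl⟩ := hY g hg
    refine mem_biUnion.2 ⟨t, ?_, mem_image.2 ⟨(u, v), ?_, rfl⟩⟩
    · simp only [hI, mem_filter, mem_range]; omega
    · simp only [mem_product, T.mem_B]; omega
  have h1 : Y.card * T.b (n / q) ≤ (n + R + 1) * (K * (n + R + 1) ^ 2 * (T.b n * T.b R)) := by
    refine (Nat.mul_le_mul_right _ ((card_le_card hsub).trans card_biUnion_le)).trans ?_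
    rw [sum_mul]
    refine (sum_le_card_nsmul _ _ (K * (n + R + 1) ^ 2 * (T.b n * T.b R)) fun t ht => ?_).trans ?_
    · simp only [hI, mem_filter, mem_range] at ht
      have a1 := hK t (n + R - 2 * t) t
      rw [show t + (n + R - 2 * t) + t = n + R by omega] at a1
      refine le_trans ?_ (a1.trans (Nat.mul_le_mul_left _ (T.b_add n R)))
      refine Nat.mul_le_mul (card_image_le.trans ?_) (T.b_mono ht.2.1)
      rw [card_product]; rfl
    · rw [smul_eq_mul]
      exact Nat.mul_le_mul_right _ ((card_filter_le _ _).trans (by simp))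
  have h2 : 2 ^ (n / (q * L)) ≤ T.b (n / q) := by
    refine (hg _).trans (T.b_mono ?_)
    rw [← Nat.div_div_eq_div_mul]
    exact Nat.mul_div_le _ _
  have h3 : 2 ^ (n / (q * L * 2)) * 2 ^ (n / (q * L * 2)) ≤ 2 ^ (n / (q * L)) := by
    rw [← pow_add, ← Nat.div_div_eq_div_mul]
    exact Nat.pow_le_pow_right (by omega) (by omega)
  refine Nat.le_of_mul_le_mul_right (c := T.b (n / q)) ?_ (T.b_pos _)
  calc 2 ^ (n / (q * L * 2)) * Y.card * T.b (n / q)
      = 2 ^ (n / (q * L * 2)) * (Y.card * T.b (n / q)) := by ring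
    _ ≤ 2 ^ (n / (q * L * 2)) * ((n + R + 1) * (K * (n + R + 1) ^ 2 * (T.b n * T.b R))) :=
        Nat.mul_le_mul_left _ h1
    _ = T.b n * (2 ^ (n / (q * L * 2)) * (K * T.b R * (n + R + 1) ^ 3)) := by ring
    _ ≤ T.b n * T.b (n / q) :=
        Nat.mul_le_mul_left _ (((Nat.mul_le_mul_left _ hn).trans h3).trans h2)

theorem long_exp : ∃ A q C, 0 < A ∧ 0 < q ∧ ∀ᶠ n in atTop, ∀ Y : Finset G,
    (∀ g ∈ Y, T.len g ≤ n ∧ ¬ P.Long A n g) → 2 ^ (n / q) * Y.card ≤ C * T.b n := by
  classical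
  obtain ⟨Q, q₁, hQ, hq₁, hbad⟩ := P.bad_exp T
  have hM := P.M_pos
  set l := 64 * Q * (3 * P.M) with hl
  have hl0 : 0 < l := by positivity
  obtain ⟨R, hR⟩ := P.exists_R T l
  obtain ⟨R₀, hR₀⟩ := T.exists_bound _ P.F0.finite_toSet
  have hb := T.b_pos (R + R₀)
  set q := 64 * Q * (3 * T.b (R + R₀)) with hq
  have hq0 : 0 < q := by positivity
  obtain ⟨q₂, hq₂, hcj⟩ := P.conj_exp T (4 * (R + R₀)) q hq0
  refine ⟨64 * Q * P.M, q₁ * q₂, Q + 1, by positivity, by positivity, ?_⟩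
  filter_upwards [hbad, hcj, eventually_ge_atTop l] with n h1 h2 h3 Y hY
  set Y₁ := Y.filter (fun g => T.Cj (4 * (R + R₀)) n (n / q) g) with hY₁
  set Y₂ := Y.filter (fun g => ¬ T.Cj (4 * (R + R₀)) n (n / q) g) with hY₂
  have a1 := h2 Y₁ (fun g hg => (mem_filter.1 hg).2)
  have a2 := h1 Y₂ (fun g hg => by
    obtain ⟨hg1, hg2⟩ := mem_filter.1 hg
    obtain ⟨b1, b2⟩ := hY g hg1
    refine ⟨b1, ?_, ?_⟩
    · by_contra hlt
      apply hg2
      have : n / q ≤ n / 4 := Nat.div_le_div_left (by rw [hq]; nlinarith) (by omega)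
      exact ⟨n / 4, this, 1, g, by simp [T.len_one], by omega, by simp⟩
    · by_contra hlt
      apply b2
      obtain ⟨γ, H⟩ := T.exists_geo g
      have c1 := mdl_big H hl0 hR hR₀ b1 hg2
      have c2 : l * (n / l) ≤ n := Nat.mul_div_le _ _
      have c3 : q * (n / q) ≤ n := Nat.mul_div_le _ _
      have c4 : 64 * Q * (3 * (P.M * (n / l + 1) + n / q * T.b (R + R₀))) =
          l * (n / l) + l + q * (n / q) := by rw [hl, hq]; ring
      have c5 := Nat.mul_le_mul_left (64 * Q) c1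
      rw [mul_add, c4] at c5
      have c6 : 64 * Q * P.N (20 * P.θ) g = 4 * (16 * Q * P.N (20 * P.θ) g) := by ring
      have c7 : n ≤ 64 * Q * (P.Mdl g).card := by omega
      intro t
      refine ⟨64 * Q * (2 * (P.big 1 t).card), fun k D z z0 zD zs => ?_⟩
      have d1 := (P.mdl_lower g k).trans (P.chain_lower t _ D z z0 zD zs)
      calc n * k ≤ 64 * Q * (P.Mdl g).card * k := Nat.mul_le_mul_right _ c7
        _ = 64 * Q * (k * (P.Mdl g).card) := by ring
        _ ≤ 64 * Q * (P.M * D + 2 * (P.big 1 t).card) := Nat.mul_le_mul_left _ d1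
        _ = _ := by ring)
  have a3 := card_filter_add_card_filter_not (s := Y) (fun g => T.Cj (4 * (R + R₀)) n (n / q) g)
  have a4 : 2 ^ (n / (q₁ * q₂)) ≤ 2 ^ (n / q₁) :=
    Nat.pow_le_pow_right (by omega) (Nat.div_le_div_left (Nat.le_mul_of_pos_right _ hq₂) hq₁)
  have a5 : 2 ^ (n / (q₁ * q₂)) ≤ 2 ^ (n / q₂) :=
    Nat.pow_le_pow_right (by omega) (Nat.div_le_div_left (Nat.le_mul_of_pos_left _ hq₁) hq₂)
  have a6 := (Nat.mul_le_mul_right _ a4).trans a2
  have a7 := (Nat.mul_le_mul_right _ a5).trans a1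
  rw [← a3]
  change _ * (Y₁.card + Y₂.card) ≤ _
  rw [mul_add, add_mul, one_mul]
  omega

theorem generic_exp : ∃ A, 0 < A ∧ ∃ C r : ℝ, 0 < r ∧ r < 1 ∧ ∀ p : ℕ → G → Prop,
    (∀ n g, P.Long A n g → p n g) → ∀ n,
      1 - C * r ^ n ≤ ({g ∈ ball T.S n | p n g}.ncard : ℝ) / (ball T.S n).ncard := by
  classical
  obtain ⟨A, q, C, hA, hq, h⟩ := P.long_exp T
  obtain ⟨n₀, h⟩ := eventually_atTop.1 h
  have hq' : (1 : ℝ) ≤ q := by exact_mod_cast hq
  set r : ℝ := 1 - 1 / (2 * q) with hr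
  have h1 : 1 / (2 * (q : ℝ)) ≤ 1 / 2 := one_div_le_one_div_of_le (by norm_num) (by linarith)
  have h2 : 0 < 1 / (2 * (q : ℝ)) := by positivity
  have r0 : 0 < r := by linarith
  have r1 : r < 1 := by linarith
  have rq : 1 / 2 ≤ r ^ q := by
    have := one_add_mul_le_pow (a := -(1 / (2 * (q : ℝ)))) (by linarith) q
    have e : (q : ℝ) * -(1 / (2 * (q : ℝ))) = -(1 / 2) := by field_simp
    rw [e, ← sub_eq_add_neg, ← sub_eq_add_neg] at this
    linarith
  have hpow : ∀ n : ℕ, 1 ≤ 2 * r ^ n * 2 ^ (n / q) := by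
    intro n
    have a1 : r ^ (q * (n / q + 1)) ≤ r ^ n :=
      pow_le_pow_of_le_one r0.le r1.le (Nat.lt_mul_div_succ n hq).le
    have a2 : (1 / 2 : ℝ) ^ (n / q + 1) ≤ r ^ (q * (n / q + 1)) := by
      rw [pow_mul]; exact pow_le_pow_left₀ (by norm_num) rq _
    have a3 : (1 / 2 : ℝ) ^ (n / q + 1) * (2 * 2 ^ (n / q)) = 1 := by
      rw [← pow_succ', ← mul_pow]; norm_num
    have a4 := mul_le_mul_of_nonneg_right (a2.trans a1)
      (show (0 : ℝ) ≤ 2 * 2 ^ (n / q) by positivity)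
    linarith
  refine ⟨A, hA, 2 * C + 1 / r ^ n₀, r, r0, r1, fun p hp n => ?_⟩
  have hrn : 0 < r ^ n := pow_pos r0 n
  have hC : (0 : ℝ) ≤ C := Nat.cast_nonneg _
  rcases lt_or_ge n n₀ with hn | hn
  · refine le_trans ?_ (by positivity : (0 : ℝ) ≤ _)
    have a1 : r ^ n₀ ≤ r ^ n := pow_le_pow_of_le_one r0.le r1.le hn.le
    have a2 : 1 ≤ 1 / r ^ n₀ * r ^ n := by
      rw [one_div, le_inv_mul_iff₀ (pow_pos r0 _)]; linarith
    nlinarith
  have e1 : (ball T.S n).ncard = T.b n := Set.ncard_eq_toFinset_card _ _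
  have e2 : {g ∈ ball T.S n | p n g}.ncard = ((T.B n).filter (p n)).card := by
    rw [← Set.ncard_coe_finset]
    congr 1
    ext g
    simp [Gen.B]
  rw [e1, e2]
  have a1 := h n hn ((T.B n).filter (fun g => ¬ p n g)) (fun g hg => by
    rw [mem_filter, T.mem_B] at hg
    exact ⟨hg.1, fun hl => hg.2 (hp n g hl)⟩)
  have a2 := card_filter_add_card_filter_not (s := T.B n) (p n)
  have a3 : (0 : ℝ) < T.b n := by exact_mod_cast T.b_pos n
  have a4 : (((T.B n).filter (p n)).card : ℝ) =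
      T.b n - ((T.B n).filter (fun g => ¬ p n g)).card := by
    rw [Gen.b, ← a2]; push_cast; ring
  have a5 : (2 : ℝ) ^ (n / q) * ((T.B n).filter (fun g => ¬ p n g)).card ≤ C * T.b n := by
    exact_mod_cast a1
  rw [a4, le_div_iff₀ a3]
  generalize (((T.B n).filter (fun g => ¬ p n g)).card : ℝ) = y at a5 ⊢
  have a6 : y ≤ 2 * r ^ n * (C * T.b n) := by
    rcases le_or_gt y 0 with hy | hy
    · exact hy.trans (by positivity)
    · have := mul_le_mul_of_nonneg_right (hpow n) hy.le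
      have := mul_le_mul_of_nonneg_left a5 (show 0 ≤ 2 * r ^ n by positivity)
      linarith
  have a7 : 0 ≤ 1 / r ^ n₀ * r ^ n * T.b n := by positivity
  linarith

end Proj

open FreeGroup in
theorem main_exp {N : ℕ} (hN : 2 ≤ N) (S : Set (Out (FreeGroup (Fin N)))) (hfin : S.Finite)
    (hS : Subgroup.closure S = ⊤) : ∃ a C r : ℝ, 0 < a ∧ 0 < r ∧ r < 1 ∧
    ∀ (x : Vertex (FreeGroup (Fin N))) (n : ℕ), 1 - C * r ^ n ≤
      ({g ∈ ball S n | a * n ≤ translationLength x g}.ncard : ℝ) / (ball S n).ncard := by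
  classical
  let x₀ : Fin N := ⟨0, by omega⟩
  let x₁ : Fin N := ⟨1, by omega⟩
  have hx : x₁ ≠ x₀ := by simp [x₀, x₁]
  obtain ⟨φ, legp, legm, lp, lm, H⟩ : ∃ φ legp legm lp lm, Dyn x₀ φ legp legm lp lm := by
    by_cases h : N = 2
    · refine exists_dyn_two hx.symm fun i => ?_
      simp only [x₀, x₁, Fin.ext_iff]
      omega
    · exact exists_dyn_big (a := x₀) (b := x₁) (c := ⟨2, by omega⟩) hx.symm (by simp [x₀])
        (by simp [x₁]) x₀
  obtain ⟨P, hP⟩ := H.exists_proj hx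
  obtain ⟨A, hA, C₀, r, r0, r1, h⟩ := P.generic_exp ⟨S, hfin, hS⟩
  refine ⟨1 / A, C₀, r, by positivity, r0, r1, fun x => h
    (fun n g => 1 / (A : ℝ) * n ≤ translationLength x g) fun n g hl => ?_⟩
  obtain ⟨t, ht⟩ := exists_over x₀ x
  obtain ⟨C, hC⟩ := hl t
  have slow : ∀ (C D : Vertex (FreeGroup (Fin N))) s s', (C = D ∨ (freeFactorGraph N).Adj C D) →
      Over x₀ C s → Over x₀ D s' → ∀ h, P.d h s s' ≤ P.θ := by
    rintro C D _ _ h ⟨τ, rfl, B, b1, b2⟩ ⟨τ', rfl, B', b1', b2'⟩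
    exact hP τ τ' (js_of_adj h b1 b1' b2 b2')
  have bd : ∀ k, n * k ≤ A * ((freeFactorGraph N).dist x (act (g ^ k) x) + 1) + C := by
    intro k
    obtain ⟨p, hp⟩ := (connected hN x (act (g ^ k) x)).exists_walk_length_eq_dist
    choose c hc using exists_over (N := N) x₀
    set z : ℕ → Out (FreeGroup (Fin N)) := fun i =>
      if i = 0 then t else if i ≤ p.length then c (p.getVert i) else g ^ k * t with hz
    have ov : ∀ i, Over x₀ (p.getVert i) (z i) := by
      intro i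
      simp only [hz]
      split_ifs with h1 h2
      · rw [h1, p.getVert_zero]; exact ht
      · exact hc _
      · rw [p.getVert_of_length_le (by omega)]; exact ht.act _
    rw [← hp]
    refine hC k (p.length + 1) z (by simp [hz]) (by simp [hz]) fun i hi => ?_
    refine slow _ _ _ _ ?_ (ov i) (ov (i + 1))
    rcases (Nat.lt_succ_iff.1 hi).lt_or_eq with h1 | h1
    · exact Or.inr (p.adj_getVert_succ h1)
    · exact Or.inl (by rw [p.getVert_of_length_le h1.ge, p.getVert_of_length_le (by omega)])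
  have hA' : (0 : ℝ) < A := by exact_mod_cast hA
  have := (Lin.lin (n : ℝ)).le ((tendsto_tl hN x g).const_mul A) (A + C) fun k => by
    have : ((n * k : ℕ) : ℝ) ≤ ((A * ((freeFactorGraph N).dist x (act (g ^ k) x) + 1) + C : ℕ) : ℝ) :=
      Nat.cast_le.2 (bd k)
    push_cast at this
    linarith
  rw [one_div, inv_mul_le_iff₀ hA']
  exact this

end Pool.Agent.Lib.MP21ae20
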