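import Pool.Agent.Lib.MP_21ae20_al.B8
import Pool.Agent.Lib.MP_21ae20_al.A5

/-! The free factor graph: action, connectivity, translation length; the main theorem. -/

namespace Pool.Agent.Lib.MP21ae20

open FreeGroup Filter Topology

section general

variable {G : Type} [Group G]

lemma mem_conjClass_self (A : Subgroup G) : A ∈ conjClass A := ⟨1, by ext x; simp⟩

lemma conjClass_eq {A B : Subgroup G} (h : B ∈ conjClass A) : conjClass B = conjClass A := by
  obtain ⟨g, rfl⟩ := h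
  ext D
  constructor
  · rintro ⟨k, rfl⟩
    exact ⟨k * g, by rw [Subgroup.map_map]; congr 1; ext x; simp [mul_assoc]⟩
  · rintro ⟨k, rfl⟩
    exact ⟨k * g⁻¹, by rw [Subgroup.map_map]; congr 1; ext x; simp [mul_assoc]⟩

lemma Vertex.eq_class (C : Vertex G) {A : Subgroup G} (h : A ∈ C.1) : C.1 = conjClass A := by
  obtain ⟨C, B, hB, rfl⟩ := C
  exact (conjClass_eq h).symm

lemma Vertex.ext_mem {C D : Vertex G} {A : Subgroup G} (h : A ∈ C.1) (h' : A ∈ D.1) : C = D :=
  Subtype.ext ((C.eq_class h).trans (D.eq_class h').symm)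

lemma Vertex.exists_mem (C : Vertex G) : ∃ A, A ∈ C.1 := by
  obtain ⟨C, B, -, rfl⟩ := C
  exact ⟨B, mem_conjClass_self B⟩

lemma Vertex.pff (C : Vertex G) {A : Subgroup G} (h : A ∈ C.1) : IsProperFreeFactor A := by
  obtain ⟨C, B, hB, rfl⟩ := C
  obtain ⟨g, rfl⟩ := h
  exact hB.map _

lemma map_mem_act (σ : MulAut G) {C : Vertex G} {A : Subgroup G} (h : A ∈ C.1) :
    A.map σ.toMonoidHom ∈ (act (σ : Out G) C).1 := ⟨σ, rfl, A, h, rfl⟩

lemma act_mul (φ ψ : Out G) (C : Vertex G) : act (φ * ψ) C = act φ (act ψ C) := by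
  obtain ⟨σ, rfl⟩ := QuotientGroup.mk_surjective φ
  obtain ⟨τ, rfl⟩ := QuotientGroup.mk_surjective ψ
  obtain ⟨A, hA⟩ := C.exists_mem
  refine Vertex.ext_mem (map_mem_act (σ * τ) hA) ?_
  have := map_mem_act σ (map_mem_act τ hA)
  rwa [Subgroup.map_map] at this

lemma act_one (C : Vertex G) : act 1 C = C := by
  obtain ⟨A, hA⟩ := C.exists_mem
  refine Vertex.ext_mem (map_mem_act 1 hA) ?_
  convert hA
  ext x; simp

/-- the vertex of a proper free factor -/
def vtx {A : Subgroup G} (h : IsProperFreeFactor A) : Vertex G := ⟨conjClass A, A, h, rfl⟩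

lemma mem_vtx {A : Subgroup G} (h : IsProperFreeFactor A) : A ∈ (vtx h).1 := mem_conjClass_self A

end general

variable {N : ℕ}

lemma act_adj (φ : Out (FreeGroup (Fin N))) {C D : Vertex (FreeGroup (Fin N))}
    (h : (freeFactorGraph N).Adj C D) : (freeFactorGraph N).Adj (act φ C) (act φ D) := by
  obtain ⟨σ, rfl⟩ := QuotientGroup.mk_surjective φ
  rw [freeFactorGraph, SimpleGraph.fromRel_adj] at h ⊢
  refine ⟨fun he => h.1 ?_, ?_⟩
  · rw [← act_one C, ← act_one D, ← inv_mul_cancel (σ : Out (FreeGroup (Fin N))), act_mul, act_mul,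
      he]
  have key : ∀ C D : Vertex (FreeGroup (Fin N)),
      (if N = 2 then ∃ (b : FreeGroupBasis (Fin N) (FreeGroup (Fin N))) (i j : Fin N), i ≠ j ∧
        Subgroup.zpowers (b i) ∈ C.1 ∧ Subgroup.zpowers (b j) ∈ D.1
      else ∃ A ∈ C.1, ∃ B ∈ D.1, A < B) →
      (if N = 2 then ∃ (b : FreeGroupBasis (Fin N) (FreeGroup (Fin N))) (i j : Fin N), i ≠ j ∧
        Subgroup.zpowers (b i) ∈ (act (σ : Out _) C).1 ∧
        Subgroup.zpowers (b j) ∈ (act (σ : Out _) D).1
      else ∃ A ∈ (act (σ : Out _) C).1, ∃ B ∈ (act (σ : Out _) D).1, A < B) := by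
    intro C D
    split_ifs
    · rintro ⟨b, i, j, h1, h2, h3⟩
      refine ⟨b.map σ, i, j, h1, ?_, ?_⟩
      · simpa using map_mem_act σ h2
      · simpa using map_mem_act σ h3
    · rintro ⟨A, h1, B, h2, h3⟩
      exact ⟨_, map_mem_act σ h1, _, map_mem_act σ h2,
        (Subgroup.map_lt_map_iff_of_injective σ.injective).2 h3⟩
  exact h.2.imp (key C D) (key D C)

/-- the action as a graph homomorphism -/
def actHom (φ : Out (FreeGroup (Fin N))) : freeFactorGraph N →g freeFactorGraph N :=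
  ⟨act φ, act_adj φ⟩

lemma reach_of_le (hN : N ≠ 2) {C D : Vertex (FreeGroup (Fin N))} {A B : Subgroup _}
    (hA : A ∈ C.1) (hB : B ∈ D.1) (h : A ≤ B) : (freeFactorGraph N).Reachable C D := by
  by_cases hCD : C = D
  · rw [hCD]
  refine SimpleGraph.Adj.reachable ?_
  rw [freeFactorGraph, SimpleGraph.fromRel_adj]
  refine ⟨hCD, Or.inl ?_⟩
  rw [if_neg hN]
  exact ⟨A, hA, B, hB, lt_of_le_of_ne h fun he => hCD (Vertex.ext_mem hA (he ▸ hB))⟩

lemma reach_basis (hN : 2 ≤ N) (ρ : MulAut (FreeGroup (Fin N))) (i j : Fin N)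
    {C D : Vertex (FreeGroup (Fin N))} (hC : Subgroup.zpowers (ρ (of i)) ∈ C.1)
    (hD : Subgroup.zpowers (ρ (of j)) ∈ D.1) : (freeFactorGraph N).Reachable C D := by
  by_cases hCD : C = D
  · rw [hCD]
  have hij : i ≠ j := by
    rintro rfl
    exact hCD (Vertex.ext_mem hC hD)
  by_cases h2 : N = 2
  · refine SimpleGraph.Adj.reachable ?_
    rw [freeFactorGraph, SimpleGraph.fromRel_adj]
    refine ⟨hCD, Or.inl ?_⟩
    rw [if_pos h2]
    exact ⟨(FreeGroupBasis.ofFreeGroup _).map ρ, i, j, hij, hC, hD⟩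
  · have hne : ({i, j} : Set (Fin N))ᶜ.Nonempty := by
      have : (({i, j} : Finset (Fin N))).card < (Finset.univ : Finset (Fin N)).card := by
        rw [Finset.card_pair hij, Finset.card_fin]; omega
      obtain ⟨k, -, hk⟩ := Finset.exists_mem_notMem_of_card_lt_card this
      exact ⟨k, by simpa using hk⟩
    have hp := (stdF_pff (I := {i, j}) ⟨i, by simp⟩ hne).map ρ
    have le : ∀ k ∈ ({i, j} : Set (Fin N)),
        Subgroup.zpowers (ρ (of k)) ≤ (stdF {i, j}).map ρ.toMonoidHom := fun k hk =>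
      (Subgroup.zpowers_le).2 ⟨of k, InF.of hk, rfl⟩
    exact (reach_of_le h2 hC (mem_vtx hp) (le i (by simp))).trans
      (reach_of_le h2 hD (mem_vtx hp) (le j (by simp))).symm

lemma exists_ne_fin (hN : 2 ≤ N) (i : Fin N) : ∃ j, j ≠ i := by
  have : Nontrivial (Fin N) := Fin.nontrivial_iff_two_le.2 hN
  exact exists_ne i

lemma prim_pff (hN : 2 ≤ N) (ρ : MulAut (FreeGroup (Fin N))) (i : Fin N) :
    IsProperFreeFactor (Subgroup.zpowers (ρ (of i))) := by
  have := (stdF_pff (I := {i}) ⟨i, rfl⟩ (exists_ne_fin hN i)).map ρ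
  rwa [stdF_singleton, MonoidHom.map_zpowers] at this

lemma reach_prim (hN : 2 ≤ N) (x₀ : Fin N) (n : ℕ) : ∀ ρ : MulAut (FreeGroup (Fin N)),
    hl (ρ (of x₀)) < n → ∀ C D : Vertex (FreeGroup (Fin N)), Subgroup.zpowers (ρ (of x₀)) ∈ C.1 →
    Subgroup.zpowers (of x₀) ∈ D.1 → (freeFactorGraph N).Reachable C D := by
  induction n with
  | zero =>
    intro ρ h
    have := hl_pos (prim_ne_one ρ x₀)
    norm_num at h
    linarith
  | succ n ih =>
    intro ρ h C D hC hD
    obtain ⟨u, w, hw, hu⟩ := exists_cyc (ρ (of x₀))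
    obtain ⟨η, hη⟩ : ∃ η : MulAut (FreeGroup (Fin N)), η (of x₀) = mk w :=
      ⟨MulAut.conj u⁻¹ * ρ, by simp [hu, mul_assoc]⟩
    have hC' : Subgroup.zpowers (η (of x₀)) ∈ C.1 := by
      rw [C.eq_class hC]
      exact ⟨u⁻¹, by rw [MonoidHom.map_zpowers, hη, hu]; simp [mul_assoc]⟩
    rw [hu, hl_conj, hl_cyc hw] at h
    by_cases hall : ∀ i, ∃ z ∈ w, z.1 = i
    · obtain ⟨p, w, rfl⟩ := List.exists_cons_of_ne_nil (show w ≠ [] by
        rintro rfl
        simpa using hall x₀)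
      obtain ⟨W, i, w1, w2⟩ := wh_reduce hw (ρ := η) (I := {x₀}) ⟨x₀, rfl⟩ (exists_ne_fin hN x₀)
        (Or.inl ⟨1, of x₀, InF.of rfl, by simp [hη]⟩) hall
      have a1 := ih (W * η) (by
        rw [MulAut.mul_apply, hη]
        simp only [List.length_cons, Nat.cast_add, Nat.cast_one] at h
        linarith) (act W C) D (by simpa using map_mem_act W hC') hD
      have a2 := a1.map (actHom ((W⁻¹ : MulAut _) : Out (FreeGroup (Fin N))))
      change (freeFactorGraph N).Reachable (act _ (act _ C)) (act _ D) at a2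
      rw [← act_mul, ← QuotientGroup.mk_mul, inv_mul_cancel, QuotientGroup.mk_one, act_one] at a2
      have w3 : W⁻¹ (of i) = of i := by rw [← w1, MulAut.inv_apply_self, w1]
      refine a2.trans ((reach_basis hN W⁻¹ x₀ i (by simpa using map_mem_act W⁻¹ hD)
        (mem_vtx (prim_pff hN W⁻¹ i))).trans (reach_basis hN 1 i x₀ ?_ hD))
      simpa [w3] using mem_vtx (prim_pff hN W⁻¹ i)
    · push Not at hall
      obtain ⟨j, hj⟩ := hall
      have hin : InF {j}ᶜ (η (of x₀)) := by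
        rw [hη]
        intro z hz
        rw [toWord_red hw.isReduced] at hz
        exact hj z hz
      obtain ⟨i, hi⟩ := exists_ne_fin hN j
      refine SimpleGraph.Reachable.trans ?_ (reach_basis hN 1 i x₀ (mem_vtx (prim_pff hN 1 i)) hD)
      by_cases h2 : N = 2
      · have : ({j}ᶜ : Set (Fin N)) = {i} := by
          subst h2
          ext k
          simp only [Set.mem_compl_iff, Set.mem_singleton_iff]
          omega
        rw [this, ← mem_stdF, stdF_singleton] at hin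
        obtain ⟨m, hm⟩ := Subgroup.mem_zpowers_iff.1 hin
        have h3 := congrArg (fun g => FreeGroup.lift (fun _ => Multiplicative.ofAdd (1 : ℤ)) (η⁻¹ g)) hm
        simp only [map_zpow, MulAut.inv_apply_self, lift_apply_of] at h3
        have h4 := congrArg Multiplicative.toAdd h3
        rw [toAdd_zpow, toAdd_ofAdd, smul_eq_mul] at h4
        have h5 : Subgroup.zpowers (η (of x₀)) = Subgroup.zpowers (of i) := by
          rcases Int.eq_one_or_neg_one_of_mul_eq_one h4 with rfl | rfl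
          · rw [← hm, zpow_one]
          · rw [← hm, zpow_neg, zpow_one, Subgroup.zpowers_inv]
        rw [h5] at hC'
        rw [Vertex.ext_mem hC' (mem_vtx (prim_pff hN 1 i))]
      · have hp := stdF_pff (I := {j}ᶜ) ⟨i, hi⟩ ⟨j, by simp⟩
        exact (reach_of_le h2 hC' (mem_vtx hp) (Subgroup.zpowers_le.2 hin)).trans
          (reach_of_le h2 (mem_vtx (prim_pff hN 1 i)) (mem_vtx hp)
            (Subgroup.zpowers_le.2 (InF.of hi))).symm

/-- every member of a vertex contains a basis element -/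
lemma exists_prim_mem (x₀ : Fin N) {A : Subgroup (FreeGroup (Fin N))} (h : IsProperFreeFactor A) :
    ∃ τ : MulAut (FreeGroup (Fin N)), τ (of x₀) ∈ A ∧
      (N = 2 → A = Subgroup.zpowers (τ (of x₀))) := by
  obtain ⟨ρ, I, ⟨i, hi⟩, ⟨j, hj⟩, rfl⟩ := pff_std h
  have e : (ρ * (freeGroupCongr (Equiv.swap x₀ i) : MulAut _)) (of x₀) = ρ (of i) := by simp
  refine ⟨ρ * (freeGroupCongr (Equiv.swap x₀ i) : MulAut _), e ▸ ⟨of i, InF.of hi, rfl⟩, ?_⟩
  rintro rfl
  have : I = {i} := by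
    ext k
    simp only [Set.mem_singleton_iff]
    refine ⟨fun hk => ?_, fun hk => hk ▸ hi⟩
    have a1 : k ≠ j := fun h => hj (h ▸ hk)
    have a2 : i ≠ j := fun h => hj (h ▸ hi)
    omega
  rw [e, this, stdF_singleton, MonoidHom.map_zpowers]
  rfl

theorem connected (hN : 2 ≤ N) (C D : Vertex (FreeGroup (Fin N))) :
    (freeFactorGraph N).Reachable C D := by
  let x₀ : Fin N := ⟨0, by omega⟩
  have : ∀ C : Vertex (FreeGroup (Fin N)),
      (freeFactorGraph N).Reachable C (vtx (prim_pff hN 1 x₀)) := by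
    intro C
    obtain ⟨A, hA⟩ := C.exists_mem
    obtain ⟨τ, h1, h2⟩ := exists_prim_mem x₀ (C.pff hA)
    obtain ⟨n, hn⟩ := exists_nat_gt (hl (τ (of x₀)))
    refine SimpleGraph.Reachable.trans ?_ (reach_prim hN x₀ n τ hn _ _
      (mem_vtx (prim_pff hN τ x₀)) (mem_vtx (prim_pff hN 1 x₀)))
    by_cases h : N = 2
    · rw [h2 h] at hA
      rw [Vertex.ext_mem hA (mem_vtx (prim_pff hN τ x₀))]
    · exact (reach_of_le h (mem_vtx _) hA (Subgroup.zpowers_le.2 h1)).symm
  exact (this C).trans (this D).symm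

lemma tendsto_tl (hN : 2 ≤ N) (x : Vertex (FreeGroup (Fin N))) (g : Out (FreeGroup (Fin N))) :
    Lin (fun k => (freeFactorGraph N).dist x (act (g ^ k) x)) (translationLength x g) := by
  have hs : Subadditive (fun k => ((freeFactorGraph N).dist x (act (g ^ k) x) : ℝ)) := by
    intro m n
    have a1 := (connected hN x (act (g ^ m) x)).dist_triangle_left (act (g ^ (m + n)) x)
    obtain ⟨p, hp⟩ := (connected hN x (act (g ^ n) x)).exists_walk_length_eq_dist
    have a2 := SimpleGraph.dist_le (p.map (actHom (g ^ m)))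
    rw [SimpleGraph.Walk.length_map, hp] at a2
    change (freeFactorGraph N).dist (act _ x) (act _ (act _ x)) ≤ _ at a2
    rw [← act_mul, ← pow_add] at a2
    beta_reduce
    exact_mod_cast a1.trans (Nat.add_le_add_left a2 _)
  exact tendsto_nhds_limUnder ⟨_, hs.tendsto_lim ⟨0, by rintro _ ⟨n, rfl⟩; positivity⟩⟩

/-- `t` sends the base generator into a member of the vertex `C` -/
def Over (x₀ : Fin N) (C : Vertex (FreeGroup (Fin N))) (t : Out (FreeGroup (Fin N))) : Prop :=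
  ∃ τ : MulAut (FreeGroup (Fin N)), (τ : Out _) = t ∧ ∃ A ∈ C.1, τ (of x₀) ∈ A

lemma exists_over (x₀ : Fin N) (C : Vertex (FreeGroup (Fin N))) : ∃ t, Over x₀ C t := by
  obtain ⟨A, hA⟩ := C.exists_mem
  obtain ⟨τ, h1, -⟩ := exists_prim_mem x₀ (C.pff hA)
  exact ⟨τ, τ, rfl, A, hA, h1⟩

lemma Over.act {x₀ : Fin N} {C : Vertex (FreeGroup (Fin N))} {t : Out (FreeGroup (Fin N))}
    (h : Over x₀ C t) (g : Out (FreeGroup (Fin N))) : Over x₀ (act g C) (g * t) := by
  obtain ⟨τ, rfl, A, hA, h⟩ := h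
  obtain ⟨σ, rfl⟩ := QuotientGroup.mk_surjective g
  exact ⟨σ * τ, rfl, _, map_mem_act σ hA, _, h, rfl⟩

lemma cin_of_mem {C : Vertex (FreeGroup (Fin N))} {A B : Subgroup (FreeGroup (Fin N))}
    (hA : A ∈ C.1) (hB : B ∈ C.1) {g : FreeGroup (Fin N)} (hg : g ∈ A)
    {ρ : MulAut (FreeGroup (Fin N))} {I : Set (Fin N)} (h : B ≤ (stdF I).map ρ.toMonoidHom) :
    Cin ρ I g := by
  rw [C.eq_class hB] at hA
  obtain ⟨u, rfl⟩ := hA
  obtain ⟨b, hb, rfl⟩ := hg
  obtain ⟨a, ha, rfl⟩ := h hb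
  exact ⟨u, a, ha, rfl⟩

lemma js_of_adj {C D : Vertex (FreeGroup (Fin N))} (h : C = D ∨ (freeFactorGraph N).Adj C D)
    {A B : Subgroup (FreeGroup (Fin N))} (hA : A ∈ C.1) (hB : B ∈ D.1) {g k : FreeGroup (Fin N)}
    (hg : g ∈ A) (hk : k ∈ B) : JS g k := by
  rcases h with rfl | h
  · obtain ⟨ρ, I, h1, h2, h3⟩ := pff_std (C.pff hA)
    exact ⟨ρ, I, h1, h2, Or.inl (cin_of_mem hA hA hg h3.le), Or.inl (cin_of_mem hB hA hk h3.le)⟩
  have key : ∀ (C D : Vertex (FreeGroup (Fin N))) (A B : Subgroup (FreeGroup (Fin N))) g k,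
      A ∈ C.1 → B ∈ D.1 → g ∈ A → k ∈ B →
      (if N = 2 then ∃ (b : FreeGroupBasis (Fin N) (FreeGroup (Fin N))) (i j : Fin N), i ≠ j ∧
        Subgroup.zpowers (b i) ∈ C.1 ∧ Subgroup.zpowers (b j) ∈ D.1
      else ∃ A ∈ C.1, ∃ B ∈ D.1, A < B) → JS g k := by
    intro C D A B g k hA hB hg hk
    split_ifs
    · rintro ⟨b, i, j, h1, h2, h3⟩
      refine ⟨b.repr.symm, {i}, ⟨i, rfl⟩, ⟨j, h1.symm⟩, Or.inl (cin_of_mem hA h2 hg ?_),
        Or.inr (cin_of_mem hB h3 hk ?_)⟩
      · exact Subgroup.zpowers_le.2 ⟨of i, InF.of rfl, rfl⟩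
      · exact Subgroup.zpowers_le.2 ⟨of j, InF.of h1.symm, rfl⟩
    · rintro ⟨A', h1, B', h2, h3⟩
      obtain ⟨ρ, I, i1, i2, i3⟩ := pff_std (D.pff h2)
      exact ⟨ρ, I, i1, i2, Or.inl (cin_of_mem hA h1 hg (h3.le.trans i3.le)),
        Or.inl (cin_of_mem hB h2 hk i3.le)⟩
  rw [freeFactorGraph, SimpleGraph.fromRel_adj] at h
  rcases h.2 with h | h
  · exact key C D A B g k hA hB hg hk h
  · exact (key D C B A k g hB hA hk hg h).symm

theorem main (hN : 2 ≤ N) (S : Set (Out (FreeGroup (Fin N)))) (hfin : S.Finite)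
    (hS : Subgroup.closure S = ⊤) : ∃ a : ℝ, 0 < a ∧ ∀ x : Vertex (FreeGroup (Fin N)),
    Tendsto (fun n : ℕ => ({g ∈ ball S n | a * n ≤ translationLength x g}.ncard : ℝ) /
      (ball S n).ncard) atTop (𝓝 1) := by
  classical
  let x₀ : Fin N := ⟨0, by omega⟩
  let x₁ : Fin N := ⟨1, by omega⟩
  have hx : x₁ ≠ x₀ := by simp [x₀, x₁]
  obtain ⟨φ, legp, legm, lp, lm, H⟩ : ∃ φ legp legm lp lm, Dyn x₀ φ legp legm lp lm := by
    by_cases h : N = 2
    · refine exists_dyn_two hx.symm fun i => ?_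
      simp only [x₀, x₁, Fin.ext_iff]
      omega
    · exact exists_dyn_big (a := x₀) (b := x₁) (c := ⟨2, by omega⟩) hx.symm (by simp [x₀])
        (by simp [x₁]) x₀
  obtain ⟨P, hP⟩ := H.exists_proj hx
  obtain ⟨A, hA, h⟩ := P.generic_tendsto ⟨S, hfin, hS⟩
  refine ⟨1 / A, by positivity, fun x => h (fun n g => 1 / (A : ℝ) * n ≤ translationLength x g)
    fun n g hl => ?_⟩
  obtain ⟨t, ht⟩ := exists_over x₀ x
  obtain ⟨C, hC⟩ := hl t
  have slow : ∀ (C D : Vertex (FreeGroup (Fin N))) s s', (C = D ∨ (freeFactorGraph N).Adj C D) →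
      Over x₀ C s → Over x₀ D s' → ∀ h, P.d h s s' ≤ P.θ := by
    rintro C D _ _ h ⟨τ, rfl, B, b1, b2⟩ ⟨τ', rfl, B', b1', b2'⟩
    exact hP τ τ' (js_of_adj h b1 b1' b2 b2')
  have bd : ∀ k, n * k ≤ A * ((freeFactorGraph N).dist x (act (g ^ k) x) + 1) + C := by
    intro k
    obtain ⟨p, hp⟩ := (connected hN x (act (g ^ k) x)).exists_walk_length_eq_dist
    choose c hc using exists_over (N := N) x₀
    set z : ℕ → Out (FreeGroup (Fin N)) := fun i =>
      if i = 0 then t else if i ≤ p.length then c (p.getVert i) else g ^ k * t with hz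
    have ov : ∀ i, Over x₀ (p.getVert i) (z i) := by
      intro i
      simp only [hz]
      split_ifs with h1 h2
      · rw [h1, p.getVert_zero]; exact ht
      · exact hc _
      · rw [p.getVert_of_length_le (by omega)]; exact ht.act _
    rw [← hp]
    refine hC k (p.length + 1) z (by simp [hz]) (by simp [hz]) fun i hi => ?_
    refine slow _ _ _ _ ?_ (ov i) (ov (i + 1))
    rcases (Nat.lt_succ_iff.1 hi).lt_or_eq with h1 | h1
    · exact Or.inr (p.adj_getVert_succ h1)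
    · exact Or.inl (by rw [p.getVert_of_length_le h1.ge, p.getVert_of_length_le (by omega)])
  have hA' : (0 : ℝ) < A := by exact_mod_cast hA
  have := (Lin.lin (n : ℝ)).le ((tendsto_tl hN x g).const_mul A) (A + C) fun k => by
    have : ((n * k : ℕ) : ℝ) ≤ ((A * ((freeFactorGraph N).dist x (act (g ^ k) x) + 1) + C : ℕ) : ℝ) :=
      Nat.cast_le.2 (bd k)
    push_cast at this
    linarith
  rw [one_div, inv_mul_le_iff₀ hA']
  exact this

end Pool.Agent.Lib.MP21ae20
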